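import Pool.Agent.Lib.L1S.B2
import Pool.Agent.Lib.L1S.L10

/-!
# FC, file D0 (helper21): words, reduced words and inversions

`ww b l` is the product of the simple reflections of the word `l : List b.support`. A word is reduced (`Red b l`) if all the roots `ww (prefix) α_i` (`i` the next letter) are positive.
-/

namespace Pool.Agent.Lib.L8.FC

set_option linter.unusedSectionVars false

open Matrix Pool.Agent.Lib.L1S

noncomputable section

variable {ι M N : Type} [Fintype ι] [DecidableEq ι] [AddCommGroup M] [Module ℚ M] [AddCommGroup N] [Module ℚ N]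
  {P : RootPairing ι ℚ M N}

/-- The element of the Weyl group of a word in the simple reflections. -/
def ww (b : P.Base) (l : List b.support) : Equiv.Perm ι := wl P (l.map Subtype.val)

theorem ww_nil (b : P.Base) : ww b [] = 1 := by simp [ww, wl]

theorem ww_cons (b : P.Base) (i : b.support) (l : List b.support) : ww b (i :: l) = P.reflectionPerm i * ww b l := by simp [ww, wl]

theorem ww_append (b : P.Base) (l l' : List b.support) : ww b (l ++ l') = ww b l * ww b l' := by simp [ww, wl]

theorem ww_single (b : P.Base) (i : b.support) : ww b [i] = P.reflectionPerm i := by simp [ww, wl]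

theorem ww_mem (b : P.Base) (l : List b.support) : ww b l ∈ WP P := wl_mem _

/-- Every element of the Weyl group is the element of a word. -/
theorem ww_exists [P.IsCrystallographic] [P.IsReduced] (b : P.Base) {w : Equiv.Perm ι} (hw : w ∈ WP P) : ∃ l, w = ww b l := by
  obtain ⟨l, h1, h2⟩ := b2_gen b hw
  refine ⟨l.attach.map fun i => ⟨i.1, h1 i.1 i.2⟩, ?_⟩
  rw [h2, ww, List.map_map]
  congr 1
  conv_lhs => rw [← List.attach_map_subtype_val l]
  rfl

theorem fc_ng_root (β : ι) : P.root (ng P β) = -P.root β := by simp [ng]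

theorem fc_ng_ng (β : ι) : ng P (ng P β) = β := by
  apply P.root.injective
  rw [fc_ng_root, fc_ng_root, neg_neg]

theorem fc_ng_w {w : Equiv.Perm ι} (hw : w ∈ WP P) (β : ι) : w (ng P β) = ng P (w β) := by
  obtain ⟨L, hL⟩ := b2_lin hw
  apply P.root.injective
  rw [fc_ng_root, ← hL, fc_ng_root, map_neg, hL]

theorem fc_ng_pos (b : P.Base) (β : ι) : b.IsPos (ng P β) ↔ ¬b.IsPos β := RootPairing.Base.IsPos.neg_iff_not b β

/-- A simple reflection changes the sign of a root only if the root is `± α_i`. -/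
theorem refl_pos [P.IsCrystallographic] [P.IsReduced] (b : P.Base) (i : b.support) {β : ι} (h1 : β ≠ i) (h2 : β ≠ ng P i) : b.IsPos (P.reflectionPerm i β) ↔ b.IsPos β := by
  by_cases h : b.IsPos β
  · exact ⟨fun _ => h, fun _ => h.reflectionPerm i.2 h1⟩
  · refine ⟨fun h3 => ?_, fun h3 => absurd h3 h⟩
    have h4 : b.IsPos (ng P β) := (fc_ng_pos b β).2 h
    have h5 : ng P β ≠ i := by
      intro h6
      apply h2
      rw [← h6, fc_ng_ng]
    have h6 := h4.reflectionPerm i.2 h5
    rw [fc_ng_w (Subgroup.subset_closure ⟨(i : ι), rfl⟩), fc_ng_pos] at h6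
    exact absurd h3 h6

/-- The inversions of `w`: the positive roots with negative image. -/
def Iv (b : P.Base) (w : Equiv.Perm ι) : Finset ι := by
  classical
  exact Finset.univ.filter fun β => b.IsPos β ∧ ¬b.IsPos (w β)

theorem mem_Iv (b : P.Base) (w : Equiv.Perm ι) (β : ι) : β ∈ Iv b w ↔ b.IsPos β ∧ ¬b.IsPos (w β) := by
  simp [Iv]

theorem Iv_one (b : P.Base) : Iv b (1 : Equiv.Perm ι) = ∅ := by
  ext β
  rw [mem_Iv]
  simp

/-- The inversions of `w⁻¹` are the `- w β`, `β` an inversion of `w`. -/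
theorem Iv_inv (b : P.Base) {w : Equiv.Perm ι} (hw : w ∈ WP P) (β : ι) : β ∈ Iv b w ↔ ng P (w β) ∈ Iv b w⁻¹ := by
  rw [mem_Iv, mem_Iv, fc_ng_pos, fc_ng_w (inv_mem hw), fc_ng_pos]
  have : w⁻¹ (w β) = β := w.symm_apply_apply β
  rw [this]
  tauto

theorem Iv_inv_card (b : P.Base) {w : Equiv.Perm ι} (hw : w ∈ WP P) : (Iv b w⁻¹).card = (Iv b w).card := by
  symm
  refine Finset.card_bij (fun β _ => ng P (w β)) (fun β hβ => (Iv_inv b hw β).1 hβ) ?_ ?_
  · intro x _ y _ h
    apply w.injective
    rw [← fc_ng_ng (P := P) (w x), h, fc_ng_ng]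
  · intro β hβ
    refine ⟨w⁻¹ (ng P β), ?_, ?_⟩
    · rw [Iv_inv b hw]
      have : w (w⁻¹ (ng P β)) = ng P β := w.apply_symm_apply _
      rw [this, fc_ng_ng]
      exact hβ
    · have : w (w⁻¹ (ng P β)) = ng P β := w.apply_symm_apply _
      rw [this, fc_ng_ng]

/-- Peeling off the first letter: if `w'⁻¹ α_i > 0` then the inversions of `s_i w'` are those of `w'` and `w'⁻¹ α_i`. -/
theorem Iv_left [P.IsCrystallographic] [P.IsReduced] (b : P.Base) (i : b.support) {w : Equiv.Perm ι} (hw : w ∈ WP P) (hp : b.IsPos (w⁻¹ (i : ι))) :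
    Iv b (P.reflectionPerm i * w) = insert (w⁻¹ (i : ι)) (Iv b w) := by
  have e1 : w (w⁻¹ (i : ι)) = i := w.apply_symm_apply _
  have e2 : P.reflectionPerm (i : ι) (i : ι) = ng P i := rfl
  ext β
  rw [mem_Iv, Finset.mem_insert, mem_Iv, Equiv.Perm.mul_apply]
  by_cases h1 : w β = i
  · have h2 : β = w⁻¹ (i : ι) := by rw [← h1]; exact (w.symm_apply_apply β).symm
    rw [h1, e2, fc_ng_pos, not_not]
    constructor
    · intro _
      exact Or.inl h2
    · intro _
      exact ⟨h2 ▸ hp, b.isPos_of_mem_support i.2⟩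
  · have hne : β ≠ w⁻¹ (i : ι) := by
      intro h
      apply h1
      rw [h, e1]
    by_cases h2 : w β = ng P i
    · have h3 : ¬b.IsPos β := by
        have h4 : β = ng P (w⁻¹ (i : ι)) := by
          rw [← fc_ng_w (inv_mem hw), ← h2]
          exact (w.symm_apply_apply β).symm
        rw [h4, fc_ng_pos, not_not]
        exact hp
      exact ⟨fun h => absurd h.1 h3, fun h => h.elim (fun h => absurd h hne) (fun h => absurd h.1 h3)⟩
    · rw [refl_pos b i h1 h2]
      exact ⟨fun h => Or.inr h, fun h => h.elim (fun h => absurd h hne) id⟩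

theorem Iv_left_notMem (b : P.Base) (i : b.support) {w : Equiv.Perm ι} : w⁻¹ (i : ι) ∉ Iv b w := by
  rw [mem_Iv]
  have e1 : w (w⁻¹ (i : ι)) = i := w.apply_symm_apply _
  rw [e1]
  exact fun h => h.2 (b.isPos_of_mem_support i.2)

theorem Iv_left_card [P.IsCrystallographic] [P.IsReduced] (b : P.Base) (i : b.support) {w : Equiv.Perm ι} (hw : w ∈ WP P) (hp : b.IsPos (w⁻¹ (i : ι))) :
    (Iv b (P.reflectionPerm i * w)).card = (Iv b w).card + 1 := by
  rw [Iv_left b i hw hp, Finset.card_insert_of_notMem (Iv_left_notMem b i)]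

theorem Iv_left_card' [P.IsCrystallographic] [P.IsReduced] (b : P.Base) (i : b.support) {w : Equiv.Perm ι} (hw : w ∈ WP P) (hp : ¬b.IsPos (w⁻¹ (i : ι))) :
    (Iv b (P.reflectionPerm i * w)).card + 1 = (Iv b w).card := by
  have hi : P.reflectionPerm (i : ι) ∈ WP P := Subgroup.subset_closure ⟨(i : ι), rfl⟩
  have h1 : b.IsPos ((P.reflectionPerm (i : ι) * w)⁻¹ (i : ι)) := by
    rw [_root_.mul_inv_rev, P.reflectionPerm_inv, Equiv.Perm.mul_apply]
    have e : w⁻¹ (P.reflectionPerm (i : ι) (i : ι)) = ng P (w⁻¹ (i : ι)) := fc_ng_w (inv_mem hw) (i : ι)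
    rw [e, fc_ng_pos]
    exact hp
  have h2 := Iv_left_card b i (mul_mem hi hw) h1
  have e2 : P.reflectionPerm (i : ι) * (P.reflectionPerm (i : ι) * w) = w := by
    rw [← mul_assoc, ← sq, P.reflectionPerm_sq, one_mul]
  rw [e2] at h2
  exact h2.symm

/-- The length of an element is at most the length of a word. -/
theorem Iv_card_le [P.IsCrystallographic] [P.IsReduced] (b : P.Base) (l : List b.support) : (Iv b (ww b l)).card ≤ l.length := by
  induction l with
  | nil => rw [ww_nil, Iv_one]; simp
  | cons i l ih =>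
    rw [ww_cons, List.length_cons]
    by_cases hp : b.IsPos ((ww b l)⁻¹ (i : ι))
    · rw [Iv_left_card b i (ww_mem b l) hp]
      lia
    · have := Iv_left_card' b i (ww_mem b l) hp
      lia

/-- **Reduced words.** -/
def Red (b : P.Base) (l : List b.support) : Prop := (Iv b (ww b l)).card = l.length

theorem Red_nil (b : P.Base) : Red b [] := by
  rw [Red, ww_nil, Iv_one]
  rfl

theorem Red_cons [P.IsCrystallographic] [P.IsReduced] (b : P.Base) (i : b.support) (l : List b.support) : Red b (i :: l) ↔ Red b l ∧ b.IsPos ((ww b l)⁻¹ (i : ι)) := by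
  have h0 := Iv_card_le b l
  by_cases hp : b.IsPos ((ww b l)⁻¹ (i : ι))
  · have h1 := Iv_left_card b i (ww_mem b l) hp
    simp only [Red, ww_cons, List.length_cons, h1, hp, and_true]
    lia
  · have h1 := Iv_left_card' b i (ww_mem b l) hp
    simp only [Red, ww_cons, List.length_cons, hp, and_false, iff_false]
    lia

theorem Red_reverse [P.IsCrystallographic] [P.IsReduced] (b : P.Base) (l : List b.support) : Red b l.reverse ↔ Red b l := by
  have h : ww b l.reverse = (ww b l)⁻¹ := by
    induction l with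
    | nil => simp [ww_nil]
    | cons i l ih =>
      rw [List.reverse_cons, ww_append, ih, ww_single, ww_cons, _root_.mul_inv_rev, P.reflectionPerm_inv]
  rw [Red, Red, h, Iv_inv_card b (ww_mem b l), List.length_reverse]

theorem ww_reverse [P.IsCrystallographic] [P.IsReduced] (b : P.Base) (l : List b.support) : ww b l.reverse = (ww b l)⁻¹ := by
  induction l with
  | nil => simp [ww_nil]
  | cons i l ih =>
    rw [List.reverse_cons, ww_append, ih, ww_single, ww_cons, _root_.mul_inv_rev, P.reflectionPerm_inv]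

theorem Red_suffix [P.IsCrystallographic] [P.IsReduced] (b : P.Base) (l l' : List b.support) (h : Red b (l ++ l')) : Red b l' := by
  induction l with
  | nil => exact h
  | cons i l ih => exact ih ((Red_cons b i (l ++ l')).1 h).1

theorem Red_prefix [P.IsCrystallographic] [P.IsReduced] (b : P.Base) (l l' : List b.support) (h : Red b (l ++ l')) : Red b l := by
  rw [← Red_reverse, List.reverse_append] at h
  exact (Red_reverse b l).1 (Red_suffix b _ _ h)

/-- The last letter. -/
theorem Red_concat [P.IsCrystallographic] [P.IsReduced] (b : P.Base) (i : b.support) (l : List b.support) : Red b (l ++ [i]) ↔ Red b l ∧ b.IsPos (ww b l (i : ι)) := by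
  rw [← Red_reverse, List.reverse_append, List.reverse_singleton, List.singleton_append, Red_cons, Red_reverse, ww_reverse, inv_inv]

/-- Every element of the Weyl group has a reduced word. -/
theorem Red_exists [P.IsCrystallographic] [P.IsReduced] (b : P.Base) {w : Equiv.Perm ι} (hw : w ∈ WP P) : ∃ l, Red b l ∧ w = ww b l := by
  generalize hn : (Iv b w).card = n
  induction n generalizing w with
  | zero =>
    refine ⟨[], Red_nil b, ?_⟩
    rw [ww_nil]
    refine b2_trans b hw fun i hi => ?_
    by_contra h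
    have h1 : (i : ι) ∈ Iv b w := (mem_Iv b w i).2 ⟨b.isPos_of_mem_support hi, h⟩
    rw [Finset.card_eq_zero] at hn
    rw [hn] at h1
    exact absurd h1 (Finset.notMem_empty _)
  | succ n ih =>
    have h1 : ∃ i : b.support, ¬b.IsPos (w⁻¹ (i : ι)) := by
      by_contra hcon
      push Not at hcon
      have h2 : w⁻¹ = 1 := b2_trans b (inv_mem hw) fun i hi => hcon ⟨i, hi⟩
      have h3 : w = 1 := inv_eq_one.1 h2
      rw [h3, Iv_one] at hn
      simp at hn
    obtain ⟨i, hi⟩ := h1
    have h2 := Iv_left_card' b i hw hi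
    have hi' : P.reflectionPerm (i : ι) ∈ WP P := Subgroup.subset_closure ⟨(i : ι), rfl⟩
    obtain ⟨l, hl, e⟩ := ih (mul_mem hi' hw) (by lia)
    have e2 : w = ww b (i :: l) := by
      rw [ww_cons, ← e, ← mul_assoc, ← sq, P.reflectionPerm_sq, one_mul]
    refine ⟨i :: l, ?_, e2⟩
    rw [Red, ← e2, hn, List.length_cons]
    have : (Iv b (ww b l)).card = l.length := hl
    rw [← e] at this
    lia

/-- For a reduced word `l1 ++ i :: l2` of `w` the root `w1 α_i` is positive and its image under `w⁻¹` is negative. -/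
theorem Red_root [P.IsCrystallographic] [P.IsReduced] (b : P.Base) {l1 l2 : List b.support} {i : b.support} (h : Red b (l1 ++ i :: l2)) :
    b.IsPos (ww b l1 (i : ι)) ∧ ¬b.IsPos ((ww b (l1 ++ i :: l2))⁻¹ (ww b l1 (i : ι))) := by
  constructor
  · have h1 : Red b (l1 ++ [i]) := Red_prefix b (l1 ++ [i]) l2 (by simpa using h)
    exact ((Red_concat b i l1).1 h1).2
  · have h1 := (Red_cons b i l2).1 (Red_suffix b l1 (i :: l2) h)
    rw [ww_append, _root_.mul_inv_rev, Equiv.Perm.mul_apply]
    have e1 : (ww b l1)⁻¹ (ww b l1 (i : ι)) = i := (ww b l1).symm_apply_apply _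
    have e2 : (P.reflectionPerm (i : ι))⁻¹ (i : ι) = ng P i := by rw [P.reflectionPerm_inv]
    rw [e1, ww_cons, _root_.mul_inv_rev, Equiv.Perm.mul_apply, e2, fc_ng_w (inv_mem (ww_mem b l2)), fc_ng_pos, not_not]
    exact h1.2

end

end Pool.Agent.Lib.L8.FC
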