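import Pool.Agent.Lib.L8.FL.Defs
import Pool.Agent.Lib.L8.FC.D0

/-!
# FC, file D1 (helper21): words and the elements `w_J`

(2.2) of PROOF_F.md in the notation of `FL/Defs.lean` (last letter first).
-/

namespace Pool.Agent.Lib.L8.FC

set_option linter.unusedSectionVars false

open Matrix Pool.Agent.Lib.H89N Pool.Agent.Lib.L1S Pool.Agent.Lib.L8.FL

noncomputable section

variable {ι M N : Type} [Fintype ι] [DecidableEq ι] [AddCommGroup M] [Module ℚ M] [AddCommGroup N] [Module ℚ N]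
  {P : RootPairing ι ℚ M N} [P.IsCrystallographic] [P.IsReduced] [P.IsIrreducible] [P.IsRootSystem] {b : P.Base}

/-! ## Words -/

theorem wW_eq (b : P.Base) (L : List b.support) : wW b L = ww b L.reverse := by
  induction L with
  | nil => rw [List.reverse_nil, ww_nil]; rfl
  | cons i L ih => rw [List.reverse_cons, ww_append, ww_single, ← ih]; rfl

theorem wW_mem (b : P.Base) (L : List b.support) : wW b L ∈ WP P := by
  rw [wW_eq]
  exact ww_mem b _

theorem RedW_eq (b : P.Base) (L : List b.support) : RedW b L ↔ Red b L.reverse := by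
  induction L with
  | nil => exact ⟨fun _ => Red_nil b, fun _ => trivial⟩
  | cons i L ih =>
    rw [List.reverse_cons, Red_concat, ← ih, ← wW_eq]
    exact and_comm

/-- Every element of the Weyl group has a reduced word. -/
theorem RedW_exists (b : P.Base) {w : Equiv.Perm ι} (hw : w ∈ WP P) : ∃ L, RedW b L ∧ wW b L = w := by
  obtain ⟨l, h1, h2⟩ := Red_exists b hw
  refine ⟨l.reverse, ?_, ?_⟩
  · rw [RedW_eq, List.reverse_reverse]
    exact h1
  · rw [wW_eq, List.reverse_reverse]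
    exact h2.symm

theorem wW_append (b : P.Base) (L L' : List b.support) : wW b (L ++ L') = wW b L' * wW b L := by
  rw [wW_eq, wW_eq, wW_eq, List.reverse_append, ww_append]

/-- The word of the inverse. -/
theorem wW_reverse (b : P.Base) (L : List b.support) : wW b L.reverse = (wW b L)⁻¹ := by
  rw [wW_eq, wW_eq, List.reverse_reverse, ww_reverse, inv_inv]

theorem RedW_reverse (b : P.Base) (L : List b.support) : RedW b L.reverse ↔ RedW b L := by
  rw [RedW_eq, RedW_eq, Red_reverse]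

/-- The roots of a reduced word: for `L = L1 ++ i :: L2` (last letter first) the root `w2 α_i` is positive and `w⁻¹` makes it negative. -/
theorem RedW_root (b : P.Base) {L1 L2 : List b.support} {i : b.support} (h : RedW b (L1 ++ i :: L2)) :
    b.IsPos (wW b L2 (i : ι)) ∧ ¬b.IsPos ((wW b (L1 ++ i :: L2))⁻¹ (wW b L2 (i : ι))) := by
  have h1 : Red b (L2.reverse ++ i :: L1.reverse) := by
    have h2 := (RedW_eq b _).1 h
    simpa using h2
  have h3 := Red_root b h1
  rw [wW_eq, wW_eq]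
  have e : (L1 ++ i :: L2).reverse = L2.reverse ++ i :: L1.reverse := by simp
  rw [e]
  exact h3

theorem RedW_tail (b : P.Base) {L1 L2 : List b.support} (h : RedW b (L1 ++ L2)) : RedW b L2 := by
  induction L1 with
  | nil => exact h
  | cons i L ih => exact ih h.2

/-! ## Coefficients -/

theorem mc_wq (b : P.Base) (l : b.support) (a : I b) : ((mc b l a : ℤ) : ℚ) = wq b a l := iw_mc b l a

theorem mc_root (b : P.Base) (l : b.support) (β : ι) : ((mc b l (Sum.inr β) : ℤ) : ℚ) = b.toWeightBasis.repr (P.root β) l := iw_mc b l (Sum.inr β)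

theorem mem_Phi (b : P.Base) (l : b.support) (β : ι) : β ∈ Phi b l ↔ 0 < mc b l (Sum.inr β) := by
  rw [← Int.cast_pos (R := ℚ), mc_root]
  simp [Phi]

theorem mc_pos (b : P.Base) {β : ι} (h : b.IsPos β) (l : b.support) : 0 ≤ mc b l (Sum.inr β) := by
  have h1 := b2_nonneg b h l
  rw [← mc_root] at h1
  exact_mod_cast h1

theorem mc_neg (b : P.Base) {β : ι} (h : ¬b.IsPos β) (l : b.support) : mc b l (Sum.inr β) ≤ 0 := by
  have h1 := b2_nonpos b h l
  rw [← mc_root] at h1
  exact_mod_cast h1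

theorem mc_ng (b : P.Base) (l : b.support) (β : ι) : mc b l (Sum.inr (ng P β)) = -mc b l (Sum.inr β) := by
  have h : ((mc b l (Sum.inr (ng P β)) : ℤ) : ℚ) = ((-mc b l (Sum.inr β) : ℤ) : ℚ) := by
    rw [mc_root, fc_ng_root, map_neg, Finsupp.neg_apply, ← mc_root]
    push_cast
    ring
  exact_mod_cast h

theorem mc_simple (b : P.Base) (l i : b.support) : mc b l (Sum.inr (i : ι)) = if i = l then 1 else 0 := by
  have h : ((mc b l (Sum.inr (i : ι)) : ℤ) : ℚ) = ((if i = l then 1 else 0 : ℤ) : ℚ) := by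
    rw [mc_root, b.toWeightBasis_repr_root, Finsupp.single_apply]
    push_cast
    rfl
  exact_mod_cast h

theorem root_sum (b : P.Base) (β : ι) : P.root β = ∑ k : b.support, (mc b k (Sum.inr β) : ℚ) • P.root k := by
  conv_lhs => rw [← b.toWeightBasis.sum_repr (P.root β)]
  refine Finset.sum_congr rfl fun k _ => ?_
  rw [mc_root, b.toWeightBasis_apply]

/-- The coefficients of the image of a root. -/
theorem mc_image (b : P.Base) {w : Equiv.Perm ι} (hw : w ∈ WP P) (l : b.support) (β : ι) :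
    mc b l (Sum.inr (w β)) = ∑ k : b.support, mc b k (Sum.inr β) * mc b l (Sum.inr (w (k : ι))) := by
  obtain ⟨L, hL⟩ := b2_lin hw
  have h : ((mc b l (Sum.inr (w β)) : ℤ) : ℚ) = ((∑ k : b.support, mc b k (Sum.inr β) * mc b l (Sum.inr (w (k : ι))) : ℤ) : ℚ) := by
    rw [mc_root, ← hL, root_sum b β, map_sum, map_sum, Finsupp.finsetSum_apply]
    push_cast
    refine Finset.sum_congr rfl fun k _ => ?_
    rw [map_smul, map_smul, Finsupp.smul_apply, smul_eq_mul, hL, ← mc_root]
  exact_mod_cast h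

/-- A root is positive if all its coefficients are nonnegative. -/
theorem pos_of_mc (b : P.Base) {β : ι} (h : ∀ k, 0 ≤ mc b k (Sum.inr β)) : b.IsPos β := by
  by_contra hneg
  have h1 : ∀ k, mc b k (Sum.inr β) = 0 := fun k => le_antisymm (mc_neg b hneg k) (h k)
  have h2 : P.root β = 0 := by
    rw [root_sum b β]
    exact Finset.sum_eq_zero fun k _ => by rw [h1 k]; simp
  exact P.ne_zero β h2

/-- A positive root has a positive coefficient. -/
theorem exists_mc_pos (b : P.Base) {β : ι} (h : b.IsPos β) : ∃ k, 0 < mc b k (Sum.inr β) := by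
  by_contra hcon
  push Not at hcon
  have h1 : b.IsPos (ng P β) := pos_of_mc b fun k => by rw [mc_ng]; linarith [hcon k]
  exact (fc_ng_pos b β).1 h1 h

theorem pos_of_one (b : P.Base) {β : ι} {k : b.support} (h : 0 < mc b k (Sum.inr β)) : b.IsPos β := by
  by_contra hneg
  exact absurd (mc_neg b hneg k) (not_le.2 h)

theorem neg_of_one (b : P.Base) {β : ι} {k : b.support} (h : mc b k (Sum.inr β) < 0) : ¬b.IsPos β := fun hp => absurd (mc_pos b hp k) (not_le.2 h)

theorem dJ_eq_zero (b : P.Base) (J : Finset b.support) {β : ι} (h : b.IsPos β) : dJ b J (Sum.inr β) = 0 ↔ ∀ j ∈ J, mc b j (Sum.inr β) = 0 := by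
  unfold dJ
  exact Finset.sum_eq_zero_iff_of_nonneg fun j _ => mc_pos b h j

theorem dJ_simple (b : P.Base) (J : Finset b.support) (i : b.support) : dJ b J (Sum.inr (i : ι)) = if i ∈ J then 1 else 0 := by
  unfold dJ
  simp only [mc_simple]
  simp

/-! ## The elements `w_J` -/

variable {J : Finset b.support} {w : Equiv.Perm ι}

theorem isWJ_neg (h : IsWJ b J w) {j : b.support} (hj : j ∈ J) : ¬b.IsPos (w (j : ι)) := by
  rw [h.2 _ (b.isPos_of_mem_support j.2), dJ_simple, if_pos hj]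
  norm_num

/-- A positive root which is not simple is the sum of a positive root and a simple root. -/
theorem pos_split (b : P.Base) {γ : ι} (h : b.IsPos γ) (hs : γ ∉ b.support) : ∃ γ' k, b.IsPos γ' ∧ k ∈ b.support ∧ P.root γ = P.root γ' + P.root k := by
  obtain ⟨j, hj, hj'⟩ := h.exists_mem_support_pos_pairingIn
  rw [P.zero_lt_pairingIn_iff'] at hj'
  have hne : γ ≠ j := fun e => hs (e ▸ hj)
  obtain ⟨k, hk⟩ := P.root_sub_root_mem_of_pairingIn_pos hj' hne
  exact ⟨k, j, h.sub hj hk, hj, by rw [hk, sub_add_cancel]⟩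

/-- `w_J` maps the simple roots outside `J` to simple roots. -/
theorem isWJ_simple (h : IsWJ b J w) {i : b.support} (hi : i ∉ J) : w (i : ι) ∈ b.support := by
  have hp : b.IsPos (w (i : ι)) := by
    rw [h.2 _ (b.isPos_of_mem_support i.2), dJ_simple, if_neg hi]
  by_contra hs
  obtain ⟨γ', k, hγ, hk, e⟩ := pos_split b hp hs
  obtain ⟨L, hL⟩ := b2_lin (inv_mem h.1)
  have hkp := b.isPos_of_mem_support hk
  have e1 : P.root (i : ι) = P.root (w⁻¹ γ') + P.root (w⁻¹ k) := by
    rw [← hL, ← hL, ← map_add, ← e, hL]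
    exact congrArg P.root (w.symm_apply_apply (i : ι)).symm
  have e2 : ∀ l, mc b l (Sum.inr (i : ι)) = mc b l (Sum.inr (w⁻¹ γ')) + mc b l (Sum.inr (w⁻¹ k)) := by
    intro l
    have h1 : ((mc b l (Sum.inr (i : ι)) : ℤ) : ℚ) = ((mc b l (Sum.inr (w⁻¹ γ')) + mc b l (Sum.inr (w⁻¹ k)) : ℤ) : ℚ) := by
      rw [mc_root, e1, map_add, Finsupp.add_apply]
      push_cast
      rw [mc_root, mc_root]
    exact_mod_cast h1
  -- the images of positive roots under `w⁻¹`
  have key : ∀ γ, b.IsPos γ → (b.IsPos (w⁻¹ γ) ∧ ∀ j ∈ J, mc b j (Sum.inr (w⁻¹ γ)) = 0) ∨ (¬b.IsPos (w⁻¹ γ) ∧ ∃ j ∈ J, mc b j (Sum.inr (w⁻¹ γ)) < 0) := by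
    intro γ hg
    have ew : w (w⁻¹ γ) = γ := w.apply_symm_apply γ
    by_cases hq : b.IsPos (w⁻¹ γ)
    · left
      refine ⟨hq, ?_⟩
      have h1 := (h.2 _ hq).1 (by rw [ew]; exact hg)
      exact (dJ_eq_zero b J hq).1 h1
    · right
      refine ⟨hq, ?_⟩
      have hq' : b.IsPos (ng P (w⁻¹ γ)) := (fc_ng_pos b _).2 hq
      have h1 : ¬b.IsPos (w (ng P (w⁻¹ γ))) := by
        rw [fc_ng_w h.1, fc_ng_pos, not_not, ew]
        exact hg
      rw [h.2 _ hq', dJ_eq_zero b J hq'] at h1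
      push Not at h1
      obtain ⟨j, hj, hne⟩ := h1
      refine ⟨j, hj, ?_⟩
      rw [mc_ng] at hne
      have := mc_neg b hq j
      lia
  have e3 : ∀ j ∈ J, mc b j (Sum.inr (i : ι)) = 0 := by
    intro j hj
    rw [mc_simple, if_neg]
    rintro rfl
    exact hi hj
  rcases key γ' hγ with ⟨h1, h2⟩ | ⟨h1, j, hj, h2⟩
  · rcases key k hkp with ⟨h3, h4⟩ | ⟨h3, j, hj, h4⟩
    · -- both positive: the height
      have hh : b.height (i : ι) = b.height (w⁻¹ γ') + b.height (w⁻¹ k) := b.height_add e1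
      rw [RootPairing.Base.height_one_of_mem_support i.2] at hh
      have := b.isPos_iff.1 h1
      have := b.isPos_iff.1 h3
      lia
    · have := e2 j
      rw [e3 j hj, h2 j hj] at this
      lia
  · rcases key k hkp with ⟨h3, h4⟩ | ⟨h3, j', hj', h4⟩
    · have := e2 j
      rw [e3 j hj, h4 j hj] at this
      lia
    · have := e2 j
      rw [e3 j hj] at this
      have h5 := mc_neg b h3 j
      lia

/-- `w_J` is unique. -/
theorem isWJ_unique {w' : Equiv.Perm ι} (h : IsWJ b J w) (h' : IsWJ b J w') : w = w' := by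
  have h1 : w' * w⁻¹ = 1 := by
    refine b2_trans b (mul_mem h'.1 (inv_mem h.1)) fun γ hγ => ?_
    rw [Equiv.Perm.mul_apply]
    have hg := b.isPos_of_mem_support hγ
    have ew : w (w⁻¹ γ) = γ := w.apply_symm_apply γ
    by_cases hq : b.IsPos (w⁻¹ γ)
    · rw [h'.2 _ hq, ← h.2 _ hq, ew]
      exact hg
    · have hq' : b.IsPos (ng P (w⁻¹ γ)) := (fc_ng_pos b _).2 hq
      have h1 : ¬b.IsPos (w (ng P (w⁻¹ γ))) := by
        rw [fc_ng_w h.1, fc_ng_pos, not_not, ew]
        exact hg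
      rw [h.2 _ hq', ← h'.2 _ hq', fc_ng_w h'.1, fc_ng_pos, not_not] at h1
      exact h1
  exact (mul_inv_eq_one.1 h1).symm

theorem mem_Js (w : Equiv.Perm ι) (j : b.support) : j ∈ Js b w ↔ ¬b.IsPos (w⁻¹ (j : ι)) := by simp [Js]

/-- **The inverse** of `w_J` is `w_(J*)`. -/
theorem isWJ_inv (h : IsWJ b J w) : IsWJ b (Js b w) w⁻¹ := by
  refine ⟨inv_mem h.1, fun β hβ => ?_⟩
  rw [dJ_eq_zero b _ hβ]
  constructor
  · intro hp j hj
    set δ := w⁻¹ β with hδ
    have ew : w δ = β := w.apply_symm_apply β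
    have h1 := (dJ_eq_zero b J hp).1 ((h.2 _ hp).1 (by rw [ew]; exact hβ))
    rw [← ew, mc_image b h.1]
    refine Finset.sum_eq_zero fun k _ => ?_
    by_cases hk : k ∈ J
    · rw [h1 k hk, zero_mul]
    · have hs := isWJ_simple h hk
      have h2 : mc b j (Sum.inr (w (k : ι))) = 0 := by
        have h3 := mc_simple b j ⟨w (k : ι), hs⟩
        rw [if_neg] at h3
        · exact h3
        · intro h4
          rw [mem_Js] at hj
          apply hj
          rw [← h4]
          have : w⁻¹ (w (k : ι)) = k := w.symm_apply_apply _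
          change b.IsPos (w⁻¹ (w (k : ι)))
          rw [this]
          exact b.isPos_of_mem_support k.2
      rw [h2, mul_zero]
  · intro h0
    refine pos_of_mc b fun l => ?_
    rw [mc_image b (inv_mem h.1)]
    refine Finset.sum_nonneg fun k _ => ?_
    by_cases hk : k ∈ Js b w
    · rw [h0 k hk, zero_mul]
    · rw [mem_Js, not_not] at hk
      exact mul_nonneg (mc_pos b hβ k) (mc_pos b hk l)

/-- `w Φ_j = - Φ_k`, `k = j*`, for `j ∈ J`. -/
theorem isWJ_opp (h : IsWJ b J w) {j : b.support} (hj : j ∈ J) : ∃ k, OppW b j k w :=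
  b2_opp b h.1 (fun i hi hp => by
    by_cases hiJ : (⟨i, hi⟩ : b.support) ∈ J
    · exact absurd hp (isWJ_neg h hiJ)
    · exact isWJ_simple h hiJ) j (isWJ_neg h hj)

/-- `w Φ_j = - Φ_k` for the coefficients. -/
theorem opp_mc {j k : b.support} (hw : w ∈ WP P) (h : OppW b j k w) (β : ι) : mc b k (Sum.inr (w β)) = -mc b j (Sum.inr β) := by
  -- `f(γ) = m_j(w⁻¹ γ)`
  have h1 : ∀ γ, 0 < mc b j (Sum.inr (w⁻¹ γ)) ↔ mc b k (Sum.inr γ) < 0 := by
    intro γ
    have h2 := h (w⁻¹ γ)
    have ew : w (w⁻¹ γ) = γ := w.apply_symm_apply γ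
    rw [ew, mem_Phi, mem_Phi] at h2
    have h3 : mc b k (Sum.inr (P.reflectionPerm γ γ)) = -mc b k (Sum.inr γ) := mc_ng b k γ
    rw [h3] at h2
    rw [h2]
    exact ⟨fun _ => by linarith, fun _ => by linarith⟩
  have h2 : ∀ γ, mc b j (Sum.inr (w⁻¹ γ)) < 0 ↔ 0 < mc b k (Sum.inr γ) := by
    intro γ
    have h3 := h1 (ng P γ)
    rw [fc_ng_w (inv_mem hw), mc_ng, mc_ng] at h3
    exact ⟨fun h4 => by have := h3.1 (by linarith); linarith, fun h4 => by have := h3.2 (by linarith); linarith⟩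
  have h3 : ∀ l : b.support, l ≠ k → mc b j (Sum.inr (w⁻¹ (l : ι))) = 0 := by
    intro l hl
    have h4 := mc_simple b k l
    rw [if_neg hl] at h4
    have h5 : ¬0 < mc b j (Sum.inr (w⁻¹ (l : ι))) := by rw [h1]; lia
    have h6 : ¬mc b j (Sum.inr (w⁻¹ (l : ι))) < 0 := by rw [h2]; lia
    lia
  have h4 : ∀ γ, mc b j (Sum.inr (w⁻¹ γ)) = mc b k (Sum.inr γ) * mc b j (Sum.inr (w⁻¹ (k : ι))) := by
    intro γ
    rw [mc_image b (inv_mem hw), Finset.sum_eq_single k (fun l _ hl => by rw [h3 l hl, mul_zero]) (fun h => absurd (Finset.mem_univ k) h)]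
  have h5 : mc b j (Sum.inr (w⁻¹ (k : ι))) = -1 := by
    have h6 := h4 (w (j : ι))
    have ew : w⁻¹ (w (j : ι)) = j := w.symm_apply_apply _
    rw [ew, mc_simple, if_pos rfl] at h6
    have h7 : mc b j (Sum.inr (w⁻¹ (k : ι))) < 0 := by
      rw [h2, mc_simple, if_pos rfl]
      norm_num
    have h8 : mc b j (Sum.inr (w⁻¹ (k : ι))) ∣ 1 := ⟨_, by rw [mul_comm]; exact h6⟩
    rcases Int.isUnit_iff.1 (isUnit_of_dvd_one h8) with h9 | h9
    · lia
    · exact h9
  have h6 := h4 (w β)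
  have ew : w⁻¹ (w β) = β := w.symm_apply_apply _
  rw [ew, h5] at h6
  lia

theorem opp_inv {j k : b.support} (hw : w ∈ WP P) (h : OppW b j k w) : OppW b k j w⁻¹ := by
  intro β
  have h1 := h (ng P (w⁻¹ β))
  have ew : w (w⁻¹ β) = β := w.apply_symm_apply β
  rw [fc_ng_w hw, ew] at h1
  have h2 : P.reflectionPerm (ng P β) (ng P β) = β := fc_ng_ng β
  rw [h2] at h1
  exact h1.symm

/-- `j* ∈ J*`. -/
theorem opp_mem_Js {j k : b.support} (hw : w ∈ WP P) (h : OppW b j k w) : k ∈ Js b w := by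
  rw [mem_Js]
  have h1 := opp_mc (inv_mem hw) (opp_inv hw h) (k : ι)
  rw [mc_simple, if_pos rfl] at h1
  exact neg_of_one b (k := j) (by rw [h1]; norm_num)

/-- `Js (w⁻¹) = J`. -/
theorem Js_inv (h : IsWJ b J w) : Js b w⁻¹ = J := by
  ext j
  rw [mem_Js, inv_inv]
  constructor
  · intro h1
    by_contra h2
    exact h1 (b.isPos_of_mem_support (isWJ_simple h h2))
  · exact fun h1 => isWJ_neg h h1

/-- Every element of `J*` is a `j*`. -/
theorem isWJ_opp' (h : IsWJ b J w) {k : b.support} (hk : k ∈ Js b w) : ∃ j ∈ J, OppW b j k w := by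
  obtain ⟨j, hj⟩ := isWJ_opp (isWJ_inv h) hk
  have h1 := opp_inv (inv_mem h.1) hj
  rw [inv_inv] at h1
  refine ⟨j, ?_, h1⟩
  have h2 := opp_mem_Js (inv_mem h.1) hj
  rw [Js_inv h] at h2
  exact h2

theorem opp_inj {j j' k : b.support} (h : OppW b j k w) (h' : OppW b j' k w) : j = j' := by
  have h1 : (j : ι) ∈ Phi b j := by rw [mem_Phi, mc_simple, if_pos rfl]; norm_num
  have h2 : (j : ι) ∈ Phi b j' := (h' _).2 ((h _).1 h1)
  rw [mem_Phi, mc_simple] at h2
  by_contra hne
  rw [if_neg hne] at h2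
  exact absurd h2 (lt_irrefl _)

theorem opp_inj' {j k k' : b.support} (hw : w ∈ WP P) (h : OppW b j k w) (h' : OppW b j k' w) : k = k' := opp_inj (opp_inv hw h) (opp_inv hw h')

/-- `j ↦ j*`. -/
def starF (h : IsWJ b J w) (j : J) : Js b w := ⟨(isWJ_opp h j.2).choose, opp_mem_Js h.1 (isWJ_opp h j.2).choose_spec⟩

theorem starF_opp (h : IsWJ b J w) (j : J) : OppW b j.1 (starF h j).1 w := (isWJ_opp h j.2).choose_spec

/-- The inverse map. -/
def starG (h : IsWJ b J w) (k : Js b w) : J := ⟨(isWJ_opp' h k.2).choose, (isWJ_opp' h k.2).choose_spec.1⟩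

theorem starG_opp (h : IsWJ b J w) (k : Js b w) : OppW b (starG h k).1 k.1 w := (isWJ_opp' h k.2).choose_spec.2

/-- The bijection `J ≃ J*`. -/
def starE (h : IsWJ b J w) : J ≃ Js b w where
  toFun := starF h
  invFun := starG h
  left_inv j := Subtype.ext (opp_inj (starG_opp h (starF h j)) (starF_opp h j))
  right_inv k := Subtype.ext (opp_inj' h.1 (starF_opp h (starG h k)) (starG_opp h k))

theorem starE_opp (h : IsWJ b J w) (j : J) : OppW b j.1 (starE h j).1 w := starF_opp h j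

/-- The positive roots which `w_J` makes negative. -/
theorem isWJ_pos (h : IsWJ b J w) {β : ι} (hβ : b.IsPos β) : ¬b.IsPos (w β) ↔ ∃ j ∈ J, β ∈ Phi b j := by
  rw [h.2 _ hβ, dJ_eq_zero b J hβ]
  push Not
  refine exists_congr fun j => and_congr_right fun _ => ?_
  rw [mem_Phi]
  have := mc_pos b hβ j
  lia

end

end Pool.Agent.Lib.L8.FC
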