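import Pool.Agent.Lib.L8.FC.D1
import Pool.Agent.Lib.L8.W1B

/-!
# FC, file D6 (helper21): the dichotomy with cells ((2.1) of PROOF_F.md), for every quasi-split group
-/

namespace Pool.Agent.Lib.L8.FC

set_option linter.unusedSectionVars false

open Matrix NumberField IsDedekindDomain Pool.Agent.Lib.H89N Pool.Agent.Lib.H33W Pool.Agent.Lib.H67G Pool.Agent.Lib.L1S Pool.Agent.Lib.L8.FL

noncomputable section

variable {ι M N : Type} [Fintype ι] [DecidableEq ι] [AddCommGroup M] [Module ℚ M] [AddCommGroup N] [Module ℚ N]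
  {P : RootPairing ι ℚ M N} [P.IsCrystallographic] [P.IsReduced] [P.IsIrreducible] [P.IsRootSystem] {b : P.Base}

open scoped Classical in
/-- The simple roots which `w` makes negative. -/
def Jw (b : P.Base) (w : Equiv.Perm ι) : Finset b.support := Finset.univ.filter fun j => ¬b.IsPos (w j)

theorem mem_Jw (w : Equiv.Perm ι) (j : b.support) : j ∈ Jw b w ↔ ¬b.IsPos (w (j : ι)) := by simp [Jw]

/-- If `w` maps every simple root to a negative root or to a simple root, then `w = w_J` for the set `J` of the simple roots with negative image. -/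
theorem isWJ_of {w : Equiv.Perm ι} (hw : w ∈ WP P) (h : ∀ i ∈ b.support, b.IsPos (w i) → w i ∈ b.support) : IsWJ b (Jw b w) w := by
  refine ⟨hw, fun β hβ => ?_⟩
  rw [dJ_eq_zero b _ hβ]
  constructor
  · intro hp j hj
    by_contra hne
    have h1 : β ∈ Phi b j := by
      rw [mem_Phi]
      have := mc_pos b hβ j
      lia
    obtain ⟨k, hk⟩ := b2_opp b hw h j ((mem_Jw w j).1 hj)
    have h2 := (hk β).1 h1
    rw [mem_Phi] at h2
    have h3 : mc b k (Sum.inr (P.reflectionPerm (w β) (w β))) = -mc b k (Sum.inr (w β)) := mc_ng b k (w β)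
    rw [h3] at h2
    exact neg_of_one b (k := k) (by lia) hp
  · intro h0
    refine pos_of_mc b fun l => ?_
    rw [mc_image b hw]
    refine Finset.sum_nonneg fun k _ => ?_
    by_cases hk : k ∈ Jw b w
    · rw [h0 k hk, zero_mul]
    · rw [mem_Jw, not_not] at hk
      exact mul_nonneg (mc_pos b hβ k) (mc_pos b hk l)

theorem Jw_nonempty {w : Equiv.Perm ι} (hw : w ∈ WP P) (h : w ≠ 1) : (Jw b w).Nonempty := by
  by_contra hne
  rw [Finset.not_nonempty_iff_eq_empty] at hne
  refine h (b2_trans b hw fun i hi => ?_)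
  by_contra hneg
  have h1 : (⟨i, hi⟩ : b.support) ∈ Jw b w := (mem_Jw w _).2 hneg
  rw [hne] at h1
  exact absurd h1 (Finset.notMem_empty _)

/-- A minor of an element of the cell of `w`. -/
theorem dm_cell {L : Type} [Field L] [NumberField L] {w : Equiv.Perm ι} {g : GK b L} (hg : g ∈ cell b L w) {i j : b.support} (hij : OppW b i j w) : Dm b i w g.1.1 ≠ 0 := by
  obtain ⟨u, hu, n, hn, u', hu', e0⟩ := hg
  have e : g.1.1 = u.1.1 * n.1.1 * u'.1.1 := by rw [e0]; rfl
  rw [e, dm_uni (j := j) hij (uni_HU b hu) (uni_HU b hu')]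
  refine dm_mono_ne (fun β _ r hr => ?_) fun β _ => ?_
  · by_contra hne
    exact hr (hn.vr _ _ hne)
  · intro h0
    have h1 : n.1⁻¹.1 * n.1.1 = 1 := by rw [← Units.val_mul, inv_mul_cancel, Units.val_one]
    have h2 := congrFun (congrFun h1 (Sum.inr β)) (Sum.inr β)
    rw [Matrix.mul_apply, Matrix.one_apply_eq, Finset.sum_eq_zero] at h2
    · exact absurd h2 zero_ne_one
    · intro m _
      by_cases hm : m = Sum.inr (w β)
      · rw [hm, h0, mul_zero]
      · have : n.1.1 m (Sum.inr β) = 0 := by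
          by_contra hne
          exact hm (hn.vr _ _ hne)
        rw [this, mul_zero]

variable {K L : Type} [Field K] [NumberField K] [Field L] [NumberField L] [Algebra K L]

/-- The dichotomy for `δ = u n u'`, `n` over `w`. -/
theorem dich_n (Q : QS b K L) {θ : b.support → (EE L →ₗ[ℝ] ℝ)} (hθ : ∀ i, ∃ z : L, Thq Q θ i z ≠ 0) {g : HQ Q} {u n u' : GK b L} {w : Equiv.Perm ι} (hu : u ∈ HU b L) (hu' : u' ∈ HU b L) (hn : IsN b L w n)
    (hg : g.1 = u * n * u') : g ∈ HUH (HQ Q) ∨ AltH (HQ Q) θ g ∨ (w ≠ 1 ∧ ∀ i ∈ b.support, b.IsPos (w i) → w i ∈ b.support) := by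
  by_cases h1 : w = 1
  · subst h1
    by_cases hc : ∀ i : b.support, n.1.1 * toA L (E b (i : ι)) = toA L (E b (i : ι)) * n.1.1
    · left
      obtain ⟨z, hz⟩ := b3_scalar hn hc
      have hz1 := w1_scalar hz
      have e5 : n = 1 := by
        apply Subtype.ext
        apply Units.ext
        rw [hz, hz1, one_smul]
        rfl
      rw [qb2_mem_HUH, hg, e5, mul_one]
      exact mul_mem hu hu'
    · right
      left
      push Not at hc
      obtain ⟨i, hi⟩ := hc
      obtain ⟨c, hc0, h1, -⟩ := b3_conj hn (i : ι)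
      have hw1 : (1 : Equiv.Perm ι) (i : ι) = i := rfl
      rw [hw1] at h1
      have hc1 : c ≠ 1 := by
        rintro rfl
        rw [one_smul] at h1
        exact hi h1
      obtain ⟨z0, hz0⟩ := hθ i
      obtain ⟨s0, hs0⟩ := Thq_ex Q θ i hz0
      have hi1 : b.height (i : ι) = 1 := RootPairing.Base.height_one_of_mem_support i.2
      have hr : ∀ z : L, RaiseBy (ht b) 1 (z • toA L (E b (i : ι))) := fun z => b3_smul z (hi1 ▸ b3_E L (i : ι))
      refine qb2_alt Q hu hu' hg (X := (s0 / (c - 1)) • toA L (E b (i : ι))) (X' := (c * (s0 / (c - 1))) • toA L (E b (i : ι))) (Submodule.smul_mem _ _ (l124_E b _)) (Submodule.smul_mem _ _ (l124_E b _)) (hr _) (hr _) ?_ ?_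
      · rw [Matrix.mul_smul, h1, Matrix.smul_mul, Matrix.smul_mul, smul_smul, mul_comm c]
      · simp only [qb2_c_simple, qb1_single]
        intro heq
        have e : c * (s0 / (c - 1)) = s0 / (c - 1) + s0 := by
          have : c - 1 ≠ 0 := sub_ne_zero.2 hc1
          field_simp
          ring
        rw [e, Thq_add, ee_add] at heq
        have h3 : ee (Thq Q θ i (s0 / (c - 1))) ≠ 0 := by
          intro h
          have := ee_norm (Thq Q θ i (s0 / (c - 1)))
          rw [h, norm_zero] at this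
          exact absurd this (by norm_num)
        exact hs0 (mul_left_cancel₀ h3 (by rw [heq, mul_one]))
  · right
    by_cases h2 : ∀ i ∈ b.support, b.IsPos (w i) → w i ∈ b.support
    · exact Or.inr ⟨h1, h2⟩
    left
    push Not at h2
    obtain ⟨i, hi, hp, hs⟩ := h2
    obtain ⟨c, hc0, h1, -⟩ := b3_conj hn i
    obtain ⟨z0, hz0⟩ := hθ ⟨i, hi⟩
    obtain ⟨s0, hs0⟩ := Thq_ex Q θ ⟨i, hi⟩ hz0
    have hi1 : b.height i = 1 := RootPairing.Base.height_one_of_mem_support hi
    have hr : RaiseBy (ht b) 1 (s0 • toA L (E b i)) := b3_smul s0 (hi1 ▸ b3_E L i)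
    have h2 : 2 ≤ b.height (w i) := b3_height hp hs
    have hr' : RaiseBy (ht b) 1 ((c * s0) • toA L (E b (w i))) := b3_smul _ (b3_mono (by lia) (b3_E L (w i)))
    refine qb2_alt Q hu hu' hg (X := s0 • toA L (E b i)) (X' := (c * s0) • toA L (E b (w i))) (Submodule.smul_mem _ _ (l124_E b _)) (Submodule.smul_mem _ _ (l124_E b _)) hr hr' ?_ ?_
    · rw [Matrix.mul_smul, h1, Matrix.smul_mul, Matrix.smul_mul, smul_smul, mul_comm c]
    · have e2 : ∀ j, qb1_c b j ((c * s0) • toA L (E b (w i))) = 0 := fun j => qb2_c_two h2 _ j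
      have e3 : ∀ j, qb1_c b j (s0 • toA L (E b i)) = if j = ⟨i, hi⟩ then s0 else 0 := fun j => qb2_c_simple ⟨i, hi⟩ j s0
      simp only [e2, e3, qb1_single, Thq_zero, Finset.sum_const_zero, ee_zero]
      exact hs0.symm

/-- **The dichotomy with cells** ((2.1) of PROOF_F.md): an element of `H(K)` lies in `U_H(K)`, or has the alternative, or lies in the cell of `w_J` for a nonempty set `J` (and then all the minors of `w_J`, `j ∈ J`, are not zero). -/
theorem dich (Q : QS b K L) {θ : b.support → (EE L →ₗ[ℝ] ℝ)} (hθ : ∀ i, ∃ z : L, Thq Q θ i z ≠ 0) (δ : HQ Q) :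
    δ ∈ HUH (HQ Q) ∨ AltH (HQ Q) θ δ ∨ ∃ J : Finset b.support, J.Nonempty ∧ ∃ w, IsWJ b J w ∧ δ.1 ∈ cell b L w ∧ ∀ j ∈ J, Dm b j w δ.1.1.1 ≠ 0 := by
  obtain ⟨u, hu, w, n, hn, u', hu', hg⟩ := bruhat b L δ.1
  rcases dich_n Q hθ hu hu' hn hg with h | h | ⟨h1, h2⟩
  · exact Or.inl h
  · exact Or.inr (Or.inl h)
  · right
    right
    have hJ := isWJ_of hn.mem h2
    have hc : δ.1 ∈ cell b L w := ⟨u, hu, n, hn, u', hu', hg⟩
    refine ⟨Jw b w, Jw_nonempty hn.mem h1, w, hJ, hc, fun j hj => ?_⟩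
    obtain ⟨k, hk⟩ := isWJ_opp hJ hj
    exact dm_cell hc hk

end

end Pool.Agent.Lib.L8.FC
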