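import Pool.Agent.Lib.L8.FC.D5

/-!
# FC, file D7 (helper21): `N_J = U_w` for `w = w_J`, `n U_M n⁻¹ ⊆ U`, cells ((2.3), (3.3) of PROOF_F.md)
-/

namespace Pool.Agent.Lib.L8.FC

set_option linter.unusedSectionVars false

open Matrix NumberField Pool.Agent.Lib.H89N Pool.Agent.Lib.H33W Pool.Agent.Lib.L1S Pool.Agent.Lib.L8.FL

noncomputable section

variable {ι M N : Type} [Fintype ι] [DecidableEq ι] [AddCommGroup M] [Module ℚ M] [AddCommGroup N] [Module ℚ N]
  {P : RootPairing ι ℚ M N} [P.IsCrystallographic] [P.IsReduced] [P.IsIrreducible] [P.IsRootSystem] {b : P.Base} {K : Type} [Field K] [NumberField K]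

/-! ## Uniqueness of the coordinates -/

theorem PL_cons (β : ι) (l : List ι) (t : ι → K) : PL b (β :: l) t = xx b β (t β) * PL b l t := by
  unfold PL
  rw [List.map_cons, List.prod_cons]

/-- The leading part of an ordered product. -/
theorem PL_hcp {k : ℤ} (hk : 1 ≤ k) (t : ι → K) (l : List ι) (hl : ∀ β ∈ l, k ≤ b.height β) :
    UTk b k (PL b l t) ∧ hcp b k (PL b l t) = (l.map fun β => if b.height β = k then t β • toA K (E b β) else 0).sum := by
  induction l with
  | nil =>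
    refine ⟨?_, ?_⟩
    · intro r c _
      rfl
    · exact hcp_one b hk
  | cons β l ih =>
    obtain ⟨h1, h2⟩ := ih fun γ hγ => hl γ (List.mem_cons_of_mem _ hγ)
    have hβ := hl β List.mem_cons_self
    have h3 : UTk b (b.height β) (xx b β (t β)) := xx_UTk b β (by lia) (t β)
    have h4 : UTk b k (xx b β (t β)) := UTk_mono hβ h3
    rw [PL_cons]
    refine ⟨UTk_mul b (by lia) h4 h1, ?_⟩
    rw [hcp_mul b hk h4 h1, h2, List.map_cons, List.sum_cons]
    congr 1
    split_ifs with h5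
    · rw [← h5]
      exact xx_hcp b β (by lia) (t β)
    · ext r c
      simp only [hcp, Matrix.of_apply, Matrix.zero_apply]
      split_ifs with h6
      · rw [h3 r c (by lia), Matrix.one_apply_ne (fun h => by rw [h] at h6; lia)]
      · rfl

/-- If an ordered product is `1`, all its coordinates are zero. -/
theorem PL_zero (t : ι → K) (l : List ι) (hl : ∀ β ∈ l, 0 < b.height β) (hs : l.Pairwise fun β γ => b.height β ≤ b.height γ) (hn : l.Nodup) (h1 : PL b l t = 1) : ∀ β ∈ l, t β = 0 := by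
  induction l with
  | nil => simp
  | cons β l ih =>
    have hβ := hl β List.mem_cons_self
    have h2 := List.pairwise_cons.1 hs
    have h3 := List.nodup_cons.1 hn
    have hk : (1 : ℤ) ≤ b.height β := hβ
    have h4 : ∀ γ ∈ β :: l, b.height β ≤ b.height γ := by
      intro γ hγ
      rcases List.mem_cons.1 hγ with rfl | hγ
      · exact le_rfl
      · exact h2.1 γ hγ
    have h5 := (PL_hcp hk t (β :: l) h4).2
    rw [h1, hcp_one b hk] at h5
    have h6 := congrArg (cf b β) h5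
    have hsum : ∀ l' : List ι, cf b β ((l'.map fun γ => if b.height γ = b.height β then t γ • toA K (E b γ) else 0).sum) = (l'.map fun γ => if γ = β then t γ else 0).sum := by
      intro l'
      induction l' with
      | nil => exact l25_cf_zero b β
      | cons γ l' ih' =>
        rw [List.map_cons, List.sum_cons, l25_cf_add, ih', List.map_cons, List.sum_cons]
        congr 1
        by_cases h7 : b.height γ = b.height β
        · rw [if_pos h7, l25_cf_smul, cf_E]
          by_cases h8 : γ = β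
          · rw [if_pos h8, if_pos h8, mul_one]
          · rw [if_neg h8, if_neg h8, mul_zero]
        · rw [if_neg h7, l25_cf_zero, if_neg]
          rintro rfl
          exact h7 rfl
    rw [l25_cf_zero, hsum, List.map_cons, List.sum_cons, if_pos rfl] at h6
    have h7 : (l.map fun γ => if γ = β then t γ else 0).sum = 0 := by
      refine List.sum_eq_zero fun x hx => ?_
      obtain ⟨γ, hγ, rfl⟩ := List.mem_map.1 hx
      rw [if_neg]
      rintro rfl
      exact h3.1 hγ
    rw [h7, add_zero] at h6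
    have h8 : t β = 0 := h6.symm
    have h9 : PL b l t = 1 := by
      rw [PL_cons, h8] at h1
      have h10 : xx b β (0 : K) = 1 := by
        have := congrArg (fun g : GK b K => g.1.1) (b1x_zero b K β)
        exact this
      rw [h10, one_mul] at h1
      exact h1
    intro γ hγ
    rcases List.mem_cons.1 hγ with rfl | hγ
    · exact h8
    · exact ih (fun γ hγ => hl γ (List.mem_cons_of_mem _ hγ)) h2.2 h3.2 h9 γ hγ

/-- Dropping the factors with zero coordinates. -/
theorem pK_filter (p : ι → Bool) (t : ι → K) (l : List ι) (h : ∀ β ∈ l, p β = false → t β = 0) : pK b K l t = pK b K (l.filter p) t := by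
  induction l with
  | nil => rfl
  | cons β l ih =>
    rw [pK_cons, ih fun γ hγ => h γ (List.mem_cons_of_mem _ hγ)]
    cases hp : p β with
    | true => rw [List.filter_cons_of_pos hp, pK_cons]
    | false =>
      rw [List.filter_cons_of_neg (by rw [hp]; exact Bool.false_ne_true), h β List.mem_cons_self hp, b1x_zero, one_mul]

theorem mem_NJ (J : Finset b.support) (g : GK b K) : g ∈ NJ b K J ↔ g ∈ HU b K ∧ g ∈ UG b K (dJ b J) := Iff.rfl

theorem mem_UM (J : Finset b.support) (g : GK b K) : g ∈ UM b K J ↔ g ∈ HU b K ∧ g ∈ LG b K (dJ b J) := Iff.rfl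

/-- The elements of `N_J` are ordered products over the positive roots of positive degree. -/
theorem NJ_prod (J : Finset b.support) {u : GK b K} (hu : u ∈ NJ b K J) : ∃ t : ι → K, u = pK b K ((posL b).filter fun β => decide (dJ b J (Sum.inr β) ≠ 0)) t := by
  rw [mem_NJ] at hu
  obtain ⟨t, ht, hv⟩ := HU_split J hu.1
  rw [mem_NJ] at hv
  refine ⟨t, ?_⟩
  set m := pK b K ((posL b).filter fun β => decide (dJ b J (Sum.inr β) = 0)) t with hm
  have hmL : m ∈ LG b K (dJ b J) := by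
    refine pK_mem fun β hβ => x_mem_LG (lin_dJ b J) ?_ _
    simpa using (List.mem_filter.1 hβ).2
  have hm1 : m = 1 := by
    refine UG_LG (h := dJ b J) ?_ hmL
    have h1 : m⁻¹ ∈ UG b K (dJ b J) := by
      have h2 := mul_mem hv.2 (inv_mem hu.2)
      rw [mul_assoc, mul_inv_cancel, mul_one] at h2
      exact h2
    have h3 := inv_mem h1
    rw [inv_inv] at h3
    exact h3
  have h0 : ∀ β ∈ (posL b).filter fun β => decide (dJ b J (Sum.inr β) = 0), t β = 0 := by
    refine PL_zero t _ (fun β hβ => (posL_mem b β).1 (List.mem_filter.1 hβ).1) ((posL_sorted b).filter _) ((posL_nodup b).filter _) ?_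
    rw [← pK_coe, ← hm, hm1]
    rfl
  rw [ht]
  refine pK_filter _ t (posL b) fun β hβ hp => ?_
  refine h0 β (List.mem_filter.2 ⟨hβ, ?_⟩)
  simpa using hp

/-- The elements of `U_M` are ordered products over the positive roots of degree zero. -/
theorem UM_prod (J : Finset b.support) {u : GK b K} (hu : u ∈ UM b K J) : ∃ t : ι → K, u = pK b K ((posL b).filter fun β => decide (dJ b J (Sum.inr β) = 0)) t := by
  rw [mem_UM] at hu
  obtain ⟨t, ht, hv⟩ := HU_split J hu.1
  rw [mem_NJ] at hv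
  refine ⟨t, ?_⟩
  set m := pK b K ((posL b).filter fun β => decide (dJ b J (Sum.inr β) = 0)) t with hm
  have hmL : m ∈ LG b K (dJ b J) := by
    refine pK_mem fun β hβ => x_mem_LG (lin_dJ b J) ?_ _
    simpa using (List.mem_filter.1 hβ).2
  have h1 : m⁻¹ * u = 1 := UG_LG hv.2 (mul_mem (inv_mem hmL) hu.2)
  exact (inv_mul_eq_one.1 h1).symm

/-! ## Elements over `w_J` -/

theorem conj_x {w : Equiv.Perm ι} {n : GK b K} (hn : IsN b K w n) (β : ι) (t : K) : ∃ c : K, n * b1x b K β t * n⁻¹ = b1x b K (w β) c := by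
  obtain ⟨c, -, h⟩ := b1_conj b K hn β
  exact ⟨c * t, by rw [h t, mul_inv_cancel_right]⟩

theorem conj_pK {w : Equiv.Perm ι} {n : GK b K} (hn : IsN b K w n) {H : Subgroup (GK b K)} (t : ι → K) (l : List ι) (h : ∀ β ∈ l, ∀ c, b1x b K (w β) c ∈ H) : n * pK b K l t * n⁻¹ ∈ H := by
  induction l with
  | nil =>
    rw [pK_nil, mul_one, mul_inv_cancel]
    exact one_mem _
  | cons β l ih =>
    have e : n * pK b K (β :: l) t * n⁻¹ = (n * b1x b K β (t β) * n⁻¹) * (n * pK b K l t * n⁻¹) := by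
      rw [pK_cons]
      group
    rw [e]
    obtain ⟨c, hc⟩ := conj_x hn β (t β)
    rw [hc]
    exact mul_mem (h β List.mem_cons_self c) (ih fun γ hγ => h γ (List.mem_cons_of_mem _ hγ))

variable {J : Finset b.support} {w : Equiv.Perm ι}

/-- `n N_J n⁻¹ ⊆ V`. -/
theorem conj_NJ (h : IsWJ b J w) {n : GK b K} (hn : IsN b K w n) {u : GK b K} (hu : u ∈ NJ b K J) : n * u * n⁻¹ ∈ HV b K := by
  obtain ⟨t, rfl⟩ := NJ_prod J hu
  refine conj_pK hn t _ fun β hβ c => x_mem_HV ?_ c
  obtain ⟨h1, h2⟩ := List.mem_filter.1 hβ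
  rw [h.2 _ ((posL_mem b β).1 h1)]
  simpa using h2

/-- `n U_M n⁻¹ ⊆ U`. -/
theorem conj_UM (h : IsWJ b J w) {n : GK b K} (hn : IsN b K w n) {u : GK b K} (hu : u ∈ UM b K J) : n * u * n⁻¹ ∈ HU b K := by
  obtain ⟨t, rfl⟩ := UM_prod J hu
  refine conj_pK hn t _ fun β hβ c => b1_pos b K _ ?_ c
  obtain ⟨h1, h2⟩ := List.mem_filter.1 hβ
  have h3 : b.IsPos (w β) := by
    rw [h.2 _ ((posL_mem b β).1 h1)]
    simpa using h2
  exact h3

/-- `U = U_M N_J`. -/
theorem HU_eq (J : Finset b.support) {u : GK b K} (hu : u ∈ HU b K) : ∃ m ∈ UM b K J, ∃ v ∈ NJ b K J, u = m * v := by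
  obtain ⟨t, -, hv⟩ := HU_split J hu
  set m := pK b K ((posL b).filter fun β => decide (dJ b J (Sum.inr β) = 0)) t with hm
  refine ⟨m, ⟨?_, ?_⟩, m⁻¹ * u, hv, (mul_inv_cancel_left m u).symm⟩
  · refine pK_mem fun β hβ => b1_pos b K β ?_ _
    exact (posL_mem b β).1 (List.mem_filter.1 hβ).1
  · refine pK_mem fun β hβ => x_mem_LG (lin_dJ b J) ?_ _
    simpa using (List.mem_filter.1 hβ).2

/-- `U_M ⊓ N_J = 1`. -/
theorem UM_NJ {g : GK b K} (h1 : g ∈ UM b K J) (h2 : g ∈ NJ b K J) : g = 1 := UG_LG h2.2 h1.2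

/-- `N_J` is normalised by `U`. -/
theorem NJ_normal {u v : GK b K} (hu : u ∈ HU b K) (hv : v ∈ NJ b K J) : u * v * u⁻¹ ∈ NJ b K J := by
  rw [mem_NJ] at hv ⊢
  refine ⟨mul_mem (mul_mem hu hv.1) (inv_mem hu), ?_⟩
  have key : ∀ v : GK b K, RaiseBy (dJ b J) 1 (v.1.1 - 1) → RaiseBy (dJ b J) 1 ((u * v * u⁻¹).1.1 - 1) := by
    intro v hv
    have e : (u * v * u⁻¹).1.1 - 1 = u.1.1 * (v.1.1 - 1) * u⁻¹.1.1 := by
      have e1 : (u * v * u⁻¹).1.1 = u.1.1 * v.1.1 * u⁻¹.1.1 := rfl
      have e2 : u.1.1 * u⁻¹.1.1 = 1 := u.1.mul_inv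
      rw [e1, Matrix.mul_sub, Matrix.mul_one, Matrix.sub_mul, e2]
    rw [e]
    exact b3_mono (by lia) (b3_mul (b3_mul (HU_raise0 J hu) hv) (HU_raise0 J (inv_mem hu)))
  have h1 := (mem_UG _ _).1 hv.2
  refine (mem_UG _ _).2 ⟨key v h1.1, ?_⟩
  have e : (u * v * u⁻¹)⁻¹ = u * v⁻¹ * u⁻¹ := by group
  rw [e]
  exact key v⁻¹ h1.2

/-- `N_J = {u ∈ U : n u n⁻¹ ∈ V}` for every `n` over `w_J`. -/
theorem NJ_iff (h : IsWJ b J w) {n : GK b K} (hn : IsN b K w n) (u : GK b K) : u ∈ NJ b K J ↔ u ∈ HU b K ∧ n * u * n⁻¹ ∈ HV b K := by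
  constructor
  · exact fun hu => ⟨hu.1, conj_NJ h hn hu⟩
  · rintro ⟨hu, hV⟩
    obtain ⟨m, hm, v, hv, rfl⟩ := HU_eq J hu
    have h1 := conj_NJ h hn hv
    have h2 := conj_UM h hn hm
    have h3 : n * m * n⁻¹ ∈ HV b K := by
      have e : n * m * n⁻¹ = (n * (m * v) * n⁻¹) * (n * v * n⁻¹)⁻¹ := by group
      rw [e]
      exact mul_mem hV (inv_mem h1)
    have h4 : n * m * n⁻¹ = 1 := HU_HV h2 h3
    have h5 : m = 1 := by
      have e : m = n⁻¹ * (n * m * n⁻¹) * n := by group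
      rw [e, h4, mul_one, inv_mul_cancel]
    rw [h5, one_mul]
    exact hv

theorem nW_isN (b : P.Base) (K : Type) [Field K] [NumberField K] (L : List b.support) : IsN b K (wW b L) (nW b K L) := by
  induction L with
  | nil => exact b1_one b K
  | cons i L ih => exact b1_mul b K ih (b1_m b K i 1)

theorem mem_Uw (L : List b.support) (u : GK b K) : u ∈ Uw b K L ↔ u ∈ HU b K ∧ nW b K L * u * (nW b K L)⁻¹ ∈ HV b K := Iff.rfl

/-- **(2.3)**: `N_J = U_w` for `w = w_J`. -/
theorem Uw_eq_NJ {L : List b.support} (h : IsWJ b J (wW b L)) : Uw b K L = NJ b K J := by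
  ext u
  rw [mem_Uw, NJ_iff h (nW_isN b K L)]

/-! ## The torus and the cells -/

/-- The elements over `1` are diagonal. -/
theorem isN_one_diag {n : GK b K} (hn : IsN b K 1 n) {r c : I b} (hrc : r ≠ c) : n.1.1 r c = 0 := by
  rcases c with i | γ
  · rcases r with k | δ
    · obtain ⟨s, hs, hc⟩ := hn.rt (i : ι)
      have hw1 : (1 : Equiv.Perm ι) (i : ι) = i := rfl
      rw [hw1] at hc
      have h1 := congrFun (congrFun hc (Sum.inl k)) (Sum.inr (P.reflectionPerm i i))
      rw [Matrix.mul_apply, Matrix.mul_apply, Finset.sum_eq_single (Sum.inl i : I b), Finset.sum_eq_single (Sum.inr (P.reflectionPerm i i) : I b), Matrix.smul_apply, b3_toA, b3_toA, E_simple_entry, E_simple_entry] at h1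
      · have hki : k ≠ i := fun h => hrc (by rw [h])
        rw [if_pos rfl, if_neg hki] at h1
        push_cast at h1
        rw [mul_one, smul_zero, zero_mul] at h1
        exact h1
      · intro m _ hm
        have h2 : n.1.1 m (Sum.inr (P.reflectionPerm (i : ι) (i : ι))) = 0 := by
          by_contra hne
          exact hm (hn.vr _ _ hne)
        rw [h2, mul_zero]
      · intro h
        exact absurd (Finset.mem_univ _) h
      · intro m _ hm
        have h2 : E b (i : ι) m (Sum.inr (P.reflectionPerm (i : ι) (i : ι))) = 0 := by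
          by_contra hne
          have h3 := hasWt_E b (i : ι) _ _ hne
          have h4 : wt b m = 0 := by
            rw [h3]
            change P.root (P.reflectionPerm (i : ι) (i : ι)) + P.root i = 0
            rw [P.root_reflectionPerm, P.reflection_apply_self, neg_add_cancel]
          obtain ⟨j, rfl⟩ := b3_wt0 h4
          rw [E_simple_entry] at hne
          by_cases hji : j = i
          · exact hm (by rw [hji])
          · rw [if_neg hji] at hne
            exact hne rfl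
        rw [b3_toA, h2]
        push_cast
        rw [mul_zero]
      · intro h
        exact absurd (Finset.mem_univ _) h
    · by_contra hne
      obtain ⟨i, h⟩ := hn.v0 _ _ hne
      exact absurd h (by simp)
  · by_contra hne
    exact hrc (hn.vr _ _ hne)

theorem mem_TK_of {n : GK b K} (hn : IsN b K 1 n) : n ∈ TK b K := by
  have h1 : IsN b K 1 n⁻¹ := by
    have h2 := b1_inv b K hn
    rw [inv_one] at h2
    exact h2
  exact fun r c hrc => ⟨isN_one_diag hn hrc, isN_one_diag h1 hrc⟩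

/-- An element over `w` differs from another one by an element of the torus. -/
theorem isN_torus {n n' : GK b K} (hn : IsN b K w n) (hn' : IsN b K w n') : n * n'⁻¹ ∈ TK b K := by
  refine mem_TK_of ?_
  have h1 := b1_mul b K hn (b1_inv b K hn')
  rw [mul_inv_cancel] at h1
  exact h1

theorem TK_diag {t : GK b K} (ht : t ∈ TK b K) : ∃ d : I b → K, t.1.1 = Matrix.diagonal d := by
  refine ⟨fun r => t.1.1 r r, ?_⟩
  ext r c
  by_cases h : r = c
  · subst h
    rw [Matrix.diagonal_apply_eq]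
  · rw [(ht r c h).1, Matrix.diagonal_apply_ne _ h]

/-- The torus normalises `UG h`. -/
theorem TK_UG {h : I b → ℤ} {t u : GK b K} (ht : t ∈ TK b K) (hu : u ∈ UG b K h) : t * u * t⁻¹ ∈ UG b K h := by
  obtain ⟨d, hd⟩ := TK_diag ht
  obtain ⟨d', hd'⟩ := TK_diag (inv_mem ht)
  have key : ∀ v : GK b K, RaiseBy h 1 (v.1.1 - 1) → RaiseBy h 1 ((t * v * t⁻¹).1.1 - 1) := by
    intro v hv
    have e : (t * v * t⁻¹).1.1 - 1 = t.1.1 * (v.1.1 - 1) * t⁻¹.1.1 := by
      have e1 : (t * v * t⁻¹).1.1 = t.1.1 * v.1.1 * t⁻¹.1.1 := rfl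
      have e2 : t.1.1 * t⁻¹.1.1 = 1 := t.1.mul_inv
      rw [e1, Matrix.mul_sub, Matrix.mul_one, Matrix.sub_mul, e2]
    rw [e, hd, hd']
    intro r c hrc
    rw [Matrix.mul_diagonal, Matrix.diagonal_mul, hv r c hrc, mul_zero, zero_mul]
  have h1 := (mem_UG _ _).1 hu
  refine (mem_UG _ _).2 ⟨key u h1.1, ?_⟩
  have e : (t * u * t⁻¹)⁻¹ = t * u⁻¹ * t⁻¹ := by group
  rw [e]
  exact key u⁻¹ h1.2

theorem TK_HU {t u : GK b K} (ht : t ∈ TK b K) (hu : u ∈ HU b K) : t * u * t⁻¹ ∈ HU b K := by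
  rw [← UG_ht] at hu ⊢
  exact TK_UG ht hu

theorem TK_NJ {t u : GK b K} (ht : t ∈ TK b K) (hu : u ∈ NJ b K J) : t * u * t⁻¹ ∈ NJ b K J := ⟨TK_HU ht hu.1, TK_UG ht hu.2⟩

/-- **(3.3)**: the elements of the cell of `w_J`: `g = u t n v`, `u ∈ U`, `t ∈ T`, `v ∈ N_J`. -/
theorem cell_split {L : List b.support} (h : IsWJ b J (wW b L)) {g : GK b K} (hg : g ∈ cell b K (wW b L)) : ∃ u ∈ HU b K, ∃ t ∈ TK b K, ∃ v ∈ NJ b K J, g = u * t * nW b K L * v := by
  obtain ⟨u, hu, n, hn, u', hu', rfl⟩ := hg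
  obtain ⟨m, hm, v, hv, rfl⟩ := HU_eq J hu'
  have h1 := conj_UM h hn hm
  refine ⟨u * (n * m * n⁻¹), mul_mem hu h1, n * (nW b K L)⁻¹, isN_torus hn (nW_isN b K L), v, hv, ?_⟩
  group

/-- An element of `V` which is `u t` (`u ∈ U`, `t ∈ T`) is `1`. -/
theorem HV_HU_TK {u t : GK b K} (hu : u ∈ HU b K) (ht : t ∈ TK b K) (hV : u * t ∈ HV b K) : u = 1 ∧ t = 1 := by
  obtain ⟨d, hd⟩ := TK_diag ht
  have e1 : (u * t).1.1 = u.1.1 * Matrix.diagonal d := by rw [← hd]; rfl
  have h2 : ∀ r, d r = 1 := by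
    intro r
    have h3 : (u * t).1.1 r r = (1 : Matrix (I b) (I b) K) r r := (hV r r le_rfl).1
    rw [e1, Matrix.mul_diagonal, ((mem_HU b K u).1 hu r r le_rfl).1, Matrix.one_apply_eq, one_mul] at h3
    exact h3
  have ht1 : t = 1 := by
    apply Subtype.ext
    apply Units.ext
    change t.1.1 = 1
    rw [hd, ← Matrix.diagonal_one]
    exact congrArg Matrix.diagonal (funext h2)
  refine ⟨?_, ht1⟩
  rw [ht1, mul_one] at hV
  exact HU_HV hu hV

/-- Uniqueness in (3.3). -/
theorem cell_unique {L : List b.support} (h : IsWJ b J (wW b L)) {u u' t t' v v' : GK b K} (hu : u ∈ HU b K) (hu' : u' ∈ HU b K) (ht : t ∈ TK b K) (ht' : t' ∈ TK b K) (hv : v ∈ NJ b K J) (hv' : v' ∈ NJ b K J)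
    (e : u * t * nW b K L * v = u' * t' * nW b K L * v') : u = u' ∧ t = t' ∧ v = v' := by
  have h1 : nW b K L * (v * v'⁻¹) * (nW b K L)⁻¹ ∈ HV b K := conj_NJ h (nW_isN b K L) (mul_mem hv (inv_mem hv'))
  have e1 : nW b K L * (v * v'⁻¹) * (nW b K L)⁻¹ = (t⁻¹ * (u⁻¹ * u') * t⁻¹⁻¹) * (t⁻¹ * t') := by
    have e2 : nW b K L * v = t⁻¹ * u⁻¹ * (u' * t' * nW b K L * v') := by rw [← e]; group
    calc nW b K L * (v * v'⁻¹) * (nW b K L)⁻¹ = (nW b K L * v) * v'⁻¹ * (nW b K L)⁻¹ := by group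
      _ = _ := by rw [e2]; group
  have hu1 : t⁻¹ * (u⁻¹ * u') * t⁻¹⁻¹ ∈ HU b K := TK_HU (inv_mem ht) (mul_mem (inv_mem hu) hu')
  rw [e1] at h1
  obtain ⟨h2, h3⟩ := HV_HU_TK hu1 (mul_mem (inv_mem ht) ht') h1
  have h4 : t = t' := (inv_mul_eq_one.1 h3)
  have h5 : u = u' := by
    have h6 : u⁻¹ * u' = 1 := by
      have h7 : u⁻¹ * u' = t * (t⁻¹ * (u⁻¹ * u') * t⁻¹⁻¹) * t⁻¹ := by group
      rw [h7, h2, mul_one, mul_inv_cancel]
    exact inv_mul_eq_one.1 h6
  refine ⟨h5, h4, ?_⟩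
  rw [h4, h5] at e
  exact mul_left_cancel e

end

end Pool.Agent.Lib.L8.FC
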