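import Pool.Agent.Lib.L8.FC.D4
import Pool.Agent.Lib.L8.FC.D6
import Pool.Agent.Lib.L8.FC.D7

/-!
# FC, file D8 (helper21): the cells are disjoint; summary of (C2) ((W1)-(W4) of helper67)
-/

namespace Pool.Agent.Lib.L8.FC

set_option linter.unusedSectionVars false

open Matrix NumberField IsDedekindDomain Pool.Agent.Lib.H89N Pool.Agent.Lib.H33W Pool.Agent.Lib.H67G Pool.Agent.Lib.L1S Pool.Agent.Lib.L8.FL

noncomputable section

variable {ι M N : Type} [Fintype ι] [DecidableEq ι] [AddCommGroup M] [Module ℚ M] [AddCommGroup N] [Module ℚ N]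
  {P : RootPairing ι ℚ M N} [P.IsCrystallographic] [P.IsReduced] [P.IsIrreducible] [P.IsRootSystem] {b : P.Base} {K : Type} [Field K] [NumberField K]

/-- If `u n = n' u'` then `w' β - w β` is a nonnegative combination of simple roots. -/
theorem cell_le {w w' : Equiv.Perm ι} {n n' u u' : GK b K} (hn : IsN b K w n) (hn' : IsN b K w' n') (hu : u ∈ HU b K) (hu' : u' ∈ HU b K) (e : u * n = n' * u') (β : ι) (k : b.support) :
    mc b k (Sum.inr (w β)) ≤ mc b k (Sum.inr (w' β)) := by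
  have h1 : (u * n).1.1 (Sum.inr (w' β)) (Sum.inr β) ≠ 0 := by
    rw [e]
    have e1 : (n' * u').1.1 (Sum.inr (w' β)) (Sum.inr β) = ∑ r, n'.1.1 (Sum.inr (w' β)) r * u'.1.1 r (Sum.inr β) := Matrix.mul_apply
    rw [e1, Finset.sum_eq_single (Sum.inr β : I b)]
    · rw [((mem_HU b K u').1 hu' _ _ le_rfl).1, Matrix.one_apply_eq, mul_one]
      exact b1_entry_ne b K hn' β
    · intro r _ hr
      have h2 : n'.1.1 (Sum.inr (w' β)) r = 0 := by
        by_contra hne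
        rcases r with i | γ
        · obtain ⟨j, hj⟩ := hn'.v0 _ _ hne
          exact absurd hj (by simp)
        · have h3 := hn'.vr _ _ hne
          have h4 : w' β = w' γ := by simpa using h3
          exact hr (by rw [w'.injective h4])
      rw [h2, zero_mul]
    · intro h
      exact absurd (Finset.mem_univ _) h
  have e2 : (u * n).1.1 (Sum.inr (w' β)) (Sum.inr β) = u.1.1 (Sum.inr (w' β)) (Sum.inr (w β)) * n.1.1 (Sum.inr (w β)) (Sum.inr β) := by
    have e3 : (u * n).1.1 (Sum.inr (w' β)) (Sum.inr β) = ∑ r, u.1.1 (Sum.inr (w' β)) r * n.1.1 r (Sum.inr β) := Matrix.mul_apply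
    rw [e3, Finset.sum_eq_single (Sum.inr (w β) : I b)]
    · intro r _ hr
      have h2 : n.1.1 r (Sum.inr β) = 0 := by
        by_contra hne
        exact hr (hn.vr _ _ hne)
      rw [h2, mul_zero]
    · intro h
      exact absurd (Finset.mem_univ _) h
  rw [e2] at h1
  have h2 := left_ne_zero_of_mul h1
  rcases uni_HU b hu (Sum.inr (w' β)) (Sum.inr (w β)) with h3 | ⟨-, h3⟩
  · rw [h3] at h2
    have h4 : (Sum.inr (w' β) : I b) = Sum.inr (w β) := by
      by_contra hne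
      exact h2 (Matrix.one_apply_ne hne)
    rw [h4]
  · have h4 := h3 k
    rw [← mc_wq, ← mc_wq] at h4
    exact_mod_cast h4

/-- **(W3)** The cells are disjoint. -/
theorem cell_disj {w w' : Equiv.Perm ι} {g : GK b K} (h : g ∈ cell b K w) (h' : g ∈ cell b K w') : w = w' := by
  obtain ⟨u, hu, n, hn, v, hv, e⟩ := h
  obtain ⟨u', hu', n', hn', v', hv', e'⟩ := h'
  have e1 : (u'⁻¹ * u) * n = n' * (v' * v⁻¹) := by
    have h1 : u * n * v = u' * n' * v' := e.symm.trans e'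
    calc (u'⁻¹ * u) * n = u'⁻¹ * (u * n * v) * v⁻¹ := by group
      _ = n' * (v' * v⁻¹) := by rw [h1]; group
  have h1 : ∀ β k, mc b k (Sum.inr (w β)) ≤ mc b k (Sum.inr (w' β)) := fun β k => cell_le hn hn' (mul_mem (inv_mem hu') hu) (mul_mem hv' (inv_mem hv)) e1 β k
  ext β
  have h2 : ∀ k, mc b k (Sum.inr (w β)) = mc b k (Sum.inr (w' β)) := by
    intro k
    refine le_antisymm (h1 β k) ?_
    have h3 := h1 (ng P β) k
    rw [fc_ng_w hn.mem, fc_ng_w hn'.mem, mc_ng, mc_ng] at h3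
    lia
  apply P.root.injective
  rw [root_sum b (w β), root_sum b (w' β)]
  exact Finset.sum_congr rfl fun k _ => by rw [h2 k]

/-- `HU` is contained in the cell of `1`. -/
theorem HU_cell {g : GK b K} (hg : g ∈ HU b K) : g ∈ cell b K 1 := ⟨g, hg, 1, b1_one b K, 1, one_mem _, by rw [mul_one, mul_one]⟩

theorem isWJ_ne_one {J : Finset b.support} (hJ : J.Nonempty) {w : Equiv.Perm ι} (h : IsWJ b J w) : w ≠ 1 := by
  rintro rfl
  obtain ⟨j, hj⟩ := hJ
  exact isWJ_neg h hj (b.isPos_of_mem_support j.2)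

/-- The cell of `w_J`, `J` nonempty, does not meet `U`. -/
theorem cell_HU {J : Finset b.support} (hJ : J.Nonempty) {w : Equiv.Perm ι} (h : IsWJ b J w) {g : GK b K} (hg : g ∈ cell b K w) : g ∉ HU b K := fun h1 => isWJ_ne_one hJ h (cell_disj hg (HU_cell h1))

theorem cell_inv {w : Equiv.Perm ι} {g : GK b K} : g ∈ cell b K w ↔ g⁻¹ ∈ cell b K w⁻¹ := by
  have key : ∀ {w : Equiv.Perm ι} {g : GK b K}, g ∈ cell b K w → g⁻¹ ∈ cell b K w⁻¹ := by
    rintro w g ⟨u, hu, n, hn, v, hv, rfl⟩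
    exact ⟨v⁻¹, inv_mem hv, n⁻¹, b1_inv b K hn, u⁻¹, inv_mem hu, by group⟩
  refine ⟨key, fun h => ?_⟩
  have h1 := key h
  rw [inv_inv, inv_inv] at h1
  exact h1

theorem cell_left {w : Equiv.Perm ι} {u g : GK b K} (hu : u ∈ HU b K) : u * g ∈ cell b K w ↔ g ∈ cell b K w := by
  have key : ∀ {u g : GK b K}, u ∈ HU b K → g ∈ cell b K w → u * g ∈ cell b K w := by
    rintro u g hu ⟨u1, hu1, n, hn, v, hv, rfl⟩
    exact ⟨u * u1, mul_mem hu hu1, n, hn, v, hv, by group⟩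
  refine ⟨fun h => ?_, key hu⟩
  have h1 := key (inv_mem hu) h
  rw [inv_mul_cancel_left] at h1
  exact h1

theorem cell_right {w : Equiv.Perm ι} {u g : GK b K} (hu : u ∈ HU b K) : g * u ∈ cell b K w ↔ g ∈ cell b K w := by
  have key : ∀ {u g : GK b K}, u ∈ HU b K → g ∈ cell b K w → g * u ∈ cell b K w := by
    rintro u g hu ⟨u1, hu1, n, hn, v, hv, rfl⟩
    exact ⟨u1, hu1, n, hn, v * u, mul_mem hv hu, by group⟩
  refine ⟨fun h => ?_, key hu⟩
  have h1 := key (inv_mem hu) h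
  rw [mul_inv_cancel_right] at h1
  exact h1

theorem cell_torus {w : Equiv.Perm ι} {t g : GK b K} (ht : t ∈ TK b K) (htN : IsN b K 1 t) (hg : g ∈ cell b K w) : t * g ∈ cell b K w := by
  obtain ⟨u, hu, n, hn, v, hv, rfl⟩ := hg
  have h1 := b1_mul b K htN hn
  rw [one_mul] at h1
  exact ⟨t * u * t⁻¹, TK_HU ht hu, t * n, h1, v, hv, by group⟩

/-- **(W1)**. -/
theorem W1 {J : Finset b.support} {w : Equiv.Perm ι} (h : IsWJ b J w) : IsWJ b (Js b w) w⁻¹ ∧ Js b w⁻¹ = J := ⟨isWJ_inv h, Js_inv h⟩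

/-- **(W2)**. -/
theorem W2 {K₀ : Type} [Field K₀] [NumberField K₀] [Algebra K₀ K] (Q : QS b K₀ K) {𝔫 : Ideal (𝓞 K₀)} {v : HeightOneSpectrum (𝓞 K₀)} {r s : ℕ} {θ : b.support → (EE K →ₗ[ℝ] ℝ)} (hθ : GenQ Q 𝔫 v r s θ) (γ : HQ Q) :
    γ ∈ HUH (HQ Q) ∨ AltH (HQ Q) θ γ ∨ ∃ J : Finset b.support, J.Nonempty ∧ ∃ w, IsWJ b J w ∧ γ.1 ∈ cell b K w := by
  rcases dich Q hθ.1 γ with h | h | ⟨J, h1, w, h2, h3, -⟩
  · exact Or.inl h
  · exact Or.inr (Or.inl h)
  · exact Or.inr (Or.inr ⟨J, h1, w, h2, h3⟩)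

/-- **(W4)**. -/
theorem W4 {J : Finset b.support} (hJ : J.Nonempty) {w : Equiv.Perm ι} (h : IsWJ b J w) {c : ℝ} (hc : 0 ≤ c) :
    ∃ L, RedW b L ∧ wW b L = w ∧ PosW b c (eJ b c (Js b w)) L ∧ (∀ k, k ∈ L) ∧ eW b (eJ b c (Js b w)) L = eJ b (-c) J := by
  obtain ⟨L, h1, h2⟩ := RedW_exists b h.1
  subst h2
  exact ⟨L, h1, rfl, posW_eJ b h1 h hc, full_support hJ h, eW_eJ b c h⟩

end

end Pool.Agent.Lib.L8.FC
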