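import Pool.Agent.Lib.L8.FC.D1

/-!
# FC, file D3 (helper21): coroots, fundamental weights and the exponents along a word ((2.5) of PROOF_F.md)
-/

namespace Pool.Agent.Lib.L8.FC

set_option linter.unusedSectionVars false

open Matrix Pool.Agent.Lib.L1S Pool.Agent.Lib.L8.FL

noncomputable section

variable {ι M N : Type} [Fintype ι] [DecidableEq ι] [AddCommGroup M] [Module ℚ M] [AddCommGroup N] [Module ℚ N]
  {P : RootPairing ι ℚ M N} [P.IsCrystallographic] [P.IsReduced] [P.IsIrreducible] [P.IsRootSystem] {b : P.Base}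

/-- The square length of a root. -/
def sq (P : RootPairing ι ℚ M N) [P.IsCrystallographic] (β : ι) : ℚ := P.RootForm (P.root β) (P.root β)

theorem sq_pos (β : ι) : 0 < sq P β := form_pos (P := P) (P.ne_zero β)

theorem sq_w {w : Equiv.Perm ι} (hw : w ∈ WP P) (β : ι) : sq P (w β) = sq P β := by
  induction hw using Subgroup.closure_induction generalizing β with
  | mem x hx =>
    obtain ⟨i, rfl⟩ := hx
    unfold sq
    rw [P.root_reflectionPerm]
    exact P.rootForm_reflection_reflection_apply i _ _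
  | one => rfl
  | mul x y _ _ hx hy => rw [Equiv.Perm.mul_apply, hx, hy]
  | inv x _ hx =>
    have h := hx (x⁻¹ β)
    have e : x (x⁻¹ β) = β := x.apply_symm_apply β
    rw [e] at h
    exact h.symm

/-- The coefficient of `α_j^∨` in the coroot of `β`. -/
def ck (b : P.Base) (j : b.support) (β : ι) : ℚ := (mc b j (Sum.inr β) : ℚ) * sq P (j : ι) / sq P β

/-- `⟨μ, β^∨⟩ = ∑_j c_j ⟨μ, α_j^∨⟩`. -/
theorem coroot_sum' (b : P.Base) (β : ι) (μ : M) : P.coroot' β μ = ∑ j : b.support, ck b j β * P.coroot' (j : ι) μ := by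
  have hb := sq_pos (P := P) β
  have h1 := two_form (P := P) β μ
  have h2 : P.RootForm μ (P.root β) = ∑ j : b.support, (mc b j (Sum.inr β) : ℚ) * P.RootForm μ (P.root j) := by
    conv_lhs => rw [root_sum b β]
    rw [map_sum]
    refine Finset.sum_congr rfl fun k _ => ?_
    rw [map_smul, smul_eq_mul]
  have h3 : ∀ j : b.support, 2 * P.RootForm μ (P.root j) = P.coroot' (j : ι) μ * sq P (j : ι) := fun j => two_form (P := P) (j : ι) μ
  have h4 : P.coroot' β μ * sq P β = ∑ j : b.support, (mc b j (Sum.inr β) : ℚ) * (P.coroot' (j : ι) μ * sq P (j : ι)) := by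
    have h5 : P.coroot' β μ * sq P β = 2 * P.RootForm μ (P.root β) := h1.symm
    rw [h5, h2, Finset.mul_sum]
    refine Finset.sum_congr rfl fun j _ => ?_
    rw [← h3 j]
    ring
  rw [eq_comm, ← mul_right_cancel_iff_of_pos hb, h4, Finset.sum_mul]
  refine Finset.sum_congr rfl fun j _ => ?_
  unfold ck
  field_simp

theorem coroot_sum (b : P.Base) (β : ι) : P.coroot β = ∑ j : b.support, ck b j β • P.coroot (j : ι) := by
  have h : ∀ μ : M, P.toLinearMap μ (P.coroot β) = P.toLinearMap μ (∑ j : b.support, ck b j β • P.coroot (j : ι)) := by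
    intro μ
    rw [map_sum]
    have h1 := coroot_sum' b β μ
    have h2 : P.toLinearMap μ (P.coroot β) = P.coroot' β μ := rfl
    rw [h2, h1]
    refine Finset.sum_congr rfl fun j _ => ?_
    rw [map_smul, smul_eq_mul]
    rfl
  exact (LinearMap.IsPerfPair.bijective_right P.toLinearMap).injective (LinearMap.ext fun μ => h μ)

theorem ck_repr (b : P.Base) (j : b.support) (β : ι) : b.toCoweightBasis.repr (P.coroot β) j = ck b j β := by
  rw [coroot_sum b β, map_sum, Finsupp.finsetSum_apply, Finset.sum_eq_single j]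
  · rw [map_smul, Finsupp.smul_apply, b.toCoweightBasis_repr_coroot, Finsupp.single_eq_same, smul_eq_mul, mul_one]
  · intro k _ hk
    rw [map_smul, Finsupp.smul_apply, b.toCoweightBasis_repr_coroot, Finsupp.single_eq_of_ne (Ne.symm hk), smul_zero]
  · intro h
    exact absurd (Finset.mem_univ j) h

theorem ck_int (b : P.Base) (j : b.support) (β : ι) : ∃ z : ℤ, ck b j β = z := by
  obtain ⟨f, -, -, hf⟩ := b.flip.exists_root_eq_sum_int β
  refine ⟨f j, ?_⟩
  have h1 : P.coroot β = ∑ k : b.support, ((f k : ℤ) : ℚ) • P.coroot (k : ι) := by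
    have h2 : P.coroot β = ∑ k ∈ b.support, f k • P.coroot k := hf
    rw [h2, ← Finset.sum_coe_sort b.support]
    exact Finset.sum_congr rfl fun k _ => (Int.cast_smul_eq_zsmul ℚ _ _).symm
  rw [← ck_repr, h1, map_sum, Finsupp.finsetSum_apply, Finset.sum_eq_single j]
  · rw [map_smul, Finsupp.smul_apply, b.toCoweightBasis_repr_coroot, Finsupp.single_eq_same, smul_eq_mul, mul_one]
  · intro k _ hk
    rw [map_smul, Finsupp.smul_apply, b.toCoweightBasis_repr_coroot, Finsupp.single_eq_of_ne (Ne.symm hk), smul_zero]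
  · intro h
    exact absurd (Finset.mem_univ j) h

theorem ck_nonneg (b : P.Base) (j : b.support) {β : ι} (h : b.IsPos β) : 0 ≤ ck b j β := by
  have h1 : (0 : ℚ) ≤ (mc b j (Sum.inr β) : ℚ) := by exact_mod_cast mc_pos b h j
  exact div_nonneg (mul_nonneg h1 (sq_pos _).le) (sq_pos _).le

theorem ck_zero (b : P.Base) (j : b.support) {β : ι} (h : mc b j (Sum.inr β) = 0) : ck b j β = 0 := by
  unfold ck
  rw [h]
  simp

theorem ck_one_le (b : P.Base) (j : b.support) {β : ι} (h : 0 < mc b j (Sum.inr β)) : 1 ≤ ck b j β := by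
  obtain ⟨z, hz⟩ := ck_int b j β
  have h1 : 0 < ck b j β := by
    have h1 : (0 : ℚ) < (mc b j (Sum.inr β) : ℚ) := by exact_mod_cast h
    exact div_pos (mul_pos h1 (sq_pos _)) (sq_pos _)
  rw [hz] at h1 ⊢
  have h2 : 0 < z := by exact_mod_cast h1
  exact_mod_cast h2

theorem ck_simple (b : P.Base) (j i : b.support) : ck b j (i : ι) = if i = j then 1 else 0 := by
  unfold ck
  rw [mc_simple]
  split_ifs with h
  · subst h
    have := sq_pos (P := P) (i : ι)
    field_simp
    norm_num
  · simp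

/-- `sq` is the same at `j` and `j*`. -/
theorem opp_sq {w : Equiv.Perm ι} {j k : b.support} (hw : w ∈ WP P) (h : OppW b j k w) : sq P (k : ι) = sq P (j : ι) := by
  have h1 : ∀ {w : Equiv.Perm ι} {j k : b.support}, w ∈ WP P → OppW b j k w → ∃ z : ℤ, sq P (k : ι) = z * sq P (j : ι) := by
    intro w j k hw h
    obtain ⟨z, hz⟩ := ck_int b k (w (j : ι))
    unfold ck at hz
    rw [opp_mc hw h, sq_w hw, mc_simple, if_pos rfl] at hz
    have h2 := sq_pos (P := P) (j : ι)
    rw [div_eq_iff h2.ne'] at hz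
    refine ⟨-z, ?_⟩
    push_cast at hz ⊢
    linarith
  obtain ⟨z, hz⟩ := h1 hw h
  obtain ⟨z', hz'⟩ := h1 (inv_mem hw) (opp_inv hw h)
  have hj := sq_pos (P := P) (j : ι)
  have hk := sq_pos (P := P) (k : ι)
  have h2 : ((z * z' : ℤ) : ℚ) = 1 := by
    have h3 : sq P (k : ι) = z * (z' * sq P (k : ι)) := by rw [← hz']; exact hz
    have h4 : ((z * z' : ℤ) : ℚ) * sq P (k : ι) = 1 * sq P (k : ι) := by
      push_cast
      linarith
    exact mul_right_cancel₀ hk.ne' h4
  have h3 : z * z' = 1 := by exact_mod_cast h2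
  rcases Int.eq_one_or_neg_one_of_mul_eq_one h3 with h4 | h4
  · rw [hz, h4]
    simp
  · rw [h4] at hz
    push_cast at hz
    linarith

theorem opp_ck {w : Equiv.Perm ι} {j k : b.support} (hw : w ∈ WP P) (h : OppW b j k w) (β : ι) : ck b k (w β) = -ck b j β := by
  unfold ck
  rw [opp_mc hw h, sq_w hw, opp_sq hw h]
  push_cast
  ring

/-- The coroot of `w s_i β`. -/
theorem ck_refl (b : P.Base) {w : Equiv.Perm ι} (hw : w ∈ WP P) (j : b.support) (i β : ι) :
    ck b j (w (P.reflectionPerm i β)) = ck b j (w β) - P.pairing i β * ck b j (w i) := by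
  obtain ⟨L, hL⟩ : ∃ L : N ≃ₗ[ℚ] N, ∀ β, L (P.coroot β) = P.coroot (w β) := b2_lin (P := P.flip) hw
  have h1 : P.coroot (P.reflectionPerm i β) = P.coroot β - P.pairing i β • P.coroot i := by
    rw [P.coroot_reflectionPerm, P.coreflection_apply_coroot]
  rw [← ck_repr, ← hL, h1, map_sub, map_smul, hL, hL, map_sub, map_smul, Finsupp.sub_apply, Finsupp.smul_apply, ck_repr, ck_repr, smul_eq_mul]

/-! ## The exponents along a word -/

theorem cartan_pairing (b : P.Base) (k i : b.support) : ((b.cartanMatrix k i : ℤ) : ℚ) = P.pairing (k : ι) (i : ι) := P.algebraMap_pairingIn ℤ k i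

theorem mu_se (b : P.Base) (i : b.support) (e : b.support → ℝ) (k : b.support) : mu b (se b i e) k = mu b e k - mu b e i * (b.cartanMatrix i k : ℝ) := by
  have h : xe b (se b i e) k = xe b e k - mu b e i * (b.cartanMatrix i k : ℝ) := by
    unfold xe
    rw [Finset.sum_eq_sum_sdiff_singleton_add (Finset.mem_univ i), Finset.sum_eq_sum_sdiff_singleton_add (Finset.mem_univ i) (fun l => e l * (b.cartanMatrix l k : ℝ))]
    have h1 : ∀ l ∈ Finset.univ \ {i}, se b i e l * (b.cartanMatrix l k : ℝ) = e l * (b.cartanMatrix l k : ℝ) := by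
      intro l hl
      have h2 : l ≠ i := by simpa using hl
      unfold se
      rw [if_neg h2]
    rw [Finset.sum_congr rfl h1]
    unfold se
    rw [if_pos rfl]
    ring
  unfold mu at h ⊢
  rw [h]
  ring

/-- `⟨w⁻¹ μ, α_k^∨⟩ = ∑_j ⟨μ, α_j^∨⟩ c_j(w α_k)`. -/
theorem mu_eW (b : P.Base) (e : b.support → ℝ) (L : List b.support) (k : b.support) : mu b (eW b e L) k = ∑ j, mu b e j * (ck b j (wW b L (k : ι)) : ℝ) := by
  induction L generalizing k with
  | nil =>
    have h1 : ∀ j : b.support, (ck b j (wW b [] (k : ι)) : ℝ) = if k = j then 1 else 0 := by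
      intro j
      have : wW b [] (k : ι) = k := rfl
      rw [this, ck_simple]
      split_ifs <;> norm_num
    simp only [h1]
    simp [eW]
  | cons i L ih =>
    have h1 : mu b (eW b e (i :: L)) k = mu b (eW b e L) k - mu b (eW b e L) i * (b.cartanMatrix i k : ℝ) := mu_se b i _ k
    rw [h1, ih, ih, Finset.sum_mul, ← Finset.sum_sub_distrib]
    refine Finset.sum_congr rfl fun j _ => ?_
    have h2 : wW b (i :: L) (k : ι) = wW b L (P.reflectionPerm (i : ι) (k : ι)) := rfl
    rw [h2, ck_refl b (wW_mem b L), ← cartan_pairing]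
    push_cast
    ring

theorem posW_of (b : P.Base) {κ : ℝ} {e : b.support → ℝ} {L : List b.support} (h : ∀ L1 i L2, L = L1 ++ i :: L2 → κ ≤ mu b (eW b e L2) i) : PosW b κ e L := by
  induction L with
  | nil => trivial
  | cons i L ih =>
    refine ⟨h [] i L rfl, ih fun L1 j L2 hL => h (i :: L1) j L2 ?_⟩
    rw [hL]
    rfl

/-- **The exponents along a reduced word** are at least `c` if `⟨μ, α_j^∨⟩ = c` for `j ∈ J*` and `≥ 0` otherwise. -/
theorem posW_gen (b : P.Base) {J : Finset b.support} {c : ℝ} {e : b.support → ℝ} {L : List b.support} (hL : RedW b L) (hJ : IsWJ b J (wW b L))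
    (h1 : ∀ j ∈ Js b (wW b L), c ≤ mu b e j) (h2 : ∀ j, 0 ≤ mu b e j) : PosW b c e L := by
  refine posW_of b fun L1 i L2 hL2 => ?_
  subst hL2
  obtain ⟨r1, r2⟩ := RedW_root b hL
  rw [mu_eW]
  obtain ⟨j, hj, hP⟩ := (isWJ_pos (isWJ_inv hJ) r1).1 r2
  rw [mem_Phi] at hP
  have h3 : ∀ k ∈ Finset.univ, 0 ≤ mu b e k * (ck b k (wW b L2 (i : ι)) : ℝ) := fun k _ => mul_nonneg (h2 k) (by exact_mod_cast ck_nonneg b k r1)
  refine le_trans ?_ (Finset.single_le_sum h3 (Finset.mem_univ j))
  have h4 : (1 : ℝ) ≤ (ck b j (wW b L2 (i : ι)) : ℝ) := by exact_mod_cast ck_one_le b j hP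
  calc c ≤ mu b e j := h1 j hj
    _ = mu b e j * 1 := (mul_one _).symm
    _ ≤ _ := mul_le_mul_of_nonneg_left h4 (h2 j)

/-! ## Fundamental weights -/

theorem sum_Phi_pair (b : P.Base) (j i : b.support) : ∑ β ∈ Phi b j, pj b i (Sum.inr β) = if i = j then cw b j else 0 := by
  have h1 : ∑ β ∈ Phi b j, pj b i (Sum.inr β) = -∑ r : Tn b j, pj b i r.1 := by
    rw [← Finset.sum_neg_distrib]
    refine Finset.sum_bij' (fun β hβ => (⟨Sum.inr (ng P β), ?_⟩ : Tn b j)) (fun r _ => Sum.elim (fun _ => (j : ι)) (fun β => ng P β) r.1) ?_ ?_ ?_ ?_ ?_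
    · have h1 := (mem_Phi b j β).1 hβ
      have h2 : ((mc b j (Sum.inr (ng P β)) : ℤ) : ℚ) < 0 := by
        rw [mc_ng]
        exact_mod_cast neg_neg_of_pos h1
      rw [mc_wq] at h2
      exact h2
    · intro β _
      exact Finset.mem_univ _
    · intro r _
      obtain ⟨r, hr⟩ := r
      rcases r with k | β
      · exfalso
        have h3 : wq b (Sum.inl k) j = 0 := rfl
        rw [h3] at hr
        exact lt_irrefl _ hr
      · change ng P β ∈ Phi b j
        rw [mem_Phi, mc_ng]
        rw [← mc_wq] at hr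
        have : mc b j (Sum.inr β) < 0 := by exact_mod_cast hr
        lia
    · intro β _
      exact fc_ng_ng β
    · intro r _
      obtain ⟨r, hr⟩ := r
      rcases r with k | β
      · exfalso
        have h3 : wq b (Sum.inl k) j = 0 := rfl
        rw [h3] at hr
        exact lt_irrefl _ hr
      · apply Subtype.ext
        change (Sum.inr (ng P (ng P β)) : I b) = Sum.inr β
        rw [fc_ng_ng]
    · intro β _
      have h1 : ((pj b i (Sum.inr β) : ℤ) : ℚ) = ((-pj b i (Sum.inr (ng P β)) : ℤ) : ℚ) := by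
        push_cast
        rw [de_pj, de_pj]
        have h2 : wt b (Sum.inr (ng P β)) = -wt b (Sum.inr β) := fc_ng_root β
        rw [h2, map_neg, neg_neg]
      exact_mod_cast h1
  rw [h1]
  split_ifs with h
  · subst h
    rfl
  · rw [cw_off h, neg_zero]

theorem xe_om (b : P.Base) (j i : b.support) : xe b (om b j) i = if i = j then 1 else 0 := by
  have hc : (0 : ℝ) < (cw b j : ℝ) := by exact_mod_cast cw_pos j
  have h1 : xe b (om b j) i = (∑ β ∈ Phi b j, (pj b i (Sum.inr β) : ℝ)) / (cw b j : ℝ) := by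
    unfold xe om
    have h2 : ∀ k : b.support, (∑ β ∈ Phi b j, (mc b k (Sum.inr β) : ℝ)) / (cw b j : ℝ) * (b.cartanMatrix k i : ℝ) =
        (∑ β ∈ Phi b j, (mc b k (Sum.inr β) : ℝ) * (b.cartanMatrix k i : ℝ)) / (cw b j : ℝ) := by
      intro k
      rw [div_mul_eq_mul_div, Finset.sum_mul]
    rw [Finset.sum_congr rfl fun k _ => h2 k, ← Finset.sum_div, Finset.sum_comm]
    congr 1
    refine Finset.sum_congr rfl fun β _ => ?_
    have h3 : ((pj b i (Sum.inr β) : ℤ) : ℚ) = ((∑ k : b.support, mc b k (Sum.inr β) * b.cartanMatrix k i : ℤ) : ℚ) := by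
      rw [de_pj]
      have h4 : wt b (Sum.inr β) = ∑ k : b.support, (mc b k (Sum.inr β) : ℚ) • P.root k := root_sum b β
      rw [h4, map_sum]
      push_cast
      refine Finset.sum_congr rfl fun k _ => ?_
      rw [map_smul, smul_eq_mul, cartan_pairing]
      rfl
    have h4 : pj b i (Sum.inr β) = ∑ k : b.support, mc b k (Sum.inr β) * b.cartanMatrix k i := by exact_mod_cast h3
    rw [h4]
    push_cast
    rfl
  rw [h1, ← Int.cast_sum, sum_Phi_pair]
  split_ifs
  · exact div_self hc.ne'
  · simp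

theorem xe_ex (b : P.Base) (x : b.support → ℝ) (i : b.support) : xe b (ex b x) i = x i := by
  have h1 : xe b (ex b x) i = ∑ j, x j * xe b (om b j) i := by
    unfold xe FL.ex
    simp only [Finset.sum_mul, Finset.mul_sum]
    rw [Finset.sum_comm]
    refine Finset.sum_congr rfl fun j _ => Finset.sum_congr rfl fun k _ => ?_
    ring
  rw [h1]
  simp only [xe_om]
  simp

/-- `ex b` is inverse to `xe b`. -/
theorem ex_xe (b : P.Base) (e : b.support → ℝ) : ex b (xe b e) = e := by
  classical
  let A : Matrix b.support b.support ℝ := Matrix.of fun i k => (b.cartanMatrix k i : ℝ)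
  let B : Matrix b.support b.support ℝ := Matrix.of fun k j => om b j k
  have h1 : ∀ x : b.support → ℝ, xe b x = A *ᵥ x := by
    intro x
    ext i
    simp only [xe, A, Matrix.mulVec, dotProduct, Matrix.of_apply]
    exact Finset.sum_congr rfl fun k _ => mul_comm _ _
  have h2 : ∀ x : b.support → ℝ, ex b x = B *ᵥ x := by
    intro x
    ext k
    simp only [FL.ex, B, Matrix.mulVec, dotProduct, Matrix.of_apply]
    exact Finset.sum_congr rfl fun j _ => mul_comm _ _
  have h3 : A * B = 1 := by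
    refine Matrix.ext_of_mulVec_single fun i => ?_
    have h4 := funext (xe_ex b (Pi.single i (1 : ℝ)))
    rw [h1, h2, Matrix.mulVec_mulVec] at h4
    rw [h4, Matrix.one_mulVec]
  have h4 : B * A = 1 := mul_eq_one_comm.1 h3
  rw [h1, h2, Matrix.mulVec_mulVec, h4, Matrix.one_mulVec]

theorem xe_inj (b : P.Base) {e e' : b.support → ℝ} (h : ∀ i, xe b e i = xe b e' i) : e = e' := by
  rw [← ex_xe b e, ← ex_xe b e']
  congr 1
  exact funext h

theorem mu_ex (b : P.Base) (x : b.support → ℝ) (i : b.support) : mu b (ex b x) i = x i - 1 := by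
  unfold mu
  rw [xe_ex]

theorem mu_eJ (b : P.Base) (c : ℝ) (J : Finset b.support) (i : b.support) : mu b (eJ b c J) i = if i ∈ J then c else 0 := by
  unfold eJ
  rw [mu_ex]
  split_ifs <;> ring

/-- **(2.5), exponents.** -/
theorem posW_eJ (b : P.Base) {J : Finset b.support} {c : ℝ} {L : List b.support} (hL : RedW b L) (hJ : IsWJ b J (wW b L)) (hc : 0 ≤ c) :
    PosW b c (eJ b c (Js b (wW b L))) L := by
  refine posW_gen b hL hJ ?_ ?_
  · intro j hj
    rw [mu_eJ, if_pos hj]
  · intro j
    rw [mu_eJ]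
    split_ifs
    · exact hc
    · exact le_rfl

/-- **(2.5), end value.** -/
theorem eW_eJ (b : P.Base) {J : Finset b.support} (c : ℝ) {L : List b.support} (hJ : IsWJ b J (wW b L)) :
    eW b (eJ b c (Js b (wW b L))) L = eJ b (-c) J := by
  refine xe_inj b fun i => ?_
  have h1 := mu_eW b (eJ b c (Js b (wW b L))) L i
  have h2 := mu_eJ b (-c) J i
  have h3 : mu b (eW b (eJ b c (Js b (wW b L))) L) i = mu b (eJ b (-c) J) i := by
    rw [h1, h2]
    simp only [mu_eJ]
    by_cases hi : i ∈ J
    · rw [if_pos hi]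
      have hk := starF_opp hJ ⟨i, hi⟩
      set k := starF hJ ⟨i, hi⟩ with hkd
      rw [Finset.sum_eq_single k.1]
      · rw [if_pos k.2, opp_ck hJ.1 hk, ck_simple, if_pos rfl]
        push_cast
        ring
      · intro l _ hl
        by_cases hlJ : l ∈ Js b (wW b L)
        · rw [if_pos hlJ]
          obtain ⟨j, hj, hO⟩ := isWJ_opp' hJ hlJ
          have hji : i ≠ j := by
            rintro rfl
            exact hl (opp_inj' hJ.1 hO hk)
          rw [opp_ck hJ.1 hO, ck_simple, if_neg hji]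
          simp
        · rw [if_neg hlJ, zero_mul]
      · intro h
        exact absurd (Finset.mem_univ _) h
    · rw [if_neg hi]
      refine Finset.sum_eq_zero fun l _ => ?_
      by_cases hlJ : l ∈ Js b (wW b L)
      · obtain ⟨j, hj, hO⟩ := isWJ_opp' hJ hlJ
        have hji : i ≠ j := by
          rintro rfl
          exact hi hj
        rw [opp_ck hJ.1 hO, ck_simple, if_neg hji]
        simp
      · rw [if_neg hlJ, zero_mul]
  unfold mu at h3
  linarith

/-- The sum of the exponents of `ρ + c λ_J` at a fundamental coweight: `(ρ + c λ_J) - (ρ - c λ_J*) = c (λ_J + λ_J*)`. -/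
theorem eJ_sub (b : P.Base) (c : ℝ) (J J' : Finset b.support) (k : b.support) :
    eJ b c J k - eJ b (-c) J' k = c * (∑ j ∈ J, om b j k + ∑ j ∈ J', om b j k) := by
  have h1 : ∀ j : b.support, (if j ∈ J then 1 + c else 1) * om b j k - (if j ∈ J' then 1 + -c else 1) * om b j k = c * ((if j ∈ J then om b j k else 0) + if j ∈ J' then om b j k else 0) := by
    intro j
    split_ifs <;> ring
  unfold eJ FL.ex
  rw [← Finset.sum_sub_distrib, Finset.sum_congr rfl fun j _ => h1 j, ← Finset.mul_sum, Finset.sum_add_distrib, Finset.sum_ite_mem, Finset.sum_ite_mem, Finset.univ_inter, Finset.univ_inter]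

end

end Pool.Agent.Lib.L8.FC
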