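import Pool.Agent.Lib.L8.FC.D3

/-!
# FC, file D4 (helper21): full support of the words of `w_J` ((2.4) of PROOF_F.md)
-/

namespace Pool.Agent.Lib.L8.FC

set_option linter.unusedSectionVars false

open Matrix Pool.Agent.Lib.L1S Pool.Agent.Lib.L8.FL

noncomputable section

variable {ι M N : Type} [Fintype ι] [DecidableEq ι] [AddCommGroup M] [Module ℚ M] [AddCommGroup N] [Module ℚ N]
  {P : RootPairing ι ℚ M N} [P.IsCrystallographic] [P.IsReduced] [P.IsIrreducible] [P.IsRootSystem] {b : P.Base}

/-- `⟨β, α_i^∨⟩ = ∑_k m_k(β) ⟨α_k, α_i^∨⟩`. -/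
theorem pairing_sum (b : P.Base) (β : ι) (i : b.support) : P.pairingIn ℤ β (i : ι) = ∑ k : b.support, mc b k (Sum.inr β) * b.cartanMatrix k i := by
  have h3 : ((P.pairingIn ℤ β (i : ι) : ℤ) : ℚ) = ((∑ k : b.support, mc b k (Sum.inr β) * b.cartanMatrix k i : ℤ) : ℚ) := by
    have h1 : ((P.pairingIn ℤ β (i : ι) : ℤ) : ℚ) = P.coroot' (i : ι) (P.root β) := by
      have h2 : ((P.pairingIn ℤ β (i : ι) : ℤ) : ℚ) = P.pairing β i := P.algebraMap_pairingIn ℤ β i
      rw [h2]
      rfl
    rw [h1, root_sum b β, map_sum]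
    push_cast
    refine Finset.sum_congr rfl fun k _ => ?_
    rw [map_smul, smul_eq_mul, cartan_pairing]
    rfl
  exact_mod_cast h3

/-- There is a root all of whose coefficients are positive. -/
theorem exists_full (b : P.Base) : ∃ θ : ι, ∀ k, 0 < mc b k (Sum.inr θ) := by
  classical
  have hne : Nonempty ι := by
    by_contra hemp
    rw [not_nonempty_iff] at hemp
    have h1 : Nontrivial M := RootPairing.IsIrreducible.nontrivial P
    have h2 : Submodule.span ℚ (Set.range P.root) = ⊤ := RootPairing.IsRootSystem.span_root_eq_top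
    rw [Set.range_eq_empty, Submodule.span_empty] at h2
    exact (bot_ne_top (α := Submodule ℚ M)) h2
  obtain ⟨θ, hθ⟩ : ∃ θ : ι, ∀ β, b.height β ≤ b.height θ := Finite.exists_max _
  have hpos : b.IsPos θ := by
    by_contra h
    have h1 := hθ (ng P θ)
    have h2 : b.height (ng P θ) = -b.height θ := b.height_reflectionPerm_self θ
    rw [b.isPos_iff] at h
    have h3 := b.height_ne_zero θ
    lia
  refine ⟨θ, ?_⟩
  obtain ⟨i, hi⟩ := exists_mc_pos b hpos
  intro k
  refine b.induction_on_cartanMatrix (fun k => 0 < mc b k (Sum.inr θ)) hi ?_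
  intro i j hi hij
  by_contra hj
  have hj0 : mc b j (Sum.inr θ) = 0 := by
    have := mc_pos b hpos j
    lia
  have hA : ∀ k : b.support, mc b k (Sum.inr θ) * b.cartanMatrix k j ≤ 0 := by
    intro k
    by_cases hk : k = j
    · rw [hk, hj0, zero_mul]
    · exact mul_nonpos_of_nonneg_of_nonpos (mc_pos b hpos k) (b.cartanMatrix_le_zero_of_ne k j hk)
  have hneij : i ≠ j := by
    rintro rfl
    lia
  have hAi : mc b i (Sum.inr θ) * b.cartanMatrix i j < 0 := by
    have h1 : b.cartanMatrix i j ≠ 0 := fun h => hij ((b.cartanMatrix_apply_eq_zero_iff_symm).1 h)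
    have h2 := b.cartanMatrix_le_zero_of_ne i j hneij
    exact mul_neg_of_pos_of_neg hi (lt_of_le_of_ne h2 h1)
  have hneg : P.pairingIn ℤ θ (j : ι) < 0 := by
    rw [pairing_sum b θ j, Finset.sum_eq_sum_sdiff_singleton_add (Finset.mem_univ i)]
    have h1 : ∑ k ∈ Finset.univ \ {i}, mc b k (Sum.inr θ) * b.cartanMatrix k j ≤ 0 := Finset.sum_nonpos fun k _ => hA k
    lia
  have h1 : P.root (P.reflectionPerm (j : ι) θ) = P.root θ + (-P.pairingIn ℤ θ (j : ι)) • P.root (j : ι) := by
    rw [P.root_reflectionPerm, P.reflection_apply_root' ℤ, neg_smul, sub_eq_add_neg]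
  have h2 := b.height_add_zsmul h1
  rw [RootPairing.Base.height_one_of_mem_support j.2] at h2
  have h3 := hθ (P.reflectionPerm (j : ι) θ)
  rw [h2, smul_eq_mul, mul_one] at h3
  lia

/-- A simple reflection changes only one coefficient. -/
theorem mc_refl (b : P.Base) (i k : b.support) (h : i ≠ k) (β : ι) : mc b k (Sum.inr (P.reflectionPerm (i : ι) β)) = mc b k (Sum.inr β) := by
  have h1 : P.root (P.reflectionPerm (i : ι) β) = P.root β - P.pairing β i • P.root (i : ι) := by
    rw [P.root_reflectionPerm, P.reflection_apply_root]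
  have h3 : ((mc b k (Sum.inr (P.reflectionPerm (i : ι) β)) : ℤ) : ℚ) = ((mc b k (Sum.inr β) : ℤ) : ℚ) := by
    rw [mc_root, h1, map_sub, map_smul, Finsupp.sub_apply, Finsupp.smul_apply, b.toWeightBasis_repr_root, Finsupp.single_eq_of_ne (Ne.symm h), smul_zero, sub_zero, mc_root]
  exact_mod_cast h3

theorem mc_wW (b : P.Base) (k : b.support) (L : List b.support) (h : k ∉ L) (β : ι) : mc b k (Sum.inr (wW b L β)) = mc b k (Sum.inr β) := by
  induction L generalizing β with
  | nil => rfl
  | cons i L ih =>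
    have h1 : wW b (i :: L) β = wW b L (P.reflectionPerm (i : ι) β) := rfl
    rw [List.mem_cons, not_or] at h
    rw [h1, ih h.2, mc_refl b i k (Ne.symm h.1)]

/-- **(2.4)**: every simple root occurs in every word of `w_J`, `J` nonempty. -/
theorem full_support {J : Finset b.support} (hJ : J.Nonempty) {L : List b.support} (h : IsWJ b J (wW b L)) (k : b.support) : k ∈ L := by
  by_contra hk
  obtain ⟨θ, hθ⟩ := exists_full b
  have hp : b.IsPos θ := pos_of_one b (hθ k)
  have h1 : ¬b.IsPos (wW b L θ) := by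
    obtain ⟨j, hj⟩ := hJ
    exact (isWJ_pos h hp).2 ⟨j, hj, (mem_Phi b j θ).2 (hθ j)⟩
  apply h1
  refine pos_of_one b (k := k) ?_
  rw [mc_wW b k L hk]
  exact hθ k

/-- The letters of a word of `w_J`. -/
theorem full_support_card {J : Finset b.support} (hJ : J.Nonempty) {L : List b.support} (h : IsWJ b J (wW b L)) (A : Finset b.support) : A.filter (fun i => i ∈ L) = A := by
  rw [Finset.filter_true_of_mem]
  intro k _
  exact full_support hJ h k

end

end Pool.Agent.Lib.L8.FC
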