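import Pool.Agent.Lib.L8.FC.D1
import Pool.Agent.Lib.L1S.DC4
import Pool.Agent.Lib.L1S.B3

/-!
# FC, file D5 (helper21): the unipotent radical `N_J`, the groups `U_w`, cells ((2.3), (3.3) of PROOF_F.md)
-/

namespace Pool.Agent.Lib.L8.FC

set_option linter.unusedSectionVars false

open Matrix NumberField Pool.Agent.Lib.H89N Pool.Agent.Lib.H33W Pool.Agent.Lib.L1S Pool.Agent.Lib.L8.FL

noncomputable section

variable {ι M N : Type} [Fintype ι] [DecidableEq ι] [AddCommGroup M] [Module ℚ M] [AddCommGroup N] [Module ℚ N]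
  {P : RootPairing ι ℚ M N} [P.IsCrystallographic] [P.IsReduced] [P.IsIrreducible] [P.IsRootSystem] {b : P.Base} {K : Type} [Field K] [NumberField K]

/-! ## Degrees -/

/-- The function `h` on the indices is linear in the weight. -/
def Lin (b : P.Base) (h : I b → ℤ) : Prop := ∃ l : M →ₗ[ℚ] ℚ, ∀ r, ((h r : ℤ) : ℚ) = l (wt b r)

theorem Lin.wt {h : I b → ℤ} (hh : Lin b h) {r c : I b} {β : ι} {k : ℕ} (e : wt b r = wt b c + (k : ℚ) • P.root β) : h r = h c + k * h (Sum.inr β) := by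
  obtain ⟨l, hl⟩ := hh
  have h1 : ((h r : ℤ) : ℚ) = ((h c + k * h (Sum.inr β) : ℤ) : ℚ) := by
    rw [hl, e, map_add, map_smul, smul_eq_mul, ← hl c]
    push_cast
    rw [hl (Sum.inr β)]
    rfl
  exact_mod_cast h1

theorem Lin.of_wt {h : I b → ℤ} (hh : Lin b h) {r c : I b} (e : L1S.wt b r = L1S.wt b c) : h r = h c := by
  obtain ⟨l, hl⟩ := hh
  have h1 : ((h r : ℤ) : ℚ) = ((h c : ℤ) : ℚ) := by rw [hl, hl, e]
  exact_mod_cast h1

theorem lin_ht (b : P.Base) : Lin b (ht b) := by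
  obtain ⟨l, hl⟩ := exists_lht b
  exact ⟨l, fun r => (hl r).symm⟩

theorem Lin.neg {h : I b → ℤ} (hh : Lin b h) : Lin b (fun r => -h r) := by
  obtain ⟨l, hl⟩ := hh
  refine ⟨-l, fun r => ?_⟩
  rw [LinearMap.neg_apply, ← hl]
  push_cast
  rfl

theorem lin_mc (b : P.Base) (j : b.support) : Lin b (mc b j) := by
  refine ⟨(Finsupp.lapply j).comp b.toWeightBasis.repr.toLinearMap, fun r => ?_⟩
  rw [mc_wq, dc3_wq]
  rfl

theorem lin_dJ (b : P.Base) (J : Finset b.support) : Lin b (dJ b J) := by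
  refine ⟨∑ j ∈ J, (Finsupp.lapply j).comp b.toWeightBasis.repr.toLinearMap, fun r => ?_⟩
  rw [LinearMap.sum_apply]
  unfold dJ
  rw [Int.cast_sum]
  refine Finset.sum_congr rfl fun j _ => ?_
  rw [mc_wq, dc3_wq]
  rfl

/-- The entries of `x_β(t)`. -/
theorem xx_wt {A : Type} [CommRing A] (β : ι) (t : A) {r c : I b} (h : xx b β t r c ≠ 0) : ∃ k : ℕ, wt b r = wt b c + (k : ℚ) • P.root β ∧ (k = 0 → r = c) := by
  rw [xx, L1S.ex, Matrix.sum_apply] at h
  obtain ⟨k, -, hk⟩ := Finset.exists_ne_zero_of_sum_ne_zero h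
  refine ⟨k, ?_, ?_⟩
  · refine dvp_wt b β k r c fun h0 => hk ?_
    rw [Matrix.smul_apply]
    change t ^ k • ((dvp (E b β) k r c : ℤ) : A) = 0
    rw [h0, Int.cast_zero, smul_zero]
  · rintro rfl
    by_contra hne
    apply hk
    rw [Matrix.smul_apply, dvp_zero]
    change t ^ 0 • (((1 : Matrix (I b) (I b) ℤ) r c : ℤ) : A) = 0
    rw [Matrix.one_apply_ne hne, Int.cast_zero, smul_zero]

theorem x_raise0 {h : I b → ℤ} (hh : Lin b h) {β : ι} (hβ : 0 ≤ h (Sum.inr β)) {A : Type} [CommRing A] (t : A) : RaiseBy h 0 (xx b β t) := by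
  intro r c hrc
  by_contra hne
  obtain ⟨k, hk, -⟩ := xx_wt β t hne
  have h1 := hh.wt hk
  have h2 : (0 : ℤ) ≤ k * h (Sum.inr β) := mul_nonneg (Int.natCast_nonneg k) hβ
  lia

theorem x_pres {h : I b → ℤ} (hh : Lin b h) {β : ι} (hβ : h (Sum.inr β) = 0) {A : Type} [CommRing A] (t : A) {r c : I b} (hrc : h r ≠ h c) : xx b β t r c = 0 := by
  by_contra hne
  obtain ⟨k, hk, -⟩ := xx_wt β t hne
  have h1 := hh.wt hk
  rw [hβ, mul_zero, add_zero] at h1
  exact hrc h1

theorem xx_diag {A : Type} [CommRing A] (β : ι) (t : A) (r : I b) : xx b β t r r = 1 := by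
  rw [xx, L1S.ex, Matrix.sum_apply, Finset.sum_eq_single 0]
  · rw [pow_zero, one_smul, dvp_zero]
    change (((1 : Matrix (I b) (I b) ℤ) r r : ℤ) : A) = _
    rw [Matrix.one_apply_eq, Int.cast_one]
  · intro k _ hk
    rw [Matrix.smul_apply]
    have h1 : dvp (E b β) k r r = 0 := by
      by_contra hne
      have h2 := dvp_wt b β k r r hne
      have h3 : (k : ℚ) • P.root β = 0 := by
        have h4 : wt b r + (k : ℚ) • P.root β = wt b r + 0 := by rw [add_zero]; exact h2.symm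
        exact add_left_cancel h4
      rcases smul_eq_zero.1 h3 with h5 | h5
      · exact hk (by exact_mod_cast h5)
      · exact P.ne_zero β h5
    change t ^ k • ((dvp (E b β) k r r : ℤ) : A) = 0
    rw [h1, Int.cast_zero, smul_zero]
  · intro h
    exact absurd (Finset.mem_range.2 (by norm_num)) h

theorem x_raise1 {h : I b → ℤ} (hh : Lin b h) {β : ι} (hβ : 0 < h (Sum.inr β)) {A : Type} [CommRing A] (t : A) : RaiseBy h 1 (xx b β t - 1) := by
  intro r c hrc
  by_cases hd : r = c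
  · subst hd
    rw [Matrix.sub_apply, xx_diag, Matrix.one_apply_eq, sub_self]
  · rw [Matrix.sub_apply, Matrix.one_apply_ne hd, sub_zero]
    by_contra hne
    obtain ⟨k, hk, h0⟩ := xx_wt β t hne
    have h1 := hh.wt hk
    have h2 : k ≠ 0 := fun h3 => hd (h0 h3)
    have h3 : (0 : ℤ) < k * h (Sum.inr β) := mul_pos (by exact_mod_cast Nat.pos_of_ne_zero h2) hβ
    lia

/-! ## The groups -/

theorem mem_UG (h : I b → ℤ) (g : GK b K) : g ∈ UG b K h ↔ RaiseBy h 1 (g.1.1 - 1) ∧ RaiseBy h 1 (g⁻¹.1.1 - 1) := by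
  constructor
  · intro hg
    refine ⟨fun r c hrc => ?_, fun r c hrc => ?_⟩
    · rw [Matrix.sub_apply, (hg r c (by lia)).1, sub_self]
    · rw [Matrix.sub_apply, (hg r c (by lia)).2, sub_self]
  · intro hg r c hrc
    have h1 := hg.1 r c (by lia)
    have h2 := hg.2 r c (by lia)
    rw [Matrix.sub_apply, sub_eq_zero] at h1 h2
    exact ⟨h1, h2⟩

theorem x_mem_UG {h : I b → ℤ} (hh : Lin b h) {β : ι} (hβ : 0 < h (Sum.inr β)) (t : K) : b1x b K β t ∈ UG b K h := by
  rw [mem_UG]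
  refine ⟨x_raise1 hh hβ t, ?_⟩
  rw [b1x_inv]
  exact x_raise1 hh hβ (-t)

theorem UG_ht : UG b K (ht b) = HU b K := by
  ext g
  rw [mem_HU]
  exact Iff.rfl

theorem x_mem_HV {β : ι} (hβ : ¬b.IsPos β) (t : K) : b1x b K β t ∈ HV b K := by
  refine x_mem_UG (lin_ht b).neg ?_ t
  change 0 < -b.height β
  rw [b.isPos_iff] at hβ
  have := b.height_ne_zero β
  lia

/-- The elements which preserve the degree `h`. -/
def LG (b : P.Base) (K : Type) [Field K] [NumberField K] (h : I b → ℤ) : Subgroup (GK b K) where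
  carrier := {g | ∀ r c, h r ≠ h c → g.1.1 r c = 0 ∧ g⁻¹.1.1 r c = 0}
  one_mem' := by
    intro r c hrc
    have h1 : r ≠ c := fun h => hrc (by rw [h])
    rw [inv_one]
    exact ⟨Matrix.one_apply_ne h1, Matrix.one_apply_ne h1⟩
  mul_mem' := by
    intro g g' hg hg' r c hrc
    have key : ∀ X Y : Matrix (I b) (I b) K, (∀ r c, h r ≠ h c → X r c = 0) → (∀ r c, h r ≠ h c → Y r c = 0) → ∀ r c, h r ≠ h c → (X * Y) r c = 0 := by
      intro X Y hX hY r c hrc
      rw [Matrix.mul_apply]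
      refine Finset.sum_eq_zero fun k _ => ?_
      by_cases h1 : h r = h k
      · rw [hY k c (fun h2 => hrc (h1.trans h2)), mul_zero]
      · rw [hX r k h1, zero_mul]
    refine ⟨key _ _ (fun r c h => (hg r c h).1) (fun r c h => (hg' r c h).1) r c hrc, ?_⟩
    have e : (g * g')⁻¹.1.1 = g'⁻¹.1.1 * g⁻¹.1.1 := by
      rw [_root_.mul_inv_rev]
      rfl
    rw [e]
    exact key _ _ (fun r c h => (hg' r c h).2) (fun r c h => (hg r c h).2) r c hrc
  inv_mem' := by
    intro g hg r c hrc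
    refine ⟨(hg r c hrc).2, ?_⟩
    rw [inv_inv]
    exact (hg r c hrc).1

theorem x_mem_LG {h : I b → ℤ} (hh : Lin b h) {β : ι} (hβ : h (Sum.inr β) = 0) (t : K) : b1x b K β t ∈ LG b K h := by
  intro r c hrc
  rw [b1x_inv]
  exact ⟨x_pres hh hβ t hrc, x_pres hh hβ (-t) hrc⟩

/-- `UG h ⊓ LG h = 1`. -/
theorem UG_LG {h : I b → ℤ} {g : GK b K} (h1 : g ∈ UG b K h) (h2 : g ∈ LG b K h) : g = 1 := by
  apply Subtype.ext
  apply Units.ext
  ext r c
  change g.1.1 r c = (1 : Matrix (I b) (I b) K) r c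
  by_cases hrc : h r = h c
  · exact (h1 r c hrc.le).1
  · rw [(h2 r c hrc).1, Matrix.one_apply_ne (fun h => hrc (by rw [h]))]

/-- `U ⊓ V = 1`. -/
theorem HU_HV {g : GK b K} (h1 : g ∈ HU b K) (h2 : g ∈ HV b K) : g = 1 := by
  apply Subtype.ext
  apply Units.ext
  ext r c
  change g.1.1 r c = (1 : Matrix (I b) (I b) K) r c
  rcases le_total (ht b r) (ht b c) with h | h
  · exact ((mem_HU b K g).1 h1 r c h).1
  · exact (h2 r c (neg_le_neg h)).1

/-- The group `U_M`, `M` the complement of `J`. -/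
def UM (b : P.Base) (K : Type) [Field K] [NumberField K] (J : Finset b.support) : Subgroup (GK b K) := HU b K ⊓ LG b K (dJ b J)

/-! ## Ordered products -/

theorem pK_nil (t : ι → K) : pK b K [] t = 1 := rfl

theorem pK_cons (β : ι) (l : List ι) (t : ι → K) : pK b K (β :: l) t = b1x b K β (t β) * pK b K l t := by
  unfold pK
  rw [List.map_cons, List.prod_cons]

theorem pK_mem {H : Subgroup (GK b K)} {l : List ι} {t : ι → K} (h : ∀ β ∈ l, b1x b K β (t β) ∈ H) : pK b K l t ∈ H := by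
  refine Subgroup.list_prod_mem H fun x hx => ?_
  obtain ⟨β, hβ, rfl⟩ := List.mem_map.1 hx
  exact h β hβ

theorem HU_prod {u : GK b K} (hu : u ∈ HU b K) : ∃ t : ι → K, u = pK b K (posL b) t := by
  obtain ⟨t, ht⟩ := prod_exists b (GQ_Nmz b u.2) ((mem_HU_iff b u).1 hu)
  refine ⟨t, Subtype.ext (Units.ext ?_)⟩
  exact ht.trans (pK_coe _ _).symm

theorem posL_dJ (J : Finset b.support) {β : ι} (h : β ∈ posL b) : 0 ≤ dJ b J (Sum.inr β) := Finset.sum_nonneg fun j _ => mc_pos b ((posL_mem b β).1 h) j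

/-- The degree preserving part of a matrix. -/
def dp (h : I b → ℤ) {A : Type} [Zero A] (X : Matrix (I b) (I b) A) : Matrix (I b) (I b) A := Matrix.of fun r c => if h r = h c then X r c else 0

theorem dp_mul {h : I b → ℤ} {A : Type} [CommRing A] {X Y : Matrix (I b) (I b) A} (hX : RaiseBy h 0 X) (hY : RaiseBy h 0 Y) : dp h (X * Y) = dp h X * dp h Y := by
  ext r c
  simp only [dp, Matrix.of_apply, Matrix.mul_apply]
  split_ifs with hrc
  · refine Finset.sum_congr rfl fun k _ => ?_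
    by_cases h1 : h r = h k
    · rw [if_pos h1, if_pos (h1.symm.trans hrc)]
    · rw [if_neg h1, zero_mul]
      rcases lt_or_gt_of_ne h1 with h2 | h2
      · rw [hX r k (by lia), zero_mul]
      · rw [hY k c (by lia), mul_zero]
  · refine (Finset.sum_eq_zero fun k _ => ?_).symm
    by_cases h1 : h r = h k
    · rw [if_neg (fun h2 => hrc (h1.trans h2)), mul_zero]
    · rw [if_neg h1, zero_mul]

theorem dp_one (h : I b → ℤ) : dp h (1 : Matrix (I b) (I b) K) = 1 := by
  ext r c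
  simp only [dp, Matrix.of_apply]
  split_ifs with h1
  · rfl
  · rw [Matrix.one_apply_ne (fun h => h1 (by rw [h]))]

theorem raise0_of_UG {h : I b → ℤ} {g : GK b K} (hg : g ∈ UG b K h) : RaiseBy h 0 g.1.1 := by
  intro r c hrc
  rw [(hg r c (by lia)).1, Matrix.one_apply_ne (fun h => by rw [h] at hrc; lia)]

theorem raise0_of_LG {h : I b → ℤ} {g : GK b K} (hg : g ∈ LG b K h) : RaiseBy h 0 g.1.1 := by
  intro r c hrc
  exact (hg r c (by lia)).1

/-- The elements of `U` do not lower the degree `dJ`. -/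
theorem HU_raise0 (J : Finset b.support) {u : GK b K} (hu : u ∈ HU b K) : RaiseBy (dJ b J) 0 u.1.1 := by
  obtain ⟨t, rfl⟩ := HU_prod hu
  rw [pK_coe]
  have h : ∀ l : List ι, (∀ β ∈ l, β ∈ posL b) → RaiseBy (dJ b J) 0 (PL b l t) := by
    intro l
    induction l with
    | nil =>
      intro _ r c hrc
      exact Matrix.one_apply_ne (fun h => by rw [h] at hrc; lia)
    | cons β l ih =>
      intro hl
      have e : PL b (β :: l) t = xx b β (t β) * PL b l t := by
        unfold PL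
        rw [List.map_cons, List.prod_cons]
      rw [e]
      have h1 := b3_mul (x_raise0 (lin_dJ b J) (posL_dJ J (hl β List.mem_cons_self)) (t β)) (ih fun γ hγ => hl γ (List.mem_cons_of_mem _ hγ))
      exact b3_mono (by lia) h1
  exact h _ fun β hβ => hβ

/-- The degree preserving part of an ordered product. -/
theorem dp_PL (J : Finset b.support) (t : ι → K) (l : List ι) (hl : ∀ β ∈ l, β ∈ posL b) :
    dp (dJ b J) (PL b l t) = PL b (l.filter fun β => decide (dJ b J (Sum.inr β) = 0)) t ∧ RaiseBy (dJ b J) 0 (PL b l t) := by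
  induction l with
  | nil =>
    refine ⟨dp_one _, ?_⟩
    intro r c hrc
    exact Matrix.one_apply_ne (fun h => by rw [h] at hrc; lia)
  | cons β l ih =>
    obtain ⟨ih1, ih2⟩ := ih fun γ hγ => hl γ (List.mem_cons_of_mem _ hγ)
    have e : ∀ (β : ι) (l : List ι), PL b (β :: l) t = xx b β (t β) * PL b l t := by
      intro β l
      unfold PL
      rw [List.map_cons, List.prod_cons]
    have h0 := posL_dJ J (hl β List.mem_cons_self)
    have h1 := x_raise0 (lin_dJ b J) h0 (t β)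
    refine ⟨?_, ?_⟩
    · rw [e, dp_mul h1 ih2, ih1]
      by_cases h2 : dJ b J (Sum.inr β) = 0
      · rw [List.filter_cons_of_pos (by simpa using h2), e]
        congr 1
        ext r c
        simp only [dp, Matrix.of_apply]
        split_ifs with h3
        · rfl
        · exact (x_pres (lin_dJ b J) h2 (t β) h3).symm
      · rw [List.filter_cons_of_neg (by simpa using h2)]
        have h3 : dp (dJ b J) (xx b β (t β)) = 1 := by
          ext r c
          simp only [dp, Matrix.of_apply]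
          have h4 := x_raise1 (lin_dJ b J) (lt_of_le_of_ne h0 (Ne.symm h2)) (t β) r c
          split_ifs with h5
          · have h6 := h4 (by lia)
            rw [Matrix.sub_apply, sub_eq_zero] at h6
            exact h6
          · rw [Matrix.one_apply_ne (fun h => h5 (by rw [h]))]
        rw [h3, one_mul]
    · rw [e]
      exact b3_mono (by lia) (b3_mul h1 ih2)

/-- **`U = U_M N_J`.** The factor in `U_M` is an ordered product over the positive roots of degree zero. -/
theorem HU_split (J : Finset b.support) {u : GK b K} (hu : u ∈ HU b K) :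
    ∃ t : ι → K, u = pK b K (posL b) t ∧ (pK b K ((posL b).filter fun β => decide (dJ b J (Sum.inr β) = 0)) t)⁻¹ * u ∈ NJ b K J := by
  obtain ⟨t, ht⟩ := HU_prod hu
  refine ⟨t, ht, ?_⟩
  set m := pK b K ((posL b).filter fun β => decide (dJ b J (Sum.inr β) = 0)) t with hm
  have hmU : m ∈ HU b K := by
    refine pK_mem fun β hβ => b1_pos b K β ?_ _
    exact (posL_mem b β).1 (List.mem_filter.1 hβ).1
  have hmL : m ∈ LG b K (dJ b J) := by
    refine pK_mem fun β hβ => x_mem_LG (lin_dJ b J) ?_ _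
    simpa using (List.mem_filter.1 hβ).2
  have hv : m⁻¹ * u ∈ HU b K := mul_mem (inv_mem hmU) hu
  have hdp : dp (dJ b J) u.1.1 = m.1.1 := by
    rw [ht, pK_coe, (dp_PL J t (posL b) fun β hβ => hβ).1, hm, pK_coe]
  have hdpL : ∀ g ∈ LG b K (dJ b J), dp (dJ b J) g.1.1 = g.1.1 := by
    intro g hg
    ext r c
    simp only [dp, Matrix.of_apply]
    split_ifs with h
    · rfl
    · exact (hg r c h).1.symm
  have key : ∀ g : GK b K, g ∈ HU b K → dp (dJ b J) g.1.1 = 1 → RaiseBy (dJ b J) 1 (g.1.1 - 1) := by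
    intro g hg h1 r c hrc
    rw [Matrix.sub_apply, sub_eq_zero]
    by_cases h2 : dJ b J r = dJ b J c
    · have h3 := congrFun (congrFun h1 r) c
      simp only [dp, Matrix.of_apply, if_pos h2] at h3
      exact h3
    · rw [HU_raise0 J hg r c (by lia), Matrix.one_apply_ne (fun h => h2 (by rw [h]))]
  have h1 : dp (dJ b J) (m⁻¹ * u).1.1 = 1 := by
    have e : (m⁻¹ * u).1.1 = m⁻¹.1.1 * u.1.1 := rfl
    rw [e, dp_mul (HU_raise0 J (inv_mem hmU)) (HU_raise0 J hu), hdp, hdpL _ (inv_mem hmL)]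
    exact m.1.inv_mul
  have h2 : dp (dJ b J) (m⁻¹ * u)⁻¹.1.1 = 1 := by
    have e : (m⁻¹ * u)⁻¹.1.1 * (m⁻¹ * u).1.1 = 1 := (m⁻¹ * u).1.inv_mul
    have h3 := congrArg (dp (dJ b J)) e
    rw [dp_mul (HU_raise0 J (inv_mem hv)) (HU_raise0 J hv), h1, mul_one, dp_one] at h3
    exact h3
  refine ⟨hv, ?_⟩
  exact (mem_UG _ _).2 ⟨key _ hv h1, key _ (inv_mem hv) h2⟩

end

end Pool.Agent.Lib.L8.FC
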