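import Pool.Agent.Lib.L8.FC.D4
import Pool.Agent.Lib.L8.FC.D6

/-!
# FC, file N0 (helper21): certificates for explicit words (stage 2, numbers)

`va A l v` is the coordinate vector of `w v`, `w` the element of the word `l` (last letter first), for the Cartan matrix `A`.
-/

namespace Pool.Agent.Lib.L8.FC

set_option linter.unusedSectionVars false

open Matrix Pool.Agent.Lib.L1S Pool.Agent.Lib.L8.FL

noncomputable section

/-! ## Computable objects -/

/-- The reflection `s_i` on coordinate vectors. -/
def rf {n : ℕ} (A : Matrix (Fin n) (Fin n) ℤ) (i : Fin n) (v : Fin n → ℤ) : Fin n → ℤ := fun k => if k = i then v k - ∑ l, v l * A l i else v k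

/-- The action of a word. -/
def va {n : ℕ} (A : Matrix (Fin n) (Fin n) ℤ) : List (Fin n) → (Fin n → ℤ) → Fin n → ℤ
  | [], v => v
  | i :: l, v => va A l (rf A i v)

/-- The word is reduced. -/
def redc {n : ℕ} (A : Matrix (Fin n) (Fin n) ℤ) : List (Fin n) → Prop
  | [] => True
  | i :: l => (∃ k, 0 < va A l (Pi.single i 1) k) ∧ redc A l

/-- The certificate for `w = w_J`, `J* = J'`. -/
def certc {n : ℕ} (A : Matrix (Fin n) (Fin n) ℤ) (l : List (Fin n)) (J J' : Finset (Fin n)) : Prop :=
  redc A l ∧ (∀ i, (i ∈ J → ∃ k, va A l (Pi.single i 1) k < 0) ∧ (i ∉ J → ∃ k, va A l (Pi.single i 1) = Pi.single k 1)) ∧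
    ∀ i, (i ∈ J' → ∃ k, va A l.reverse (Pi.single i 1) k < 0) ∧ (i ∉ J' → ∃ k, 0 < va A l.reverse (Pi.single i 1) k)

/-- The gain of a word, for the parameter `ρ + λ_(J')`. -/
def gc {n : ℕ} (A : Matrix (Fin n) (Fin n) ℤ) (J' : Finset (Fin n)) : Finset (Fin n) → List (Fin n) → ℤ
  | _, [] => 0
  | B, i :: l => gc A J' (B.erase i) l + (if i ∉ l then (if i ∈ B then ∑ j ∈ J', va A.transpose l (Pi.single i 1) j else 1) else 0)

variable {ι M N : Type} [Fintype ι] [DecidableEq ι] [AddCommGroup M] [Module ℚ M] [AddCommGroup N] [Module ℚ N]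
  {P : RootPairing ι ℚ M N} [P.IsCrystallographic] [P.IsReduced] [P.IsIrreducible] [P.IsRootSystem] {b : P.Base}

/-- The exponent of `N(𝔫)` for a word (as `H29F.gain`). -/
def gn (b : P.Base) (e : b.support → ℝ) (S : Finset b.support) : Finset b.support → List b.support → ℝ
  | _, [] => 0
  | B, i :: l => gn b e S (B.erase i) l + (if i ∈ S ∧ i ∉ l then (if i ∈ B then mu b (eW b e l) i else 1) else 0)

/-! ## The coordinates of the image of a root -/

variable {n : ℕ} {A : Matrix (Fin n) (Fin n) ℤ}

theorem mc_reflect (b : P.Base) (i k : b.support) (β : ι) :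
    mc b k (Sum.inr (P.reflectionPerm (i : ι) β)) = if k = i then mc b k (Sum.inr β) - ∑ l, mc b l (Sum.inr β) * b.cartanMatrix l i else mc b k (Sum.inr β) := by
  have h1 : P.root (P.reflectionPerm (i : ι) β) = P.root β - P.pairing β i • P.root (i : ι) := by
    rw [P.root_reflectionPerm, P.reflection_apply_root]
  split_ifs with h
  · subst h
    have h3 : ((mc b k (Sum.inr (P.reflectionPerm (k : ι) β)) : ℤ) : ℚ) = ((mc b k (Sum.inr β) - ∑ l, mc b l (Sum.inr β) * b.cartanMatrix l k : ℤ) : ℚ) := by
      rw [mc_root, h1, map_sub, map_smul, Finsupp.sub_apply, Finsupp.smul_apply, b.toWeightBasis_repr_root, Finsupp.single_eq_same, ← mc_root]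
      have h4 : P.pairing β k = ((P.pairingIn ℤ β (k : ι) : ℤ) : ℚ) := (P.algebraMap_pairingIn ℤ β k).symm
      rw [h4, pairing_sum b β k]
      push_cast
      simp
    exact_mod_cast h3
  · exact mc_refl b i k (Ne.symm h) β

theorem mc_va (e : b.support ≃ Fin n) (he : ∀ i j : b.support, P.pairingIn ℤ i j = A (e i) (e j)) (l : List (Fin n)) (β : ι) (v : Fin n → ℤ) (hv : ∀ k, mc b (e.symm k) (Sum.inr β) = v k) (k : Fin n) :
    mc b (e.symm k) (Sum.inr (wW b (l.map e.symm) β)) = va A l v k := by
  induction l generalizing β v with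
  | nil => exact hv k
  | cons i l ih =>
    have h1 : wW b ((i :: l).map e.symm) β = wW b (l.map e.symm) (P.reflectionPerm ((e.symm i : b.support) : ι) β) := rfl
    rw [h1]
    refine ih _ (rf A i v) fun k => ?_
    rw [mc_reflect]
    unfold rf
    have h2 : (e.symm k = e.symm i) ↔ k = i := e.symm.injective.eq_iff
    have h3 : ∑ l, mc b l (Sum.inr β) * b.cartanMatrix l (e.symm i) = ∑ l, v l * A l i := by
      rw [← Equiv.sum_comp e.symm]
      refine Finset.sum_congr rfl fun l _ => ?_
      have h4 : b.cartanMatrix (e.symm l) (e.symm i) = A l i := by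
        have h5 := he (e.symm l) (e.symm i)
        rw [Equiv.apply_symm_apply, Equiv.apply_symm_apply] at h5
        exact h5
      rw [hv, h4]
    simp only [h2, h3, hv]

theorem pairing_ck (b : P.Base) (i : b.support) (β : ι) : P.pairing (i : ι) β = ∑ l, ck b l β * (b.cartanMatrix i l : ℚ) := by
  have h1 : P.pairing (i : ι) β = P.coroot' β (P.root i) := rfl
  rw [h1, coroot_sum' b β (P.root i)]
  refine Finset.sum_congr rfl fun l _ => ?_
  rw [cartan_pairing]
  rfl

theorem ck_reflect (b : P.Base) (i j : b.support) (β : ι) :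
    ck b j (P.reflectionPerm (i : ι) β) = if j = i then ck b j β - ∑ l, ck b l β * (b.cartanMatrix i l : ℚ) else ck b j β := by
  have h0 : ck b j (P.reflectionPerm (i : ι) β) = ck b j β - P.pairing (i : ι) β * ck b j (i : ι) := ck_refl b (one_mem _) j i β
  rw [h0, ck_simple, pairing_ck]
  split_ifs with h h2 h2
  · ring
  · exact absurd h.symm h2
  · exact absurd h2.symm h
  · ring

theorem ck_va (e : b.support ≃ Fin n) (he : ∀ i j : b.support, P.pairingIn ℤ i j = A (e i) (e j)) (l : List (Fin n)) (β : ι) (v : Fin n → ℤ) (hv : ∀ k, ck b (e.symm k) β = v k) (k : Fin n) :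
    ck b (e.symm k) (wW b (l.map e.symm) β) = va A.transpose l v k := by
  induction l generalizing β v with
  | nil => exact hv k
  | cons i l ih =>
    have h1 : wW b ((i :: l).map e.symm) β = wW b (l.map e.symm) (P.reflectionPerm ((e.symm i : b.support) : ι) β) := rfl
    rw [h1]
    refine ih _ (rf A.transpose i v) fun k => ?_
    rw [ck_reflect]
    unfold rf
    have h2 : (e.symm k = e.symm i) ↔ k = i := e.symm.injective.eq_iff
    have h3 : ∑ l, ck b l β * (b.cartanMatrix (e.symm i) l : ℚ) = ((∑ l, v l * A.transpose l i : ℤ) : ℚ) := by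
      rw [← Equiv.sum_comp e.symm]
      push_cast
      refine Finset.sum_congr rfl fun l _ => ?_
      have h4 : b.cartanMatrix (e.symm i) (e.symm l) = A.transpose l i := by
        have h5 := he (e.symm i) (e.symm l)
        rw [Equiv.apply_symm_apply, Equiv.apply_symm_apply] at h5
        exact h5
      rw [hv, h4]
    simp only [h2, h3, hv]
    split_ifs
    · push_cast
      rfl
    · rfl

theorem mc_single (e : b.support ≃ Fin n) (i k : Fin n) : mc b (e.symm k) (Sum.inr ((e.symm i : b.support) : ι)) = (Pi.single i 1 : Fin n → ℤ) k := by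
  rw [mc_simple, Pi.single_apply]
  have h2 : (e.symm i = e.symm k) ↔ k = i := by rw [e.symm.injective.eq_iff]; exact eq_comm
  simp only [h2]

theorem ck_single (e : b.support ≃ Fin n) (i k : Fin n) : ck b (e.symm k) ((e.symm i : b.support) : ι) = ((Pi.single i 1 : Fin n → ℤ) k : ℤ) := by
  rw [ck_simple, Pi.single_apply]
  have h2 : (e.symm i = e.symm k) ↔ k = i := by rw [e.symm.injective.eq_iff]; exact eq_comm
  simp only [h2]
  split_ifs <;> simp

theorem redc_spec (e : b.support ≃ Fin n) (he : ∀ i j : b.support, P.pairingIn ℤ i j = A (e i) (e j)) (l : List (Fin n)) (h : redc A l) : RedW b (l.map e.symm) := by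
  induction l with
  | nil => trivial
  | cons i l ih =>
    obtain ⟨⟨k, hk⟩, h2⟩ := h
    refine ⟨pos_of_one b (k := e.symm k) ?_, ih h2⟩
    rw [mc_va e he l _ _ (mc_single e i)]
    exact hk

/-- Two roots with the same coordinates are equal. -/
theorem root_ext (b : P.Base) {β γ : ι} (h : ∀ k, mc b k (Sum.inr β) = mc b k (Sum.inr γ)) : β = γ := by
  apply P.root.injective
  rw [root_sum b β, root_sum b γ]
  exact Finset.sum_congr rfl fun k _ => by rw [h k]

theorem cert_IsWJ (e : b.support ≃ Fin n) (he : ∀ i j : b.support, P.pairingIn ℤ i j = A (e i) (e j)) {l : List (Fin n)} {J J' : Finset (Fin n)} (h : certc A l J J') :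
    IsWJ b (J.map e.symm.toEmbedding) (wW b (l.map e.symm)) := by
  obtain ⟨-, h1, -⟩ := h
  have hneg : ∀ i ∈ J, ¬b.IsPos (wW b (l.map e.symm) ((e.symm i : b.support) : ι)) := by
    intro i hi
    obtain ⟨k, hk⟩ := (h1 i).1 hi
    refine neg_of_one b (k := e.symm k) ?_
    rw [mc_va e he l _ _ (mc_single e i)]
    exact hk
  have hsim : ∀ i ∉ J, wW b (l.map e.symm) ((e.symm i : b.support) : ι) ∈ b.support := by
    intro i hi
    obtain ⟨k, hk⟩ := (h1 i).2 hi
    have h2 : wW b (l.map e.symm) ((e.symm i : b.support) : ι) = ((e.symm k : b.support) : ι) := by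
      refine root_ext b fun j => ?_
      obtain ⟨j', rfl⟩ := e.symm.surjective j
      rw [mc_va e he l _ _ (mc_single e i), hk, mc_single]
    rw [h2]
    exact (e.symm k).2
  have h2 := isWJ_of (b := b) (wW_mem b (l.map e.symm)) fun i hi hp => by
    have h3 : e.symm (e ⟨i, hi⟩) = ⟨i, hi⟩ := e.symm_apply_apply _
    by_cases hJ : e ⟨i, hi⟩ ∈ J
    · have h4 := hneg _ hJ
      rw [h3] at h4
      exact absurd hp h4
    · have h4 := hsim _ hJ
      rw [h3] at h4
      exact h4
  have h3 : Jw b (wW b (l.map e.symm)) = J.map e.symm.toEmbedding := by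
    ext i
    rw [mem_Jw, Finset.mem_map]
    constructor
    · intro h4
      refine ⟨e i, ?_, e.symm_apply_apply i⟩
      by_contra h5
      have h6 := hsim _ h5
      rw [e.symm_apply_apply] at h6
      exact h4 (b.isPos_of_mem_support h6)
    · rintro ⟨j, hj, rfl⟩
      exact hneg j hj
  rw [h3] at h2
  exact h2

theorem cert_Js (e : b.support ≃ Fin n) (he : ∀ i j : b.support, P.pairingIn ℤ i j = A (e i) (e j)) {l : List (Fin n)} {J J' : Finset (Fin n)} (h : certc A l J J') :
    Js b (wW b (l.map e.symm)) = J'.map e.symm.toEmbedding := by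
  obtain ⟨-, -, h1⟩ := h
  ext i
  rw [mem_Js, Finset.mem_map, ← wW_reverse, ← List.map_reverse]
  constructor
  · intro h2
    refine ⟨e i, ?_, e.symm_apply_apply i⟩
    by_contra h3
    obtain ⟨k, hk⟩ := (h1 (e i)).2 h3
    apply h2
    refine pos_of_one b (k := e.symm k) ?_
    have h4 := mc_va e he l.reverse _ _ (mc_single e (e i)) k
    rw [e.symm_apply_apply] at h4
    rw [h4]
    exact hk
  · rintro ⟨j, hj, rfl⟩
    obtain ⟨k, hk⟩ := (h1 j).1 hj
    refine neg_of_one b (k := e.symm k) ?_
    have h4 := mc_va e he l.reverse _ _ (mc_single e j) k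
    change mc b (e.symm k) (Sum.inr (wW b (List.map e.symm l.reverse) ((e.symm j : b.support) : ι))) < 0
    rw [h4]
    exact hk

/-! ## The gain -/

theorem mem_map_symm (e : b.support ≃ Fin n) (i : Fin n) (l : List (Fin n)) : e.symm i ∈ l.map e.symm ↔ i ∈ l := by
  rw [List.mem_map]
  constructor
  · rintro ⟨j, hj, h⟩
    rw [← e.symm.injective h]
    exact hj
  · exact fun h => ⟨i, h, rfl⟩

theorem gn_gc (e : b.support ≃ Fin n) (he : ∀ i j : b.support, P.pairingIn ℤ i j = A (e i) (e j)) {J' : Finset (Fin n)} {c : ℝ} (hc : 1 ≤ c) (l : List (Fin n)) (hl : redc A l) (B : Finset (Fin n)) :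
    (gc A J' B l : ℝ) ≤ gn b (eJ b c (J'.map e.symm.toEmbedding)) Finset.univ (B.map e.symm.toEmbedding) (l.map e.symm) := by
  induction l generalizing B with
  | nil =>
    change ((0 : ℤ) : ℝ) ≤ 0
    simp
  | cons i l ih =>
    have h1 := ih hl.2 (B.erase i)
    have hB : (B.erase i).map e.symm.toEmbedding = (B.map e.symm.toEmbedding).erase (e.symm i) := by
      rw [Finset.map_erase]
      rfl
    rw [hB] at h1
    have h2 : gn b (eJ b c (J'.map e.symm.toEmbedding)) Finset.univ (B.map e.symm.toEmbedding) ((i :: l).map e.symm) =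
        gn b (eJ b c (J'.map e.symm.toEmbedding)) Finset.univ ((B.map e.symm.toEmbedding).erase (e.symm i)) (l.map e.symm) +
          (if e.symm i ∈ (Finset.univ : Finset b.support) ∧ e.symm i ∉ l.map e.symm then (if e.symm i ∈ B.map e.symm.toEmbedding then mu b (eW b (eJ b c (J'.map e.symm.toEmbedding)) (l.map e.symm)) (e.symm i) else 1) else 0) := rfl
    have h3 : gc A J' B (i :: l) = gc A J' (B.erase i) l + (if i ∉ l then (if i ∈ B then ∑ j ∈ J', va A.transpose l (Pi.single i 1) j else 1) else 0) := rfl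
    rw [h2, h3, Int.cast_add]
    refine add_le_add h1 ?_
    have h4 : (e.symm i ∈ (Finset.univ : Finset b.support) ∧ e.symm i ∉ l.map e.symm) ↔ i ∉ l := by
      rw [mem_map_symm]
      simp
    have h5 : e.symm i ∈ B.map e.symm.toEmbedding ↔ i ∈ B := by
      rw [Finset.mem_map_equiv]
      simp
    by_cases hil : i ∈ l
    · rw [if_neg (not_not.2 hil), if_neg (fun h => h4.1 h hil), Int.cast_zero]
    · rw [if_pos hil, if_pos (h4.2 hil)]
      by_cases hiB : i ∈ B
      · rw [if_pos hiB, if_pos (h5.2 hiB), mu_eW, Int.cast_sum]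
        have h6 : ∀ j, mu b (eJ b c (J'.map e.symm.toEmbedding)) j * (ck b j (wW b (l.map e.symm) ((e.symm i : b.support) : ι)) : ℝ) =
            if j ∈ J'.map e.symm.toEmbedding then c * (ck b j (wW b (l.map e.symm) ((e.symm i : b.support) : ι)) : ℝ) else 0 := by
          intro j
          rw [mu_eJ]
          split_ifs
          · rfl
          · exact zero_mul _
        rw [Finset.sum_congr rfl fun j _ => h6 j, Finset.sum_ite_mem, Finset.univ_inter, Finset.sum_map]
        refine Finset.sum_le_sum fun j _ => ?_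
        change ((va A.transpose l (Pi.single i 1) j : ℤ) : ℝ) ≤ c * (ck b (e.symm j) (wW b (l.map e.symm) ((e.symm i : b.support) : ι)) : ℝ)
        have h7 := ck_va e he l _ _ (ck_single e i) j
        have h8 : 0 ≤ ck b (e.symm j) (wW b (l.map e.symm) ((e.symm i : b.support) : ι)) := ck_nonneg b _ (redc_spec e he (i :: l) hl).1
        rw [h7] at h8 ⊢
        have h9 : (0 : ℝ) ≤ ((va A.transpose l (Pi.single i 1) j : ℤ) : ℝ) := by exact_mod_cast h8
        have h10 : (((va A.transpose l (Pi.single i 1) j : ℤ) : ℚ) : ℝ) = ((va A.transpose l (Pi.single i 1) j : ℤ) : ℝ) := by push_cast; rfl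
        rw [h10]
        nlinarith
      · rw [if_neg hiB, if_neg (fun h => hiB (h5.1 h)), Int.cast_one]

end

end Pool.Agent.Lib.L8.FC
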