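import Pool.Agent.Lib.L8.FC.N0
import Pool.Agent.Lib.L8.F7.RDefs

/-!
# FC, file N1 (helper21): the numbers of stage 2 from a table
-/

namespace Pool.Agent.Lib.L8.FC

set_option linter.unusedSectionVars false

open Matrix Pool.Agent.Lib.L1S Pool.Agent.Lib.L8.FL Pool.Agent.Lib.L8.F7

noncomputable section

/-! ## Decidability of the certificates -/

instance decRedc {n : ℕ} (A : Matrix (Fin n) (Fin n) ℤ) : ∀ l, Decidable (redc A l)
  | [] => isTrue trivial
  | i :: l => by
    have := decRedc A l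
    unfold redc
    infer_instance

instance decCertc {n : ℕ} (A : Matrix (Fin n) (Fin n) ℤ) (l : List (Fin n)) (J J' : Finset (Fin n)) : Decidable (certc A l J J') := by
  unfold certc
  infer_instance

/-- The torus direction of the table. -/
def torc {n : ℕ} (A : Matrix (Fin n) (Fin n) ℤ) (l : List (Fin n)) : Prop := ∃ i k, (A k i - ∑ m, va A.transpose l (Pi.single i 1) m * A k m).natAbs ∈ ({1, 2, 4} : Finset ℕ)

instance decTorc {n : ℕ} (A : Matrix (Fin n) (Fin n) ℤ) (l : List (Fin n)) : Decidable (torc A l) := by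
  unfold torc
  infer_instance

variable {ι M N : Type} [Fintype ι] [DecidableEq ι] [AddCommGroup M] [Module ℚ M] [AddCommGroup N] [Module ℚ N]
  {P : RootPairing ι ℚ M N} [P.IsCrystallographic] [P.IsReduced] [P.IsIrreducible] [P.IsRootSystem] {b : P.Base}

/-- There is a direction of the torus which `1 - w` maps to a character value `s ^ m`, `m = ± 1, ± 2, ± 4`: `⟨α_k, (1 - w) α_i^∨⟩ = m`. -/
def TorC (b : P.Base) (w : Equiv.Perm ι) : Prop := ∃ i k : b.support, (P.pairingIn ℤ (k : ι) (i : ι) - P.pairingIn ℤ (k : ι) (w (i : ι))).natAbs ∈ ({1, 2, 4} : Finset ℕ)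

/-- **The numbers of stage 2** for `w = w_J`, `ν = ν_w = ν_(w⁻¹)`: a reduced word, the exponent `ν ≤ gain + κ` (`κ = 1` only with a torus direction) and the inequality for every dominant `Λ`. -/
def Stage2 (b : P.Base) (D : ℝ) (nu : Finset b.support → ℤ) (J : Finset b.support) (w : Equiv.Perm ι) : Prop :=
  ∃ (L : List b.support) (κ : ℤ), RedW b L ∧ wW b L = w ∧ (κ = 0 ∨ (κ = 1 ∧ TorC b w)) ∧ (Fintype.card b.support : ℤ) ≤ nu J ∧ nu (Js b w) = nu J ∧
    (∀ c : ℝ, 1 ≤ c → (nu J : ℝ) ≤ gn b (eJ b c (Js b w)) Finset.univ Finset.univ L + κ) ∧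
      ∀ Λ : b.support → ℝ, (∀ i, 0 ≤ al (cA b) i Λ) →
        D * (∑ j ∈ J, Λ j + ∑ j ∈ Js b w, Λ j) ≤ 2 * (∑ k, Λ k) * (∑ j ∈ J, rr b j + ∑ j ∈ Js b w, rr b j + nu J)

variable {n : ℕ} {A : Matrix (Fin n) (Fin n) ℤ}

theorem om_of (e : b.support ≃ Fin n) (he : ∀ i j : b.support, P.pairingIn ℤ i j = A (e i) (e j)) (Om : Fin n → Fin n → ℝ) (h : ∀ j l, ∑ k, Om j k * ((A k l : ℤ) : ℝ) = if j = l then 1 else 0) (j k : Fin n) :
    om b (e.symm j) (e.symm k) = Om j k := by
  have h1 : om b (e.symm j) = fun k => Om j (e k) := by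
    refine xe_inj b fun i => ?_
    rw [xe_om]
    unfold xe
    rw [← Equiv.sum_comp e.symm]
    have h2 : ∀ l, Om j (e (e.symm l)) * (b.cartanMatrix (e.symm l) i : ℝ) = Om j l * ((A l (e i) : ℤ) : ℝ) := by
      intro l
      have h4 : b.cartanMatrix (e.symm l) i = A l (e i) := by
        have h5 := he (e.symm l) i
        rw [Equiv.apply_symm_apply] at h5
        exact h5
      rw [Equiv.apply_symm_apply, h4]
    rw [Finset.sum_congr rfl fun l _ => h2 l, h]
    have h3 : i = e.symm j ↔ j = e i := by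
      rw [Equiv.eq_symm_apply]
      exact eq_comm
    simp only [h3]
  rw [h1]
  simp

theorem torc_spec (e : b.support ≃ Fin n) (he : ∀ i j : b.support, P.pairingIn ℤ i j = A (e i) (e j)) {l : List (Fin n)} (h : torc A l) : TorC b (wW b (l.map e.symm)) := by
  obtain ⟨i, k, h⟩ := h
  refine ⟨e.symm i, e.symm k, ?_⟩
  have h1 : P.pairingIn ℤ ((e.symm k : b.support) : ι) ((e.symm i : b.support) : ι) = A k i := by
    rw [he, Equiv.apply_symm_apply, Equiv.apply_symm_apply]
  have h2 : P.pairingIn ℤ ((e.symm k : b.support) : ι) (wW b (l.map e.symm) ((e.symm i : b.support) : ι)) = ∑ m, va A.transpose l (Pi.single i 1) m * A k m := by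
    have h3 : ((P.pairingIn ℤ ((e.symm k : b.support) : ι) (wW b (l.map e.symm) ((e.symm i : b.support) : ι)) : ℤ) : ℚ) = ((∑ m, va A.transpose l (Pi.single i 1) m * A k m : ℤ) : ℚ) := by
      have h4 : ((P.pairingIn ℤ ((e.symm k : b.support) : ι) (wW b (l.map e.symm) ((e.symm i : b.support) : ι)) : ℤ) : ℚ) = P.pairing ((e.symm k : b.support) : ι) (wW b (l.map e.symm) ((e.symm i : b.support) : ι)) :=
        P.algebraMap_pairingIn ℤ _ _
      rw [h4, pairing_ck, ← Equiv.sum_comp e.symm]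
      push_cast
      refine Finset.sum_congr rfl fun m _ => ?_
      rw [ck_va e he l _ _ (ck_single e i)]
      have h5 : b.cartanMatrix (e.symm k) (e.symm m) = A k m := by
        have h6 := he (e.symm k) (e.symm m)
        rw [Equiv.apply_symm_apply, Equiv.apply_symm_apply] at h6
        exact h6
      rw [h5]
    exact_mod_cast h3
  rw [h1, h2]
  exact h

/-- One line of the table. -/
def Line (A : Matrix (Fin n) (Fin n) ℤ) (D : ℝ) (Om : Fin n → Fin n → ℝ) (nu : Finset (Fin n) → ℤ) (J : Finset (Fin n)) : Prop :=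
  ∃ (l : List (Fin n)) (J' : Finset (Fin n)) (ν κ : ℤ), certc A l J J' ∧ ν ≤ gc A J' Finset.univ l + κ ∧ (κ = 0 ∨ (κ = 1 ∧ torc A l)) ∧ (n : ℤ) ≤ ν ∧ nu J = ν ∧ nu J' = ν ∧
    ∀ Λ : Fin n → ℝ, (∀ i, 0 ≤ ∑ k, ((A i k : ℤ) : ℝ) * Λ k) → D * (∑ j ∈ J, Λ j + ∑ j ∈ J', Λ j) ≤ 2 * (∑ k, Λ k) * (∑ j ∈ J, ∑ k, Om j k + ∑ j ∈ J', ∑ k, Om j k + ν)

/-- From the table to the statement. -/
theorem stage2_of (e : b.support ≃ Fin n) (he : ∀ i j : b.support, P.pairingIn ℤ i j = A (e i) (e j)) {D : ℝ}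
    {Om : Fin n → Fin n → ℝ} (hOm : ∀ j l, ∑ k, Om j k * ((A k l : ℤ) : ℝ) = if j = l then 1 else 0)
    {nu : Finset (Fin n) → ℤ} (tab : ∀ J : Finset (Fin n), J.Nonempty → Line A D Om nu J)
    {J : Finset b.support} (hJ : J.Nonempty) {w : Equiv.Perm ι} (hw : IsWJ b J w) : Stage2 b D (fun S => nu (S.map e.toEmbedding)) J w := by
  obtain ⟨l, J', ν, κ, hc, hg, hκ, h1ν, hνJ, hνJ', hin⟩ := tab (J.map e.toEmbedding) (Finset.map_nonempty.2 hJ)
  have hJe : (J.map e.toEmbedding).map e.symm.toEmbedding = J := by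
    rw [Finset.map_map]
    ext x
    simp
  have h1 := cert_IsWJ e he hc
  rw [hJe] at h1
  have hww : w = wW b (l.map e.symm) := isWJ_unique hw h1
  have hJs := cert_Js e he hc
  rw [← hww] at hJs
  have hνs : nu ((Js b w).map e.toEmbedding) = ν := by
    rw [hJs, Finset.map_map]
    rw [← hνJ']
    congr 1
    ext x
    simp
  refine ⟨l.map e.symm, κ, redc_spec e he l hc.1, hww.symm, ?_, ?_, ?_, ?_, ?_⟩
  · rcases hκ with h | ⟨h, ht⟩
    · exact Or.inl h
    · refine Or.inr ⟨h, ?_⟩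
      rw [hww]
      exact torc_spec e he ht
  · change (Fintype.card b.support : ℤ) ≤ nu (J.map e.toEmbedding)
    rw [hνJ, Fintype.card_congr e, Fintype.card_fin]
    exact h1ν
  · change nu ((Js b w).map e.toEmbedding) = nu (J.map e.toEmbedding)
    rw [hνs, hνJ]
  · intro c hc1
    change ((nu (J.map e.toEmbedding) : ℤ) : ℝ) ≤ _
    rw [hνJ]
    have h2 := gn_gc e he (J' := J') hc1 l hc.1 Finset.univ
    rw [Finset.map_univ_equiv] at h2
    rw [hJs]
    have h3 : (ν : ℝ) ≤ ((gc A J' Finset.univ l + κ : ℤ) : ℝ) := by exact_mod_cast hg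
    push_cast at h3
    linarith
  · intro Λ hΛ
    change _ ≤ 2 * (∑ k, Λ k) * (∑ j ∈ J, rr b j + ∑ j ∈ Js b w, rr b j + ((nu (J.map e.toEmbedding) : ℤ) : ℝ))
    rw [hνJ]
    have hsum : ∀ (S : Finset (Fin n)) (f : b.support → ℝ), ∑ j ∈ S.map e.symm.toEmbedding, f j = ∑ j ∈ S, f (e.symm j) := by
      intro S f
      rw [Finset.sum_map]
      rfl
    have hdom : ∀ i, 0 ≤ ∑ k, ((A i k : ℤ) : ℝ) * Λ (e.symm k) := by
      intro i
      have h2 := hΛ (e.symm i)
      unfold al at h2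
      rw [← Equiv.sum_comp e.symm] at h2
      refine h2.trans (le_of_eq (Finset.sum_congr rfl fun k _ => ?_))
      have h4 : cA b (e.symm i) (e.symm k) = A i k := by
        have h5 := he (e.symm i) (e.symm k)
        rw [Equiv.apply_symm_apply, Equiv.apply_symm_apply] at h5
        exact h5
      rw [h4]
    have h2 := hin (fun k => Λ (e.symm k)) hdom
    have hrr : ∀ j, rr b (e.symm j) = ∑ k, Om j k := by
      intro j
      unfold rr
      rw [← Equiv.sum_comp e.symm]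
      exact Finset.sum_congr rfl fun k _ => om_of e he Om hOm j k
    have hJ1 : ∀ f : b.support → ℝ, ∑ j ∈ J, f j = ∑ j ∈ J.map e.toEmbedding, f (e.symm j) := by
      intro f
      rw [← hsum, hJe]
    rw [hJs, hJ1, hJ1, hsum, hsum, Finset.sum_congr rfl fun j _ => hrr j, Finset.sum_congr rfl fun j _ => hrr j]
    have h4 : ∑ k, Λ k = ∑ k, Λ (e.symm k) := (Equiv.sum_comp e.symm Λ).symm
    rw [h4]
    exact h2

end

end Pool.Agent.Lib.L8.FC
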