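import Pool.Agent.Lib.L8.FC.N1

/-!
# FC, file N2 (helper21): the tables for `A₁`, `A₂`, `A₃`, `B₂`, `C₂` (generated)
-/

namespace Pool.Agent.Lib.L8.FC

set_option linter.unusedSectionVars false

open Matrix Pool.Agent.Lib.L1S Pool.Agent.Lib.L8.FL Pool.Agent.Lib.L8.F7

noncomputable section

/-- The inverse of the Cartan matrix. -/
def OmA1 : Matrix (Fin 1) (Fin 1) ℝ := !![1/2]

theorem matA1 : CartanMatrix.A 1 = !![2] := by decide

theorem omA1 : ∀ j l, ∑ k, OmA1 j k * (((CartanMatrix.A 1) k l : ℤ) : ℝ) = if j = l then 1 else 0 := by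
  rw [matA1]
  intro j l
  fin_cases j <;> fin_cases l <;> simp [OmA1, Fin.sum_univ_succ] <;> norm_num

/-- The exponents `ν`. -/
def nuA1 (J : Finset (Fin 1)) : ℤ := if J = ∅ then 0 else 2

theorem lineA1_0 : Line (CartanMatrix.A 1) 3 OmA1 nuA1 {0} := by
  refine ⟨[0], {0}, 2, 1, by decide +kernel, by decide +kernel, Or.inr ⟨rfl, by decide +kernel⟩, by decide, by decide +kernel, by decide +kernel, ?_⟩
  rw [matA1]
  intro Λ h
  have h0 := h 0
  simp [Fin.sum_univ_succ] at h0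
  simp [OmA1, Fin.sum_univ_succ]
  linarith

theorem tabA1 : ∀ J : Finset (Fin 1), J.Nonempty → Line (CartanMatrix.A 1) 3 OmA1 nuA1 J := by
  intro J hJ
  have h : ∀ J : Finset (Fin 1), J.Nonempty → (J = {0}) := by decide +kernel
  rcases h J hJ with rfl
  · exact lineA1_0

/-- The inverse of the Cartan matrix. -/
def OmA2 : Matrix (Fin 2) (Fin 2) ℝ := !![2/3, 1/3; 1/3, 2/3]

theorem matA2 : CartanMatrix.A 2 = !![2, -1; -1, 2] := by decide

theorem omA2 : ∀ j l, ∑ k, OmA2 j k * (((CartanMatrix.A 2) k l : ℤ) : ℝ) = if j = l then 1 else 0 := by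
  rw [matA2]
  intro j l
  fin_cases j <;> fin_cases l <;> simp [OmA2, Fin.sum_univ_succ] <;> norm_num

/-- The exponents `ν`. -/
def nuA2 (J : Finset (Fin 2)) : ℤ := if J = ∅ then 0 else if J = {0, 1} then 4 else 2

theorem lineA2_0 : Line (CartanMatrix.A 2) 8 OmA2 nuA2 {0} := by
  refine ⟨[0, 1], {1}, 2, 0, by decide +kernel, by decide +kernel, Or.inl rfl, by decide, by decide +kernel, by decide +kernel, ?_⟩
  rw [matA2]
  intro Λ h
  have h0 := h 0
  have h1 := h 1
  simp [Fin.sum_univ_succ] at h0 h1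
  simp [OmA2, Fin.sum_univ_succ]
  linarith

theorem lineA2_1 : Line (CartanMatrix.A 2) 8 OmA2 nuA2 {1} := by
  refine ⟨[1, 0], {0}, 2, 0, by decide +kernel, by decide +kernel, Or.inl rfl, by decide, by decide +kernel, by decide +kernel, ?_⟩
  rw [matA2]
  intro Λ h
  have h0 := h 0
  have h1 := h 1
  simp [Fin.sum_univ_succ] at h0 h1
  simp [OmA2, Fin.sum_univ_succ]
  linarith

theorem lineA2_01 : Line (CartanMatrix.A 2) 8 OmA2 nuA2 {0, 1} := by
  refine ⟨[0, 1, 0], {1, 0}, 4, 1, by decide +kernel, by decide +kernel, Or.inr ⟨rfl, by decide +kernel⟩, by decide, by decide +kernel, by decide +kernel, ?_⟩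
  rw [matA2]
  intro Λ h
  have h0 := h 0
  have h1 := h 1
  simp [Fin.sum_univ_succ] at h0 h1
  simp [OmA2, Fin.sum_univ_succ]
  linarith

theorem tabA2 : ∀ J : Finset (Fin 2), J.Nonempty → Line (CartanMatrix.A 2) 8 OmA2 nuA2 J := by
  intro J hJ
  have h : ∀ J : Finset (Fin 2), J.Nonempty → (J = {0} ∨ J = {1} ∨ J = {0, 1}) := by decide +kernel
  rcases h J hJ with rfl | rfl | rfl
  · exact lineA2_0
  · exact lineA2_1
  · exact lineA2_01

/-- The inverse of the Cartan matrix. -/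
def OmA3 : Matrix (Fin 3) (Fin 3) ℝ := !![3/4, 1/2, 1/4; 1/2, 1, 1/2; 1/4, 1/2, 3/4]

theorem matA3 : CartanMatrix.A 3 = !![2, -1, 0; -1, 2, -1; 0, -1, 2] := by decide

theorem omA3 : ∀ j l, ∑ k, OmA3 j k * (((CartanMatrix.A 3) k l : ℤ) : ℝ) = if j = l then 1 else 0 := by
  rw [matA3]
  intro j l
  fin_cases j <;> fin_cases l <;> simp [OmA3, Fin.sum_univ_succ] <;> norm_num

/-- The exponents `ν`. -/
def nuA3 (J : Finset (Fin 3)) : ℤ := if J = ∅ then 0 else if J = {0, 1, 2} then 6 else if J = {1} then 4 else if J = {0} ∨ J = {2} then 3 else 5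

theorem lineA3_0 : Line (CartanMatrix.A 3) 16 OmA3 nuA3 {0} := by
  refine ⟨[0, 1, 2], {2}, 3, 0, by decide +kernel, by decide +kernel, Or.inl rfl, by decide, by decide +kernel, by decide +kernel, ?_⟩
  rw [matA3]
  intro Λ h
  have h0 := h 0
  have h1 := h 1
  have h2 := h 2
  simp [Fin.sum_univ_succ] at h0 h1 h2
  simp [OmA3, Fin.sum_univ_succ]
  linarith

theorem lineA3_1 : Line (CartanMatrix.A 3) 16 OmA3 nuA3 {1} := by
  refine ⟨[1, 2, 0, 1], {1}, 4, 1, by decide +kernel, by decide +kernel, Or.inr ⟨rfl, by decide +kernel⟩, by decide, by decide +kernel, by decide +kernel, ?_⟩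
  rw [matA3]
  intro Λ h
  have h0 := h 0
  have h1 := h 1
  have h2 := h 2
  simp [Fin.sum_univ_succ] at h0 h1 h2
  simp [OmA3, Fin.sum_univ_succ]
  linarith

theorem lineA3_2 : Line (CartanMatrix.A 3) 16 OmA3 nuA3 {2} := by
  refine ⟨[2, 1, 0], {0}, 3, 0, by decide +kernel, by decide +kernel, Or.inl rfl, by decide, by decide +kernel, by decide +kernel, ?_⟩
  rw [matA3]
  intro Λ h
  have h0 := h 0
  have h1 := h 1
  have h2 := h 2
  simp [Fin.sum_univ_succ] at h0 h1 h2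
  simp [OmA3, Fin.sum_univ_succ]
  linarith

theorem lineA3_01 : Line (CartanMatrix.A 3) 16 OmA3 nuA3 {0, 1} := by
  refine ⟨[1, 0, 1, 2, 1], {2, 1}, 5, 0, by decide +kernel, by decide +kernel, Or.inl rfl, by decide, by decide +kernel, by decide +kernel, ?_⟩
  rw [matA3]
  intro Λ h
  have h0 := h 0
  have h1 := h 1
  have h2 := h 2
  simp [Fin.sum_univ_succ] at h0 h1 h2
  simp [OmA3, Fin.sum_univ_succ]
  linarith

theorem lineA3_02 : Line (CartanMatrix.A 3) 16 OmA3 nuA3 {0, 2} := by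
  refine ⟨[0, 1, 2, 1, 0], {2, 0}, 5, 1, by decide +kernel, by decide +kernel, Or.inr ⟨rfl, by decide +kernel⟩, by decide, by decide +kernel, by decide +kernel, ?_⟩
  rw [matA3]
  intro Λ h
  have h0 := h 0
  have h1 := h 1
  have h2 := h 2
  simp [Fin.sum_univ_succ] at h0 h1 h2
  simp [OmA3, Fin.sum_univ_succ]
  linarith

theorem lineA3_12 : Line (CartanMatrix.A 3) 16 OmA3 nuA3 {1, 2} := by
  refine ⟨[1, 2, 1, 0, 1], {1, 0}, 5, 0, by decide +kernel, by decide +kernel, Or.inl rfl, by decide, by decide +kernel, by decide +kernel, ?_⟩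
  rw [matA3]
  intro Λ h
  have h0 := h 0
  have h1 := h 1
  have h2 := h 2
  simp [Fin.sum_univ_succ] at h0 h1 h2
  simp [OmA3, Fin.sum_univ_succ]
  linarith

theorem lineA3_012 : Line (CartanMatrix.A 3) 16 OmA3 nuA3 {0, 1, 2} := by
  refine ⟨[0, 1, 2, 0, 1, 0], {2, 1, 0}, 6, 1, by decide +kernel, by decide +kernel, Or.inr ⟨rfl, by decide +kernel⟩, by decide, by decide +kernel, by decide +kernel, ?_⟩
  rw [matA3]
  intro Λ h
  have h0 := h 0
  have h1 := h 1
  have h2 := h 2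
  simp [Fin.sum_univ_succ] at h0 h1 h2
  simp [OmA3, Fin.sum_univ_succ]
  linarith

theorem tabA3 : ∀ J : Finset (Fin 3), J.Nonempty → Line (CartanMatrix.A 3) 16 OmA3 nuA3 J := by
  intro J hJ
  have h : ∀ J : Finset (Fin 3), J.Nonempty → (J = {0} ∨ J = {1} ∨ J = {2} ∨ J = {0, 1} ∨ J = {0, 2} ∨ J = {1, 2} ∨ J = {0, 1, 2}) := by decide +kernel
  rcases h J hJ with rfl | rfl | rfl | rfl | rfl | rfl | rfl
  · exact lineA3_0
  · exact lineA3_1
  · exact lineA3_2
  · exact lineA3_01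
  · exact lineA3_02
  · exact lineA3_12
  · exact lineA3_012

/-- The inverse of the Cartan matrix. -/
def OmB2 : Matrix (Fin 2) (Fin 2) ℝ := !![1, 1; 1/2, 1]

theorem matB2 : CartanMatrix.B 2 = !![2, -2; -1, 2] := by decide

theorem omB2 : ∀ j l, ∑ k, OmB2 j k * (((CartanMatrix.B 2) k l : ℤ) : ℝ) = if j = l then 1 else 0 := by
  rw [matB2]
  intro j l
  fin_cases j <;> fin_cases l <;> simp [OmB2, Fin.sum_univ_succ] <;> norm_num

/-- The exponents `ν`. -/
def nuB2 (J : Finset (Fin 2)) : ℤ := if J = ∅ then 0 else if J = {1} then 2 else 3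

theorem lineB2_0 : Line (CartanMatrix.B 2) 10 OmB2 nuB2 {0} := by
  refine ⟨[0, 1, 0], {0}, 3, 0, by decide +kernel, by decide +kernel, Or.inl rfl, by decide, by decide +kernel, by decide +kernel, ?_⟩
  rw [matB2]
  intro Λ h
  have h0 := h 0
  have h1 := h 1
  simp [Fin.sum_univ_succ] at h0 h1
  simp [OmB2, Fin.sum_univ_succ]
  linarith

theorem lineB2_1 : Line (CartanMatrix.B 2) 10 OmB2 nuB2 {1} := by
  refine ⟨[1, 0, 1], {1}, 2, 0, by decide +kernel, by decide +kernel, Or.inl rfl, by decide, by decide +kernel, by decide +kernel, ?_⟩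
  rw [matB2]
  intro Λ h
  have h0 := h 0
  have h1 := h 1
  simp [Fin.sum_univ_succ] at h0 h1
  simp [OmB2, Fin.sum_univ_succ]
  linarith

theorem lineB2_01 : Line (CartanMatrix.B 2) 10 OmB2 nuB2 {0, 1} := by
  refine ⟨[1, 0, 1, 0], {0, 1}, 3, 1, by decide +kernel, by decide +kernel, Or.inr ⟨rfl, by decide +kernel⟩, by decide, by decide +kernel, by decide +kernel, ?_⟩
  rw [matB2]
  intro Λ h
  have h0 := h 0
  have h1 := h 1
  simp [Fin.sum_univ_succ] at h0 h1
  simp [OmB2, Fin.sum_univ_succ]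
  linarith

theorem tabB2 : ∀ J : Finset (Fin 2), J.Nonempty → Line (CartanMatrix.B 2) 10 OmB2 nuB2 J := by
  intro J hJ
  have h : ∀ J : Finset (Fin 2), J.Nonempty → (J = {0} ∨ J = {1} ∨ J = {0, 1}) := by decide +kernel
  rcases h J hJ with rfl | rfl | rfl
  · exact lineB2_0
  · exact lineB2_1
  · exact lineB2_01

/-- The inverse of the Cartan matrix. -/
def OmC2 : Matrix (Fin 2) (Fin 2) ℝ := !![1, 1/2; 1, 1]

theorem matC2 : CartanMatrix.C 2 = !![2, -1; -2, 2] := by decide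

theorem omC2 : ∀ j l, ∑ k, OmC2 j k * (((CartanMatrix.C 2) k l : ℤ) : ℝ) = if j = l then 1 else 0 := by
  rw [matC2]
  intro j l
  fin_cases j <;> fin_cases l <;> simp [OmC2, Fin.sum_univ_succ] <;> norm_num

/-- The exponents `ν`. -/
def nuC2 (J : Finset (Fin 2)) : ℤ := if J = ∅ then 0 else if J = {0} then 2 else 3

theorem lineC2_0 : Line (CartanMatrix.C 2) 10 OmC2 nuC2 {0} := by
  refine ⟨[0, 1, 0], {0}, 2, 0, by decide +kernel, by decide +kernel, Or.inl rfl, by decide, by decide +kernel, by decide +kernel, ?_⟩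
  rw [matC2]
  intro Λ h
  have h0 := h 0
  have h1 := h 1
  simp [Fin.sum_univ_succ] at h0 h1
  simp [OmC2, Fin.sum_univ_succ]
  linarith

theorem lineC2_1 : Line (CartanMatrix.C 2) 10 OmC2 nuC2 {1} := by
  refine ⟨[1, 0, 1], {1}, 3, 0, by decide +kernel, by decide +kernel, Or.inl rfl, by decide, by decide +kernel, by decide +kernel, ?_⟩
  rw [matC2]
  intro Λ h
  have h0 := h 0
  have h1 := h 1
  simp [Fin.sum_univ_succ] at h0 h1
  simp [OmC2, Fin.sum_univ_succ]
  linarith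

theorem lineC2_01 : Line (CartanMatrix.C 2) 10 OmC2 nuC2 {0, 1} := by
  refine ⟨[1, 0, 1, 0], {0, 1}, 3, 1, by decide +kernel, by decide +kernel, Or.inr ⟨rfl, by decide +kernel⟩, by decide, by decide +kernel, by decide +kernel, ?_⟩
  rw [matC2]
  intro Λ h
  have h0 := h 0
  have h1 := h 1
  simp [Fin.sum_univ_succ] at h0 h1
  simp [OmC2, Fin.sum_univ_succ]
  linarith

theorem tabC2 : ∀ J : Finset (Fin 2), J.Nonempty → Line (CartanMatrix.C 2) 10 OmC2 nuC2 J := by
  intro J hJ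
  have h : ∀ J : Finset (Fin 2), J.Nonempty → (J = {0} ∨ J = {1} ∨ J = {0, 1}) := by decide +kernel
  rcases h J hJ with rfl | rfl | rfl
  · exact lineC2_0
  · exact lineC2_1
  · exact lineC2_01

end

end Pool.Agent.Lib.L8.FC
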