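import Pool.Agent.Lib.L8.FC.N1

/-!
# FC, file N4 (helper21): the table for `A₄` with `D = 28` (generated)
-/

namespace Pool.Agent.Lib.L8.FC

set_option linter.unusedSectionVars false

open Matrix Pool.Agent.Lib.L1S Pool.Agent.Lib.L8.FL Pool.Agent.Lib.L8.F7

noncomputable section

/-- The inverse of the Cartan matrix. -/
def OmA4 : Matrix (Fin 4) (Fin 4) ℝ := !![4/5, 3/5, 2/5, 1/5; 3/5, 6/5, 4/5, 2/5; 2/5, 4/5, 6/5, 3/5; 1/5, 2/5, 3/5, 4/5]

theorem matA4 : CartanMatrix.A 4 = !![2, -1, 0, 0; -1, 2, -1, 0; 0, -1, 2, -1; 0, 0, -1, 2] := by decide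

theorem omA4 : ∀ j l, ∑ k, OmA4 j k * (((CartanMatrix.A 4) k l : ℤ) : ℝ) = if j = l then 1 else 0 := by
  rw [matA4]
  intro j l
  fin_cases j <;> fin_cases l <;> simp [OmA4, Fin.sum_univ_succ] <;> norm_num

/-- The exponents `ν`. -/
def nuA4 (J : Finset (Fin 4)) : ℤ := if J = ∅ then 0 else if J = {0, 1, 2} ∨ J = {1, 2, 3} ∨ J = {0, 1, 2, 3} then 8 else if J = {1, 2} ∨ J = {0, 1, 3} ∨ J = {0, 2, 3} then 7 else if J = {0, 3} then 6 else 4

theorem lineA4_0 : Line (CartanMatrix.A 4) 28 OmA4 nuA4 {0} := by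
  refine ⟨[0, 1, 2, 3], {3}, 4, 0, by decide +kernel, by decide +kernel, Or.inl rfl, by decide, by decide +kernel, by decide +kernel, ?_⟩
  rw [matA4]
  intro Λ h
  have h0 := h 0
  have h1 := h 1
  have h2 := h 2
  have h3 := h 3
  simp [Fin.sum_univ_succ] at h0 h1 h2 h3
  simp [OmA4, Fin.sum_univ_succ]
  linarith

theorem lineA4_1 : Line (CartanMatrix.A 4) 28 OmA4 nuA4 {1} := by
  refine ⟨[1, 2, 3, 0, 1, 2], {2}, 4, 0, by decide +kernel, by decide +kernel, Or.inl rfl, by decide, by decide +kernel, by decide +kernel, ?_⟩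
  rw [matA4]
  intro Λ h
  have h0 := h 0
  have h1 := h 1
  have h2 := h 2
  have h3 := h 3
  simp [Fin.sum_univ_succ] at h0 h1 h2 h3
  simp [OmA4, Fin.sum_univ_succ]
  linarith

theorem lineA4_2 : Line (CartanMatrix.A 4) 28 OmA4 nuA4 {2} := by
  refine ⟨[2, 3, 1, 2, 0, 1], {1}, 4, 0, by decide +kernel, by decide +kernel, Or.inl rfl, by decide, by decide +kernel, by decide +kernel, ?_⟩
  rw [matA4]
  intro Λ h
  have h0 := h 0
  have h1 := h 1
  have h2 := h 2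
  have h3 := h 3
  simp [Fin.sum_univ_succ] at h0 h1 h2 h3
  simp [OmA4, Fin.sum_univ_succ]
  linarith

theorem lineA4_3 : Line (CartanMatrix.A 4) 28 OmA4 nuA4 {3} := by
  refine ⟨[3, 2, 1, 0], {0}, 4, 0, by decide +kernel, by decide +kernel, Or.inl rfl, by decide, by decide +kernel, by decide +kernel, ?_⟩
  rw [matA4]
  intro Λ h
  have h0 := h 0
  have h1 := h 1
  have h2 := h 2
  have h3 := h 3
  simp [Fin.sum_univ_succ] at h0 h1 h2 h3
  simp [OmA4, Fin.sum_univ_succ]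
  linarith

theorem lineA4_01 : Line (CartanMatrix.A 4) 28 OmA4 nuA4 {0, 1} := by
  refine ⟨[1, 0, 1, 2, 3, 1, 2], {3, 2}, 4, 0, by decide +kernel, by decide +kernel, Or.inl rfl, by decide, by decide +kernel, by decide +kernel, ?_⟩
  rw [matA4]
  intro Λ h
  have h0 := h 0
  have h1 := h 1
  have h2 := h 2
  have h3 := h 3
  simp [Fin.sum_univ_succ] at h0 h1 h2 h3
  simp [OmA4, Fin.sum_univ_succ]
  linarith

theorem lineA4_02 : Line (CartanMatrix.A 4) 28 OmA4 nuA4 {0, 2} := by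
  refine ⟨[2, 1, 0, 1, 2, 3, 2, 1], {3, 1}, 4, 0, by decide +kernel, by decide +kernel, Or.inl rfl, by decide, by decide +kernel, by decide +kernel, ?_⟩
  rw [matA4]
  intro Λ h
  have h0 := h 0
  have h1 := h 1
  have h2 := h 2
  have h3 := h 3
  simp [Fin.sum_univ_succ] at h0 h1 h2 h3
  simp [OmA4, Fin.sum_univ_succ]
  linarith

theorem lineA4_03 : Line (CartanMatrix.A 4) 28 OmA4 nuA4 {0, 3} := by
  refine ⟨[0, 1, 2, 3, 2, 1, 0], {3, 0}, 6, 1, by decide +kernel, by decide +kernel, Or.inr ⟨rfl, by decide +kernel⟩, by decide, by decide +kernel, by decide +kernel, ?_⟩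
  rw [matA4]
  intro Λ h
  have h0 := h 0
  have h1 := h 1
  have h2 := h 2
  have h3 := h 3
  simp [Fin.sum_univ_succ] at h0 h1 h2 h3
  simp [OmA4, Fin.sum_univ_succ]
  linarith

theorem lineA4_12 : Line (CartanMatrix.A 4) 28 OmA4 nuA4 {1, 2} := by
  refine ⟨[1, 2, 3, 1, 0, 1, 2, 1], {2, 1}, 7, 1, by decide +kernel, by decide +kernel, Or.inr ⟨rfl, by decide +kernel⟩, by decide, by decide +kernel, by decide +kernel, ?_⟩
  rw [matA4]
  intro Λ h
  have h0 := h 0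
  have h1 := h 1
  have h2 := h 2
  have h3 := h 3
  simp [Fin.sum_univ_succ] at h0 h1 h2 h3
  simp [OmA4, Fin.sum_univ_succ]
  linarith

theorem lineA4_13 : Line (CartanMatrix.A 4) 28 OmA4 nuA4 {1, 3} := by
  refine ⟨[1, 2, 3, 2, 1, 0, 1, 2], {2, 0}, 4, 0, by decide +kernel, by decide +kernel, Or.inl rfl, by decide, by decide +kernel, by decide +kernel, ?_⟩
  rw [matA4]
  intro Λ h
  have h0 := h 0
  have h1 := h 1
  have h2 := h 2
  have h3 := h 3
  simp [Fin.sum_univ_succ] at h0 h1 h2 h3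
  simp [OmA4, Fin.sum_univ_succ]
  linarith

theorem lineA4_23 : Line (CartanMatrix.A 4) 28 OmA4 nuA4 {2, 3} := by
  refine ⟨[2, 3, 1, 2, 1, 0, 1], {1, 0}, 4, 0, by decide +kernel, by decide +kernel, Or.inl rfl, by decide, by decide +kernel, by decide +kernel, ?_⟩
  rw [matA4]
  intro Λ h
  have h0 := h 0
  have h1 := h 1
  have h2 := h 2
  have h3 := h 3
  simp [Fin.sum_univ_succ] at h0 h1 h2 h3
  simp [OmA4, Fin.sum_univ_succ]
  linarith

theorem lineA4_012 : Line (CartanMatrix.A 4) 28 OmA4 nuA4 {0, 1, 2} := by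
  refine ⟨[2, 1, 0, 1, 2, 3, 1, 2, 1], {3, 2, 1}, 8, 0, by decide +kernel, by decide +kernel, Or.inl rfl, by decide, by decide +kernel, by decide +kernel, ?_⟩
  rw [matA4]
  intro Λ h
  have h0 := h 0
  have h1 := h 1
  have h2 := h 2
  have h3 := h 3
  simp [Fin.sum_univ_succ] at h0 h1 h2 h3
  simp [OmA4, Fin.sum_univ_succ]
  linarith

theorem lineA4_013 : Line (CartanMatrix.A 4) 28 OmA4 nuA4 {0, 1, 3} := by
  refine ⟨[0, 1, 2, 3, 0, 1, 2, 1, 0], {3, 2, 0}, 7, 1, by decide +kernel, by decide +kernel, Or.inr ⟨rfl, by decide +kernel⟩, by decide, by decide +kernel, by decide +kernel, ?_⟩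
  rw [matA4]
  intro Λ h
  have h0 := h 0
  have h1 := h 1
  have h2 := h 2
  have h3 := h 3
  simp [Fin.sum_univ_succ] at h0 h1 h2 h3
  simp [OmA4, Fin.sum_univ_succ]
  linarith

theorem lineA4_023 : Line (CartanMatrix.A 4) 28 OmA4 nuA4 {0, 2, 3} := by
  refine ⟨[0, 1, 2, 3, 1, 2, 0, 1, 0], {3, 1, 0}, 7, 1, by decide +kernel, by decide +kernel, Or.inr ⟨rfl, by decide +kernel⟩, by decide, by decide +kernel, by decide +kernel, ?_⟩
  rw [matA4]
  intro Λ h
  have h0 := h 0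
  have h1 := h 1
  have h2 := h 2
  have h3 := h 3
  simp [Fin.sum_univ_succ] at h0 h1 h2 h3
  simp [OmA4, Fin.sum_univ_succ]
  linarith

theorem lineA4_123 : Line (CartanMatrix.A 4) 28 OmA4 nuA4 {1, 2, 3} := by
  refine ⟨[1, 2, 3, 2, 1, 0, 1, 2, 1], {2, 1, 0}, 8, 0, by decide +kernel, by decide +kernel, Or.inl rfl, by decide, by decide +kernel, by decide +kernel, ?_⟩
  rw [matA4]
  intro Λ h
  have h0 := h 0
  have h1 := h 1
  have h2 := h 2
  have h3 := h 3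
  simp [Fin.sum_univ_succ] at h0 h1 h2 h3
  simp [OmA4, Fin.sum_univ_succ]
  linarith

theorem lineA4_0123 : Line (CartanMatrix.A 4) 28 OmA4 nuA4 {0, 1, 2, 3} := by
  refine ⟨[0, 1, 2, 3, 0, 1, 2, 0, 1, 0], {3, 2, 1, 0}, 8, 1, by decide +kernel, by decide +kernel, Or.inr ⟨rfl, by decide +kernel⟩, by decide, by decide +kernel, by decide +kernel, ?_⟩
  rw [matA4]
  intro Λ h
  have h0 := h 0
  have h1 := h 1
  have h2 := h 2
  have h3 := h 3
  simp [Fin.sum_univ_succ] at h0 h1 h2 h3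
  simp [OmA4, Fin.sum_univ_succ]
  linarith

theorem tabA4 : ∀ J : Finset (Fin 4), J.Nonempty → Line (CartanMatrix.A 4) 28 OmA4 nuA4 J := by
  intro J hJ
  have h : ∀ J : Finset (Fin 4), J.Nonempty → (J = {0} ∨ J = {1} ∨ J = {2} ∨ J = {3} ∨ J = {0, 1} ∨ J = {0, 2} ∨ J = {0, 3} ∨ J = {1, 2} ∨ J = {1, 3} ∨ J = {2, 3} ∨ J = {0, 1, 2} ∨ J = {0, 1, 3} ∨ J = {0, 2, 3} ∨ J = {1, 2, 3} ∨ J = {0, 1, 2, 3}) := by decide +kernel
  rcases h J hJ with rfl | rfl | rfl | rfl | rfl | rfl | rfl | rfl | rfl | rfl | rfl | rfl | rfl | rfl | rfl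
  · exact lineA4_0
  · exact lineA4_1
  · exact lineA4_2
  · exact lineA4_3
  · exact lineA4_01
  · exact lineA4_02
  · exact lineA4_03
  · exact lineA4_12
  · exact lineA4_13
  · exact lineA4_23
  · exact lineA4_012
  · exact lineA4_013
  · exact lineA4_023
  · exact lineA4_123
  · exact lineA4_0123

end

end Pool.Agent.Lib.L8.FC
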