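import Pool.Agent.Lib.L8.FC.N2
import Pool.Agent.Lib.L8.FC.N4
import Pool.Agent.Lib.L8.F7.Main
import Pool.Agent.Lib.L8.FL.M4
import Pool.Agent.Lib.H29F.FB1

/-!
# FC, file N3 (helper21): the numbers of stage 2
-/

namespace Pool.Agent.Lib.L8.FC

set_option linter.unusedSectionVars false

open Matrix Pool.Agent.Lib.L1S Pool.Agent.Lib.L8.FL Pool.Agent.Lib.L8.F7

noncomputable section

variable {ι M N : Type} [Fintype ι] [DecidableEq ι] [AddCommGroup M] [Module ℚ M] [AddCommGroup N] [Module ℚ N]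
  {P : RootPairing ι ℚ M N} [P.IsCrystallographic] [P.IsReduced] [P.IsIrreducible] [P.IsRootSystem] {b : P.Base}

/-- The types `A₁`, `A₂`, `A₃`, `B₂ = C₂`. -/
def Ty4 (b : P.Base) : Prop := Typ b (CartanMatrix.A 1) ∨ Typ b (CartanMatrix.A 2) ∨ Typ b (CartanMatrix.A 3) ∨ Typ b (CartanMatrix.B 2) ∨ Typ b (CartanMatrix.C 2)

/-- The exponents for the sets `J`, with a constant `D`. -/
def ExS (b : P.Base) (D : ℝ) : Prop := ∃ nu : Finset b.support → ℤ, ∀ (J : Finset b.support), J.Nonempty → ∀ w : Equiv.Perm ι, IsWJ b J w → Stage2 b D nu J w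

theorem exS_A1 (h : Typ b (CartanMatrix.A 1)) : ExS b 3 := by
  obtain ⟨e, he⟩ := h
  exact ⟨_, fun J hJ w hw => stage2_of e he omA1 tabA1 hJ hw⟩

theorem exS_A2 (h : Typ b (CartanMatrix.A 2)) : ExS b 8 := by
  obtain ⟨e, he⟩ := h
  exact ⟨_, fun J hJ w hw => stage2_of e he omA2 tabA2 hJ hw⟩

theorem exS_A3 (h : Typ b (CartanMatrix.A 3)) : ExS b 16 := by
  obtain ⟨e, he⟩ := h
  exact ⟨_, fun J hJ w hw => stage2_of e he omA3 tabA3 hJ hw⟩

theorem exS_A4 (h : Typ b (CartanMatrix.A 4)) : ExS b 28 := by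
  obtain ⟨e, he⟩ := h
  exact ⟨_, fun J hJ w hw => stage2_of e he omA4 tabA4 hJ hw⟩

theorem exS_B2 (h : Typ b (CartanMatrix.B 2)) : ExS b 10 := by
  obtain ⟨e, he⟩ := h
  exact ⟨_, fun J hJ w hw => stage2_of e he omB2 tabB2 hJ hw⟩

theorem exS_C2 (h : Typ b (CartanMatrix.C 2)) : ExS b 10 := by
  obtain ⟨e, he⟩ := h
  exact ⟨_, fun J hJ w hw => stage2_of e he omC2 tabC2 hJ hw⟩

/-- **The numbers of stage 2**, with a constant `D` at least the dimension. -/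
theorem stage2 (hT : Ty4 b) : ∃ D : ℝ, ((Fintype.card ι + Fintype.card b.support : ℕ) : ℝ) ≤ D ∧ ExS b D := by
  rcases hT with h | h | h | h | h
  · obtain ⟨e, he⟩ := id h
    exact ⟨3, (dim_le e he fun p c hc => chA_univ hc).trans (by norm_num), exS_A1 h⟩
  · obtain ⟨e, he⟩ := id h
    exact ⟨8, (dim_le e he fun p c hc => chA_univ hc).trans (by norm_num), exS_A2 h⟩
  · obtain ⟨e, he⟩ := id h
    exact ⟨16, (dim_le e he fun p c hc => chA_univ hc).trans (by norm_num), exS_A3 h⟩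
  · obtain ⟨e, he⟩ := id h
    exact ⟨10, (dim_le e he fun p c hc => chB hc).trans (by norm_num), exS_B2 h⟩
  · obtain ⟨e, he⟩ := id h
    exact ⟨10, (dim_le e he fun p c hc => chC (by norm_num) hc).trans (by norm_num), exS_C2 h⟩

/-! ## Comparison with `H29F.gain` -/

theorem mu_H29F (b : P.Base) (e : b.support → ℝ) (i : b.support) : H29F.mu (fun k i => b.cartanMatrix k i) i e = mu b e i := rfl

theorem ew_H29F (b : P.Base) (e : b.support → ℝ) (L : List b.support) : H29F.ew (fun k i => b.cartanMatrix k i) e L = eW b e L := by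
  induction L with
  | nil => rfl
  | cons i L ih =>
    have h1 : H29F.ew (fun k i => b.cartanMatrix k i) e (i :: L) = H29F.sE (fun k i => b.cartanMatrix k i) i (H29F.ew (fun k i => b.cartanMatrix k i) e L) := rfl
    have h2 : eW b e (i :: L) = se b i (eW b e L) := rfl
    rw [h1, h2, ih]
    funext k
    unfold H29F.sE se
    rw [Function.update_apply, mu_H29F]
    split_ifs with h
    · rw [h]
    · rfl

/-- `gn` is `H29F.gain`. -/
theorem gn_H29F (b : P.Base) (e : b.support → ℝ) (S B : Finset b.support) (L : List b.support) : H29F.gain (fun k i => b.cartanMatrix k i) e S B L = gn b e S B L := by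
  induction L generalizing B with
  | nil => rfl
  | cons i L ih =>
    have h2 : gn b e S B (i :: L) = gn b e S (B.erase i) L + (if i ∈ S ∧ i ∉ L then (if i ∈ B then mu b (eW b e L) i else 1) else 0) := rfl
    rw [H29F.gain_cons, h2, ih, ew_H29F, mu_H29F]
    by_cases h3 : i ∈ S ∧ i ∉ L
    · rw [if_pos h3, if_pos h3]
    · rw [if_neg h3, if_neg h3]

/-! ## The torus direction -/

theorem n3_pairing {w : Equiv.Perm ι} (hw : w ∈ WP P) (i j : ι) : P.pairing (w i) (w j) = P.pairing i j := by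
  induction hw using Subgroup.closure_induction generalizing i j with
  | mem x hx =>
    obtain ⟨k, rfl⟩ := hx
    have h := P.pairing_reflectionPerm k i (P.reflectionPerm k j)
    rw [P.reflectionPerm_self] at h
    exact h.symm
  | one => rfl
  | mul x y _ _ hx hy => rw [Equiv.Perm.mul_apply, Equiv.Perm.mul_apply, hx, hy]
  | inv x _ hx =>
    have h := hx (x⁻¹ i) (x⁻¹ j)
    have e1 : x (x⁻¹ i) = i := x.apply_symm_apply i
    have e2 : x (x⁻¹ j) = j := x.apply_symm_apply j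
    rw [e1, e2] at h
    exact h.symm

theorem pairing_WP {w : Equiv.Perm ι} (hw : w ∈ WP P) (i j : ι) : P.pairingIn ℤ (w i) (w j) = P.pairingIn ℤ i j := by
  have h : ((P.pairingIn ℤ (w i) (w j) : ℤ) : ℚ) = ((P.pairingIn ℤ i j : ℤ) : ℚ) := by
    have h1 : ((P.pairingIn ℤ (w i) (w j) : ℤ) : ℚ) = P.pairing (w i) (w j) := P.algebraMap_pairingIn ℤ _ _
    have h2 : ((P.pairingIn ℤ i j : ℤ) : ℚ) = P.pairing i j := P.algebraMap_pairingIn ℤ _ _
    rw [h1, h2, n3_pairing hw]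
  exact_mod_cast h

theorem torC_pj (L : List b.support) (h : TorC b (wW b L)) : ∃ (i k : b.support) (m : ℕ), (m = 1 ∨ m = 2 ∨ m = 4) ∧
    (pj b i (Sum.inr (k : ι)) - pj b i (Sum.inr ((wW b L)⁻¹ (k : ι))) = m ∨ pj b i (Sum.inr (k : ι)) - pj b i (Sum.inr ((wW b L)⁻¹ (k : ι))) = -m) := by
  obtain ⟨i, k, h⟩ := h
  refine ⟨i, k, (P.pairingIn ℤ (k : ι) (i : ι) - P.pairingIn ℤ (k : ι) (wW b L (i : ι))).natAbs, ?_, ?_⟩
  · simpa using h
  · have h1 : pj b i (Sum.inr (k : ι)) = P.pairingIn ℤ (k : ι) (i : ι) := rfl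
    have h2 : pj b i (Sum.inr ((wW b L)⁻¹ (k : ι))) = P.pairingIn ℤ (k : ι) (wW b L (i : ι)) := by
      have h3 : pj b i (Sum.inr ((wW b L)⁻¹ (k : ι))) = P.pairingIn ℤ ((wW b L)⁻¹ (k : ι)) (i : ι) := rfl
      have h4 := pairing_WP (wW_mem b L) ((wW b L)⁻¹ (k : ι)) (i : ι)
      have e1 : wW b L ((wW b L)⁻¹ (k : ι)) = (k : ι) := (wW b L).apply_symm_apply _
      rw [e1] at h4
      rw [h3, ← h4]
    rw [h1, h2]
    exact Int.natAbs_eq _

/-! ## The final form -/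

/-- The word clause: for every `w = w_J` a reduced word with `ν_w ≤ gain + κ`, `κ = 1` only with a torus direction. -/
def WordC (b : P.Base) (nu : Equiv.Perm ι → ℝ) : Prop :=
  ∀ w, IsC b w → ∃ (L : List b.support) (κ : ℤ), RedW b L ∧ wW b L = w ∧
    (κ = 0 ∨ (κ = 1 ∧ ∃ (i k : b.support) (m : ℕ), (m = 1 ∨ m = 2 ∨ m = 4) ∧
      (pj b i (Sum.inr (k : ι)) - pj b i (Sum.inr ((wW b L)⁻¹ (k : ι))) = m ∨ pj b i (Sum.inr (k : ι)) - pj b i (Sum.inr ((wW b L)⁻¹ (k : ι))) = -m))) ∧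
    ∀ c : ℝ, 1 ≤ c → nu w ≤ gn b (eJ b c (Js b w)) Finset.univ Finset.univ L + κ

/-- **The numbers of stage 2**, with a constant `D`: the exponents `ν_w`, the inequality (C7) and the word clause. -/
theorem s5D {D : ℝ} (h : ExS b D) : ∃ nu : Equiv.Perm ι → ℝ, (∀ w, IsC b w → 1 ≤ nu w ∧ ∀ Λ : b.support → ℝ, (∀ i, 0 ≤ al (cA b) i Λ) →
    D * (∑ j ∈ Js b w⁻¹, Λ j + ∑ j ∈ Js b w, Λ j) ≤ 2 * (∑ k, Λ k) * (∑ k, XW b w k + nu w)) ∧ (∀ w, nu w⁻¹ = nu w) ∧ (∀ w, IsC b w → (Fintype.card b.support : ℝ) ≤ nu w) ∧ WordC b nu := by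
  obtain ⟨nu, hnu⟩ := h
  obtain ⟨nw, hnw⟩ : ∃ nw : Equiv.Perm ι → ℝ, ∀ w, nw w = ((nu (Js b w⁻¹) : ℝ) + (nu (Js b w) : ℝ)) / 2 := ⟨_, fun w => rfl⟩
  have key : ∀ w, ∀ J : Finset b.support, J.Nonempty → IsWJ b J w → nw w = (nu J : ℝ) := by
    intro w J hJ hw
    obtain ⟨-, -, -, -, -, -, h, -, -⟩ := hnu J hJ w hw
    rw [hnw, Js_inv hw, h]
    ring
  have hrk : ∀ w, IsC b w → (Fintype.card b.support : ℝ) ≤ nw w := by
    intro w hw
    obtain ⟨J, hJ, hw⟩ := hw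
    obtain ⟨L, κ, -, -, -, h1, -, -, h2⟩ := hnu J hJ w hw
    rw [key w J hJ hw]
    exact_mod_cast h1
  refine ⟨nw, ?_, ?_, hrk, ?_⟩
  · intro w hw
    have h0 := hrk w hw
    obtain ⟨J, hJ, hw⟩ := hw
    obtain ⟨L, κ, -, -, -, -, -, -, h2⟩ := hnu J hJ w hw
    rw [key w J hJ hw] at h0 ⊢
    have hpos : (1 : ℝ) ≤ (Fintype.card b.support : ℝ) := by
      obtain ⟨j, _⟩ := hJ
      have : 0 < Fintype.card b.support := Fintype.card_pos_iff.2 ⟨j⟩
      exact_mod_cast this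
    refine ⟨hpos.trans h0, fun Λ hΛ => ?_⟩
    have h3 := h2 Λ hΛ
    have h4 : ∑ k, XW b w k = ∑ j ∈ J, rr b j + ∑ j ∈ Js b w, rr b j := by
      unfold XW rr
      rw [Finset.sum_add_distrib, Finset.sum_comm, Finset.sum_comm (s := Finset.univ) (t := Js b w), Js_inv hw]
    rw [h4, Js_inv hw]
    exact h3
  · intro w
    rw [hnw, hnw, inv_inv, add_comm]
  · intro w hw
    obtain ⟨J, hJ, hw⟩ := hw
    obtain ⟨L, κ, h1, h2, h3, -, -, h4, -⟩ := hnu J hJ w hw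
    refine ⟨L, κ, h1, h2, ?_, ?_⟩
    · rcases h3 with h3 | ⟨h3, h5⟩
      · exact Or.inl h3
      · refine Or.inr ⟨h3, torC_pj L ?_⟩
        rw [h2]
        exact h5
    · intro c hc
      rw [key w J hJ hw]
      exact h4 c hc

/-- **The numbers of stage 2**, final form: the exponents `ν_w`, the inequality (C7) and the word clause. -/
theorem s5 (hT : Ty4 b) : ∃ nu : Equiv.Perm ι → ℝ, IneqH b (Fintype.card ι + Fintype.card b.support) nu ∧ (∀ w, nu w⁻¹ = nu w) ∧ (∀ w, IsC b w → (Fintype.card b.support : ℝ) ≤ nu w) ∧ WordC b nu := by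
  obtain ⟨D, hD, h⟩ := stage2 hT
  obtain ⟨nu, h1, h2, h3, h4⟩ := s5D h
  refine ⟨nu, fun w hw => ⟨(h1 w hw).1, fun Λ hΛ => ?_⟩, h2, h3, h4⟩
  refine le_trans (mul_le_mul_of_nonneg_right hD ?_) ((h1 w hw).2 Λ hΛ)
  exact add_nonneg (Finset.sum_nonneg fun j _ => ig_dom hΛ j) (Finset.sum_nonneg fun j _ => ig_dom hΛ j)

end

end Pool.Agent.Lib.L8.FC
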